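import Pool.Agent.Lib.PolyTime.Lists

/-!
# More polynomial-time computable functions
-/

namespace Pool.Agent.PolyTime

attribute [fun_prop] PT PT.id PT.const PT.comp PT.pair PT.fst PT.snd PT.add PT.sub PT.mul PT.cons
  PT.append PT.tail PT.take PT.drop PT.listGetD PT.length PT.reverse PT.le PT.lt PT.natEq
  PT.iteProp PT.ite PT.map PT.range PT.filter PT.all PT.any PT.and PT.or PT.not PT.decAnd
  PT.decOr PT.decNot PT.some PT.getD PT.mod PT.div PT.max PT.min PT.replicate PT.flatten
  PT.isNil PT.isSome PT.cond PT.flatMap PT.treeEq PT.head? PT.getElem?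

variable {α β γ δ σ : Type*} [Rep α] [Rep β] [Rep γ] [Rep δ] [Rep σ]

/-- `Bdd` for simple functions. -/
theorem bdd_of_le_sz {f : α → ℕ} {g : α → β} (hg : PT g) (h : ∀ a, f a ≤ sz (g a)) : Bdd f :=
  hg.bdd.mono h

theorem bdd_nat {f : α → ℕ} (hf : PT f) : Bdd f :=
  bdd_of_le_sz hf fun a => by rw [sz_nat]; omega

@[fun_prop]
theorem pt_boolEq {f g : α → Bool} (hf : PT f) (hg : PT g) :
    PT (fun a => decide (f a = g a)) :=
  (PT.ite hf hg hg.not).congr fun a => by cases f a <;> cases g a <;> rfl

/-- The identity on bits, as a proposition. -/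
@[fun_prop]
theorem pt_boolTrue {f : α → Bool} (hf : PT f) : PT (fun a => decide (f a = true)) :=
  hf.congr fun a => by simp

@[fun_prop]
theorem pt_headD {f : α → List β} {g : α → β} (hf : PT f) (hg : PT g) :
    PT (fun a => (f a).headD (g a)) :=
  (PT.getD (PT.head? hf) hg).congr fun a => by cases f a <;> rfl

/-- Head of a list of numbers plus one, `0` for the empty list. -/
theorem pt_optMap {f : α → Option β} {g : α → β → γ} (hf : PT f)
    (hg : PT (fun p : α × β => g p.1 p.2)) : PT (fun a => (f a).map (g a)) :=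
  (PT.optionCases (g := fun a b => some (g a b)) hf (PT.const none) hg.some).congr fun a => by
    cases f a <;> rfl

attribute [fun_prop] pt_optMap

/-- Iteration of a function in context, a given number of times. -/
theorem pt_iter {n : α → ℕ} {f : α → σ} {g : α → σ → σ} (hn : PT n) (hf : PT f)
    (hg : PT (fun p : α × σ => g p.1 p.2)) {B : α → ℕ} (hB : Bdd B)
    (h : ∀ a, ∀ m ≤ n a, sz ((g a)^[m] (f a)) ≤ B a) :
    PT (fun a => (g a)^[n a] (f a)) := by
  have key : ∀ (a : α) (m : ℕ), Nat.rec (motive := fun _ => σ) (f a) (fun _ s => g a s) m =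
      (g a)^[m] (f a) := by
    intro a m
    induction m with
    | zero => rfl
    | succ m ih => rw [Function.iterate_succ_apply', ← ih]
  refine (PT.natRec (g := fun a _ s => g a s) hn hf ?_ hB ?_).congr fun a => key a (n a)
  · exact PT.comp hg (PT.pair PT.id.fst PT.id.snd.snd)
  · intro a m hm
    rw [key]
    exact h a m hm

/-- Capped powers. -/
theorem capPow_step (a b t : ℕ) :
    Nat.rec (motive := fun _ => ℕ) (min 1 t) (fun _ s => min (s * a) t) b = min (a ^ b) t := by
  induction b with
  | zero => simp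
  | succ b ih =>
    simp only [ih, pow_succ]
    rcases Nat.le_total (a ^ b) t with h | h
    · rw [Nat.min_eq_left h]
    · rw [Nat.min_eq_right h]
      rcases Nat.eq_zero_or_pos a with h0 | h0
      · subst h0
        rcases Nat.eq_zero_or_pos b with hb | hb
        · subst hb; simp
        · rw [Nat.zero_pow hb] at h; simp
      · rw [Nat.min_eq_right (Nat.le_mul_of_pos_right t h0),
          Nat.min_eq_right (h.trans (Nat.le_mul_of_pos_right _ h0))]

theorem pt_capPow {f g h : α → ℕ} (hf : PT f) (hg : PT g) (hh : PT h) :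
    PT (fun a => min (f a ^ g a) (h a)) := by
  refine (PT.natRec (g := fun a _ s => min (s * f a) (h a)) hg (f := fun a => min 1 (h a))
    (by fun_prop) (by fun_prop) (B := fun a => 2 * h a + 1) ?_ ?_).congr
      fun a => capPow_step (f a) (g a) (h a)
  · exact ((Bdd.const 2).mul (bdd_nat hh)).add (Bdd.const 1)
  · intro a m _
    rw [capPow_step, sz_nat]
    omega

/-- Capped power. -/
def cpow (a b t : ℕ) : ℕ := min (a ^ b) t

theorem cpow_def (a b t : ℕ) : cpow a b t = min (a ^ b) t := rfl

theorem cpow_eq {a b t : ℕ} (h : a ^ b ≤ t) : cpow a b t = a ^ b := Nat.min_eq_left h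

attribute [irreducible] cpow

@[fun_prop]
theorem pt_cpow {f g h : α → ℕ} (hf : PT f) (hg : PT g) (hh : PT h) :
    PT (fun a => cpow (f a) (g a) (h a)) :=
  (pt_capPow hf hg hh).congr fun a => (cpow_def _ _ _).symm

end Pool.Agent.PolyTime
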