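import Pool.Agent.Lib.MP_7fc3ed_lc.Num

/-!
# Binary arithmetic and decoding of pairs
-/

namespace Pool.Agent.Lib.MP_7fc3ed_lc

open Pool.Agent.PolyTime Function

variable {α β γ δ σ : Type*} [Rep α] [Rep β] [Rep γ] [Rep δ] [Rep σ]

/-! ### Comparison -/

/-- The state after comparing the `i` lowest bits. -/
def cmpRec (l l' : List Bool) (i : ℕ) : Bool :=
  Nat.rec (motive := fun _ => Bool) true
    (fun i s => if l.getD i false = l'.getD i false then s else l'.getD i false) i

/-- Value of the `i` lowest bits. -/
def lowVal (l : List Bool) (i : ℕ) : ℕ := ∑ k ∈ Finset.range i, (l.getD k false).toNat * 2 ^ k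

theorem lowVal_lt (l : List Bool) (i : ℕ) : lowVal l i < 2 ^ i := by
  induction i with
  | zero => simp [lowVal]
  | succ i ih =>
    unfold lowVal at ih ⊢
    rw [Finset.sum_range_succ, pow_succ]
    have h1 : (l.getD i false).toNat ≤ 1 := Bool.toNat_le _
    have h2 := Nat.mul_le_mul_right (2 ^ i) h1
    omega

theorem lowVal_cons (b : Bool) (l : List Bool) (i : ℕ) :
    lowVal (b :: l) (i + 1) = 2 * lowVal l i + b.toNat := by
  unfold lowVal
  rw [Finset.sum_range_succ', Finset.mul_sum]
  simp only [List.getD_cons_succ, List.getD_cons_zero, pow_zero, mul_one]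
  congr 1
  refine Finset.sum_congr rfl fun k _ => ?_
  rw [pow_succ]; ring

theorem lowVal_eq_val (l : List Bool) (i : ℕ) (h : l.length ≤ i) : lowVal l i = val l := by
  induction l generalizing i with
  | nil => simp [lowVal]
  | cons b l ih =>
    obtain ⟨j, rfl⟩ : ∃ j, i = j + 1 := ⟨i - 1, by simp at h; omega⟩
    rw [lowVal_cons, val_cons, ih j (by simpa using h)]

theorem cmpRec_eq (l l' : List Bool) (i : ℕ) :
    cmpRec l l' i = decide (lowVal l i ≤ lowVal l' i) := by
  induction i with
  | zero => simp [cmpRec, lowVal]
  | succ i ih =>
    have h1 : cmpRec l l' (i + 1) =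
      if l.getD i false = l'.getD i false then cmpRec l l' i else l'.getD i false := rfl
    have h2 : lowVal l (i + 1) = lowVal l i + (l.getD i false).toNat * 2 ^ i := by
      unfold lowVal; rw [Finset.sum_range_succ]
    have h3 : lowVal l' (i + 1) = lowVal l' i + (l'.getD i false).toNat * 2 ^ i := by
      unfold lowVal; rw [Finset.sum_range_succ]
    have h4 := lowVal_lt l i
    have h5 := lowVal_lt l' i
    rw [h1, ih, h2, h3]
    cases h6 : l.getD i false <;> cases h7 : l'.getD i false
    · simp
    · simp only [Bool.false_eq_true, if_false, Bool.toNat_false, Bool.toNat_true, zero_mul,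
        add_zero, one_mul]
      symm; rw [decide_eq_true_eq]; omega
    · simp only [Bool.true_eq_false, if_false, Bool.toNat_false, Bool.toNat_true, zero_mul,
        add_zero, one_mul]
      symm; rw [decide_eq_false_iff_not]; omega
    · simp

/-- Comparison of binary numbers. -/
def ble (l l' : List Bool) : Bool := cmpRec l l' (l.length + l'.length)

theorem ble_iff (l l' : List Bool) : ble l l' = true ↔ val l ≤ val l' := by
  unfold ble
  rw [cmpRec_eq, lowVal_eq_val _ _ (by omega), lowVal_eq_val _ _ (by omega), decide_eq_true_eq]

@[fun_prop]
theorem pt_ble {f g : α → List Bool} (hf : PT f) (hg : PT g) :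
    PT (fun a => ble (f a) (g a)) := by
  unfold ble cmpRec
  refine PT.natRec (g := fun a i s => if (f a).getD i false = (g a).getD i false then s
    else (g a).getD i false) (by fun_prop) (by fun_prop) (by fun_prop) (Bdd.const 3) ?_
  intro a m _
  exact sz_bool _

/-! ### Addition -/

/-- The sum of the `i` lowest bits: the bits of the sum, and the carry. -/
def addRec (l l' : List Bool) (i : ℕ) : List Bool × Bool :=
  Nat.rec (motive := fun _ => List Bool × Bool) ([], false)
    (fun i s => (s.1 ++ [xor (xor (l.getD i false) (l'.getD i false)) s.2],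
      (l.getD i false && l'.getD i false) || (l.getD i false && s.2) ||
        (l'.getD i false && s.2))) i

theorem val_append (l l' : List Bool) : val (l ++ l') = val l + 2 ^ l.length * val l' := by
  induction l with
  | nil => simp
  | cons b l ih => simp only [List.cons_append, val_cons, ih, List.length_cons, pow_succ]; ring

theorem length_addRec (l l' : List Bool) (i : ℕ) : (addRec l l' i).1.length = i := by
  induction i with
  | zero => rfl
  | succ i ih =>
    have : (addRec l l' (i + 1)).1 = (addRec l l' i).1 ++
      [xor (xor (l.getD i false) (l'.getD i false)) (addRec l l' i).2] := rfl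
    rw [this, List.length_append, ih]
    rfl

theorem addRec_eq (l l' : List Bool) (i : ℕ) :
    val (addRec l l' i).1 + 2 ^ i * (addRec l l' i).2.toNat = lowVal l i + lowVal l' i := by
  induction i with
  | zero => simp [addRec, lowVal]
  | succ i ih =>
    have h1 : addRec l l' (i + 1) = ((addRec l l' i).1 ++
      [xor (xor (l.getD i false) (l'.getD i false)) (addRec l l' i).2],
      (l.getD i false && l'.getD i false) || (l.getD i false && (addRec l l' i).2) ||
        (l'.getD i false && (addRec l l' i).2)) := rfl
    have h2 : lowVal l (i + 1) = lowVal l i + (l.getD i false).toNat * 2 ^ i := by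
      unfold lowVal; rw [Finset.sum_range_succ]
    have h3 : lowVal l' (i + 1) = lowVal l' i + (l'.getD i false).toNat * 2 ^ i := by
      unfold lowVal; rw [Finset.sum_range_succ]
    rw [h1, h2, h3]
    simp only [val_append, length_addRec]
    rw [pow_succ]
    cases l.getD i false <;> cases l'.getD i false <;> cases h : (addRec l l' i).2 <;>
      simp [h] at ih ⊢ <;> omega

/-- Addition of binary numbers. -/
def badd (l l' : List Bool) : List Bool :=
  (addRec l l' (l.length + l'.length)).1 ++ [(addRec l l' (l.length + l'.length)).2]

theorem val_badd (l l' : List Bool) : val (badd l l') = val l + val l' := by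
  have h := addRec_eq l l' (l.length + l'.length)
  rw [lowVal_eq_val _ _ (by omega), lowVal_eq_val _ _ (by omega)] at h
  unfold badd
  rw [val_append, length_addRec, ← h]
  simp

@[fun_prop]
theorem pt_xor {f g : α → Bool} (hf : PT f) (hg : PT g) : PT (fun a => xor (f a) (g a)) := by
  have : PT (fun a => if f a then !g a else g a) := by fun_prop
  refine this.congr fun a => ?_
  cases f a <;> cases g a <;> rfl

theorem pt_addRec {f g : α → List Bool} {n : α → ℕ} (hf : PT f) (hg : PT g) (hn : PT n) :
    PT (fun a => addRec (f a) (g a) (n a)) := by
  unfold addRec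
  refine PT.natRec (f := fun _ => (([], false) : List Bool × Bool))
    (g := fun a i s => (s.1 ++ [xor (xor ((f a).getD i false) ((g a).getD i false)) s.2],
      ((f a).getD i false && (g a).getD i false) || ((f a).getD i false && s.2) ||
        ((g a).getD i false && s.2))) hn (by fun_prop) (by fun_prop)
    (B := fun a => 4 * n a + 5) (((Bdd.const 4).mul (bdd_nat hn)).add (Bdd.const 5)) ?_
  intro a m hm
  change sz (addRec (f a) (g a) m) ≤ _
  rw [sz_prod]
  have h1 := length_addRec (f a) (g a) m
  have h2 := sz_le_of_forall (addRec (f a) (g a) m).1 3 fun b _ => sz_bool b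
  have h3 := sz_bool (addRec (f a) (g a) m).2
  rw [h1] at h2
  omega

attribute [fun_prop] pt_addRec

@[fun_prop]
theorem pt_badd {f g : α → List Bool} (hf : PT f) (hg : PT g) :
    PT (fun a => badd (f a) (g a)) := by
  unfold badd
  fun_prop

/-- Multiplication by a power of two. -/
def shl (m : ℕ) (l : List Bool) : List Bool := List.replicate m false ++ l

theorem val_shl (m : ℕ) (l : List Bool) : val (shl m l) = 2 ^ m * val l := by
  unfold shl
  rw [val_append, List.length_replicate]
  have : val (List.replicate m false) = 0 := by
    induction m with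
    | zero => rfl
    | succ m ih => rw [List.replicate_succ, val_cons, ih]; rfl
  omega

@[fun_prop]
theorem pt_shl {f : α → ℕ} {g : α → List Bool} (hf : PT f) (hg : PT g) :
    PT (fun a => shl (f a) (g a)) := by
  unfold shl
  fun_prop

/-! ### Pairs of strings -/

/-- One step of decoding. -/
def ustep (s : List Bool × List Bool) : List Bool × List Bool :=
  if s.2.headD false && !s.2.tail.isEmpty then (s.1 ++ [s.2.tail.headD false], s.2.tail.tail)
  else s

/-- Decoding of pairs. -/
def unpairStr (w : List Bool) : List Bool × List Bool :=
  ((ustep^[w.length] ([], w)).1, (ustep^[w.length] ([], w)).2.tail)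

theorem ustep_iter (u v : List Bool) : ∀ (n : ℕ) (acc : List Bool), u.length ≤ n →
    ustep^[n] (acc, pairStr u v) = (acc ++ u, false :: v) := by
  induction u with
  | nil =>
    intro n acc _
    have : ustep (acc, pairStr [] v) = (acc, pairStr [] v) := rfl
    rw [iterate_fixed this]
    simp [pairStr]
  | cons b u ih =>
    intro n acc hn
    obtain ⟨m, rfl⟩ : ∃ m, n = m + 1 := ⟨n - 1, by simp at hn; omega⟩
    rw [iterate_succ_apply]
    have : ustep (acc, pairStr (b :: u) v) = (acc ++ [b], pairStr u v) := by
      simp [ustep, pairStr]
    rw [this, ih m _ (by simpa using hn)]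
    simp

theorem unpairStr_pairStr (u v : List Bool) : unpairStr (pairStr u v) = (u, v) := by
  unfold unpairStr
  have hl : u.length ≤ (pairStr u v).length := by
    unfold pairStr
    rw [List.length_append]
    have : u.length ≤ (u.flatMap fun b => [true, b]).length := by
      induction u with
      | nil => simp
      | cons b u ih => simp only [List.flatMap_cons, List.length_append, List.length_cons]; omega
    omega
  rw [ustep_iter u v _ [] hl]
  simp

theorem ustep_size (s : List Bool × List Bool) : sz (ustep s) ≤ sz s := by
  obtain ⟨u, w⟩ := s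
  unfold ustep
  simp only
  split_ifs with h
  · match w with
    | [] => simp at h
    | [b] => simp at h
    | b :: c :: w =>
      simp only [List.tail_cons, List.headD_cons, sz_pair, sz_cons]
      have := sz_append u [c]
      simp only [sz_cons, sz_nil] at this
      omega
  · exact le_rfl

@[fun_prop]
theorem pt_unpairStr {f : α → List Bool} (hf : PT f) : PT (fun a => unpairStr (f a)) := by
  have h1 : PT (fun a => ustep^[(f a).length] (([], f a) : List Bool × List Bool)) := by
    refine pt_iter (g := fun _ s => ustep s) (by fun_prop) (by fun_prop)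
      (by unfold ustep; fun_prop) (B := fun a => sz (f a) + 2)
      (hf.bdd.add (Bdd.const 2)) ?_
    intro a m _
    have : ∀ (m : ℕ) (s : List Bool × List Bool), sz (ustep^[m] s) ≤ sz s := by
      intro m
      induction m with
      | zero => intro s; exact le_rfl
      | succ m ih => intro s; rw [iterate_succ_apply]; exact (ih _).trans (ustep_size s)
    refine (this m _).trans ?_
    simp only [sz_pair, sz_nil]
    omega
  unfold unpairStr
  fun_prop

end Pool.Agent.Lib.MP_7fc3ed_lc
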