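import Pool.Agent.Lib.MP_7fc3ed_lc.Expo

/-!
# Raw input and output
-/

namespace Pool.Agent.PolyTime

open Turing Function Polynomial

/-- Turn the marked block of raw bits on `aux` into a list in front of the list on `dat`. -/
def rawLoop : P := .loop .aux (fun a => a == none)
  (fun a => pushWord (true :: (toT (a.getD false)).enc))

theorem run_rawLoop (i o : List Bool) (d e c n : List (Option Bool)) (w l : List Bool) :
    Run rawLoop (st i o (tenc (toT l) ++ d) (w.reverse.map some ++ (none :: e)) c n)
      (st i o (tenc (toT (w ++ l)) ++ d) e c n) (5 * w.length + 1) := by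
  induction w using List.reverseRecOn generalizing l with
  | nil => exact Run.loop_stop (k := .aux) (a := none) (l := e) rfl rfl (by simp)
  | append_singleton w a ih =>
    have h := ih (a :: l)
    have e1 : w ++ a :: l = (w ++ [a]) ++ l := by simp
    rw [e1] at h
    have hp := run_pushWord i o (true :: (toT a).enc) (tenc (toT l) ++ d)
      (w.reverse.map some ++ (none :: e)) c n
    have e2 : (true :: (toT a).enc).map some ++ (tenc (toT l) ++ d) =
        tenc (toT (a :: l)) ++ d := by
      simp [tenc, T.enc]
    rw [e2] at hp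
    have hl : (true :: (toT a).enc).length ≤ 4 := by cases a <;> simp [T.enc]
    simp only [List.reverse_append, List.reverse_cons, List.reverse_nil, List.nil_append,
      List.map_cons, List.cons_append]
    refine Run.mono (b := 4 + (5 * w.length + 1) + 1) ?_ (by
      simp only [List.length_append, List.length_singleton]; omega)
    exact Run.loop_step (k := .aux)
      (s1 := st i o (tenc (toT l) ++ d) (w.reverse.map some ++ (none :: e)) c n)
      (s' := st i o (tenc (toT (a :: l)) ++ d) (w.reverse.map some ++ (none :: e)) c n)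
      (a := some a) rfl rfl (by simp) (hp.mono hl) h

/-- Read the list on `dat` and put its bits on `aux`. -/
def outLoop : P := .loop .dat (fun a => !(a == some true)) (fun _ => .popCase .dat fun r =>
  match r.getD none with
  | some true => .seq pop1 (.seq pop1 (.push .aux (some true)))
  | _ => .push .aux (some false))

theorem run_outLoop (i o : List Bool) (d e c n : List (Option Bool)) (w : List Bool) :
    Run outLoop (st i o (tenc (toT w) ++ d) e c n)
      (st i o d (w.reverse.map some ++ e) c n) (5 * w.length + 1) := by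
  induction w generalizing e with
  | nil => exact Run.loop_stop (k := .dat) (a := some false) (l := d) rfl rfl (by simp)
  | cons a w ih =>
    have h := ih (some a :: e)
    refine Run.mono (b := 4 + (5 * w.length + 1) + 1) ?_ (by
      simp only [List.length_cons]; omega)
    have e1 : (a :: w).reverse.map some ++ e = w.reverse.map some ++ some a :: e := by simp
    rw [e1]
    refine Run.loop_step (k := .dat)
      (s1 := st i o (tenc (toT a) ++ (tenc (toT w) ++ d)) e c n)
      (s' := st i o (tenc (toT w) ++ d) (some a :: e) c n)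
      (a := some true) (l := tenc (toT a) ++ (tenc (toT w) ++ d)) (by simp) rfl (by simp) ?_ h
    cases a
    · refine (Run.popCase (b := 1) ?_).mono (by omega)
      simp only [st_dat, toT_false, tenc_nil, List.cons_append, List.nil_append,
        List.head?_cons, Option.getD_some, List.tail_cons, update_dat]
      exact Run.push (by simp)
    · refine (Run.popCase (b := 3) ?_)
      simp only [st_dat, toT_true, tenc_nil, tenc_cons, List.cons_append, List.nil_append,
        List.head?_cons, Option.getD_some, List.tail_cons, update_dat]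
      exact (Run.seq (run_pop1 _ _ _ _ _ _ _) (Run.seq (run_pop1 _ _ _ _ _ _ _)
        (Run.push (by simp))))

/-- The whole program with raw input and output. -/
def wrapRaw (p : P) : P :=
  .seq (.push .aux none) (.seq inpToAux (.seq (.push .dat (some false)) (.seq rawLoop (.seq p
    (.seq (.push .aux none) (.seq outLoop auxToOut))))))

theorem run_wrapRaw {p : P} {x y : List Bool} {b : ℕ}
    (h : Run p (st [] [] (tenc (toT x)) [] [] []) (st [] [] (tenc (toT y)) [] [] []) b) :
    Run (wrapRaw p) (st x [] [] [] [] []) (st [] y [] [] [] [])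
      (7 * x.length + b + 7 * y.length + 7) := by
  have r1 : Run (.push .aux none) (st x [] [] [] [] []) (st x [] [] [none] [] []) 1 :=
    Run.push (by simp)
  have r2 := run_inpToAux [] [] [none] [] [] x
  have r3 : Run (.push .dat (some false))
    (st [] [] [] (x.reverse.map some ++ [none]) [] [])
    (st [] [] (tenc (toT ([] : List Bool))) (x.reverse.map some ++ [none]) [] []) 1 :=
    Run.push (by simp)
  have r4 := run_rawLoop [] [] [] [] [] [] x []
  rw [List.append_nil, List.append_nil, List.append_nil] at r4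
  have r5 : Run (.push .aux none) (st [] [] (tenc (toT y)) [] [] [])
    (st [] [] (tenc (toT y)) [none] [] []) 1 := Run.push (by simp)
  have r6 := run_outLoop [] [] [] [none] [] [] y
  rw [List.append_nil] at r6
  have r7 := run_auxToOut [] [] [] [] [] [] y
  rw [List.append_nil] at r7
  refine (Run.seq r1 (Run.seq r2 (Run.seq r3 (Run.seq r4 (Run.seq h (Run.seq r5
    (Run.seq r6 r7))))))).mono ?_
  omega

end Pool.Agent.PolyTime

namespace Pool.Agent.Lib.MP_7fc3ed_lc

open Pool.Agent.PolyTime Turing Function Polynomial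

theorem computableIn_of_run {f : List Bool → List Bool} {p : P} {t : ℕ → ℕ}
    (h : ∀ x, Run p (st x [] [] [] [] []) (st [] (f x) [] [] [] []) (t x.length)) :
    ComputableIn f (fun n => t n + 1) := by
  refine ⟨{ tm := machine p
            inputAlphabet := Equiv.refl _
            outputAlphabet := Equiv.refl _
            time := fun n => t n + 1
            outputsFun := fun a => ?_ }, fun k => ?_, fun n => le_rfl⟩
  · have hs : ∃ m, m ≤ t a.length ∧
        ∃ v, Reach (machine p).m m
          ⟨some (machine p).main, (machine p).initialState, st a [] [] [] [] []⟩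
          ⟨some none, v, st [] (f a) [] [] [] []⟩ := by
      obtain ⟨m, hm, hE⟩ := h a
      obtain ⟨v, hv⟩ := sim (machine p).m hE some none (fun _ => rfl) (fun _ => none)
      exact ⟨m, hm, v, hv⟩
    have hm' := Classical.choose_spec hs
    refine
      { steps := Classical.choose hs + 1
        evals_in_steps := ?_
        steps_le_m := ?_ }
    · obtain ⟨v, hv⟩ := hm'.2
      have h3 : Reach (machine p).m 1
          ⟨some none, v, st [] (f a) [] [] [] []⟩
          ⟨none, fun _ => none, st [] (f a) [] [] [] []⟩ := Reach.one rfl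
      have h4 := hv.trans h3
      have i1 : initList (machine p) (List.map (Equiv.refl _).invFun (id a)) =
          ⟨some (machine p).main, (machine p).initialState, st a [] [] [] [] []⟩ := by
        unfold initList
        congr 1
        funext k
        cases k
        · simp [machine]
        all_goals rfl
      have i2 : haltList (machine p) (List.map (Equiv.refl _).invFun (id (f a))) =
          ⟨none, fun _ => none, st [] (f a) [] [] [] []⟩ := by
        unfold haltList
        congr 1
        funext k
        cases k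
        · rfl
        · simp [machine]
        all_goals rfl
      unfold Reach at h4
      exact (congrArg (fun z => (flip bind (TM2.step (machine p).m))^[
        Classical.choose hs + 1] (some z)) i1).trans (h4.trans (congrArg some i2.symm))
    · have h5 := hm'.1
      simp only [id]
      omega
  · exact @Finite.of_fintype _ (Sym.fintype k)

theorem sz_listBool (x : List Bool) : sz x ≤ 4 * x.length + 1 := by
  induction x with
  | nil => simp
  | cons a x ih => have := sz_bool a; simp only [sz_cons, List.length_cons]; omega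

/-- From programs to machines. -/
theorem computableIn_of_ptb {f : List Bool → List Bool} {B : List Bool → ℕ} (h : PTB f B)
    {β : ℕ → ℕ} (hB : ∀ x, B x ≤ β x.length) :
    ∃ q : Polynomial ℕ, ComputableIn f (fun n => q.eval (n + β n)) := by
  obtain ⟨p, b, h⟩ := h
  have hlen : ∀ x, (f x).length ≤ 4 * x.length + 1 + b.eval (β x.length) := by
    intro x
    obtain ⟨m, hm, hj⟩ := h x [] [] [] [] [] []
    have h1 := hj.length_le .dat
    simp only [st_dat, List.append_nil, length_tenc] at h1
    have h2 := sz_listBool x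
    have h3 := length_le_sz (f x)
    have h4 := poly_mono b (hB x)
    simp only [sz] at h2 h3
    omega
  have h1 : ∀ x, Run (wrapRaw p) (st x [] [] [] [] []) (st [] (f x) [] [] [] [])
      (35 * x.length + 14 + 8 * b.eval (β x.length)) := by
    intro x
    have h2 := h x [] [] [] [] [] []
    rw [List.append_nil, List.append_nil] at h2
    refine (run_wrapRaw h2).mono ?_
    have h4 := poly_mono b (hB x)
    have h5 := hlen x
    omega
  obtain ⟨M, hM1, hM2⟩ := computableIn_of_run
    (t := fun n => 35 * n + 14 + 8 * b.eval (β n)) h1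
  refine ⟨35 * X + 15 + 8 * b, M, hM1, fun n => (hM2 n).trans ?_⟩
  simp only [eval_add, eval_mul, eval_X, eval_ofNat]
  have h6 := poly_mono b (show β n ≤ n + β n by omega)
  omega

theorem eval_le (q : Polynomial ℕ) : ∃ C d : ℕ, ∀ n, q.eval n ≤ C * (n + 1) ^ d := by
  induction q using Polynomial.induction_on' with
  | add p q hp hq =>
    obtain ⟨C, d, h⟩ := hp
    obtain ⟨C', d', h'⟩ := hq
    refine ⟨C + C', d + d', fun n => ?_⟩
    rw [eval_add]
    have h1 : (n + 1) ^ d ≤ (n + 1) ^ (d + d') := Nat.pow_le_pow_right (by omega) (by omega)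
    have h2 : (n + 1) ^ d' ≤ (n + 1) ^ (d + d') := Nat.pow_le_pow_right (by omega) (by omega)
    have h3 := Nat.mul_le_mul_left C h1
    have h4 := Nat.mul_le_mul_left C' h2
    have h5 := h n
    have h6 := h' n
    rw [Nat.add_mul]
    omega
  | monomial m c =>
    refine ⟨c, m, fun n => ?_⟩
    rw [eval_monomial]
    exact Nat.mul_le_mul_left _ (Nat.pow_le_pow_left (by omega) _)

theorem poly_le_pow (q : Polynomial ℕ) : ∃ k : ℕ, ∀ n, q.eval n ≤ n ^ k + k := by
  obtain ⟨C, d, h⟩ := eval_le q
  refine ⟨2 * d + C + C * 2 ^ d, fun n => (h n).trans ?_⟩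
  rcases Nat.lt_or_ge n 2 with hn | hn
  · have h1 : (n + 1) ^ d ≤ 2 ^ d := Nat.pow_le_pow_left (by omega) _
    have h2 := Nat.mul_le_mul_left C h1
    omega
  · have h1 : (n + 1) ^ d ≤ (n ^ 2) ^ d := Nat.pow_le_pow_left (by nlinarith) _
    have h2 : C ≤ n ^ C := by
      calc C ≤ 2 ^ C := Nat.lt_two_pow_self.le
        _ ≤ n ^ C := Nat.pow_le_pow_left hn _
    calc C * (n + 1) ^ d ≤ n ^ C * (n ^ 2) ^ d := Nat.mul_le_mul h2 h1
      _ = n ^ (2 * d + C) := by rw [← pow_mul, ← pow_add]; congr 1; ring
      _ ≤ n ^ (2 * d + C + C * 2 ^ d) := Nat.pow_le_pow_right (by omega) (by omega)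
      _ ≤ _ := by omega

theorem ComputableIn.mono {f : List Bool → List Bool} {t t' : ℕ → ℕ} (h : ComputableIn f t)
    (ht : ∀ n, t n ≤ t' n) : ComputableIn f t' := by
  obtain ⟨M, h1, h2⟩ := h
  exact ⟨M, h1, fun n => (h2 n).trans (ht n)⟩

/-- Polynomial-time functions are computed by machines in polynomial time. -/
theorem computableIn_poly {f : List Bool → List Bool} (h : PT f) :
    ∃ c : ℕ, ComputableIn f fun n => n ^ c + c := by
  obtain ⟨q, hq⟩ := computableIn_of_ptb (B := fun x => sz x) (Comp.toB h)
    (β := fun n => 4 * n + 1) sz_listBool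
  obtain ⟨k, hk⟩ := poly_le_pow (q.comp (X + (4 * X + 1)))
  refine ⟨k, hq.mono fun n => ?_⟩
  have := hk n
  simpa only [eval_comp, eval_add, eval_mul, eval_X, eval_ofNat, eval_one] using this

/-- Membership in `E`. -/
theorem mem_ClassE {f : List Bool × ℕ → Bool} (hf : PT f) {A : Lang} (c : ℕ)
    (h : ∀ x, A x = f (x, 2 ^ (c * x.length + c))) : A ∈ ClassE := by
  have h1 : PT (fun a : List Bool × ℕ => [f a]) := PT.cons hf (PT.const [])
  have h2 : PT (fun x : List Bool => c * x.length + c) := by fun_prop
  have h3 := ptb_comp_pow h2 h1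
  obtain ⟨q, hq⟩ := computableIn_of_ptb h3
    (β := fun n => 4 * n + 1 + 2 ^ (c * n + c)) (fun x => by
      have := sz_listBool x
      omega)
  obtain ⟨C, d, hCd⟩ := eval_le q
  refine ⟨C + d * (c + 8), ?_⟩
  have e1 : (fun x => [A x]) = fun x => [f (x, 2 ^ (c * x.length + c))] :=
    funext fun x => by rw [h x]
  unfold DecidedIn
  rw [e1]
  refine hq.mono fun n => (hCd _).trans ?_
  have h4 : n + (4 * n + 1 + 2 ^ (c * n + c)) + 1 ≤ 2 ^ ((c + 8) * n + (c + 8)) := by
    have h5 : n < 2 ^ n := Nat.lt_two_pow_self
    have h6 : 2 ^ ((c + 8) * n + (c + 8)) = 2 ^ (c * n + c) * (2 ^ (8 * n) * 256) := by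
      rw [show (256 : ℕ) = 2 ^ 8 by norm_num, ← pow_add, ← pow_add]
      congr 1
      ring
    have h7 : 2 ^ n ≤ 2 ^ (8 * n) := Nat.pow_le_pow_right (by norm_num) (by omega)
    have h8 : 1 ≤ 2 ^ (c * n + c) := Nat.one_le_two_pow
    rw [h6]
    nlinarith [Nat.mul_le_mul h8 h7]
  have h9 : C ≤ 2 ^ C := Nat.lt_two_pow_self.le
  calc C * (n + (4 * n + 1 + 2 ^ (c * n + c)) + 1) ^ d
      ≤ 2 ^ C * (2 ^ ((c + 8) * n + (c + 8))) ^ d :=
        Nat.mul_le_mul h9 (Nat.pow_le_pow_left h4 _)
    _ = 2 ^ (C + ((c + 8) * n + (c + 8)) * d) := by rw [← pow_mul, ← pow_add]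
    _ ≤ 2 ^ ((C + d * (c + 8)) * n + (C + d * (c + 8))) :=
        Nat.pow_le_pow_right (by norm_num) (by nlinarith)

/-- Membership in `EXP`. -/
theorem mem_ClassEXP {f : List Bool × ℕ → Bool} (hf : PT f) {A : Lang} (p : Polynomial ℕ)
    (hp : PT (fun x : List Bool => p.eval x.length))
    (h : ∀ x, A x = f (x, 2 ^ p.eval x.length)) : A ∈ ClassEXP := by
  have h1 : PT (fun a : List Bool × ℕ => [f a]) := PT.cons hf (PT.const [])
  have h3 := ptb_comp_pow hp h1
  obtain ⟨q, hq⟩ := computableIn_of_ptb h3
    (β := fun n => 4 * n + 1 + 2 ^ (p.eval n)) (fun x => by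
      have := sz_listBool x
      omega)
  obtain ⟨C, d, hCd⟩ := eval_le q
  obtain ⟨k, hk⟩ := poly_le_pow (Polynomial.C C + (p + (8 * X + 8)) * Polynomial.C d)
  refine ⟨k, ?_⟩
  have e1 : (fun x => [A x]) = fun x => [f (x, 2 ^ (p.eval x.length))] :=
    funext fun x => by rw [h x]
  unfold DecidedIn
  rw [e1]
  refine hq.mono fun n => (hCd _).trans ?_
  have h4 : n + (4 * n + 1 + 2 ^ (p.eval n)) + 1 ≤ 2 ^ (p.eval n + (8 * n + 8)) := by
    have h5 : n < 2 ^ n := Nat.lt_two_pow_self
    have h6 : 2 ^ (p.eval n + (8 * n + 8)) = 2 ^ (p.eval n) * (2 ^ (8 * n) * 256) := by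
      rw [show (256 : ℕ) = 2 ^ 8 by norm_num, ← pow_add, ← pow_add]
    have h7 : 2 ^ n ≤ 2 ^ (8 * n) := Nat.pow_le_pow_right (by norm_num) (by omega)
    have h8 : 1 ≤ 2 ^ (p.eval n) := Nat.one_le_two_pow
    rw [h6]
    nlinarith [Nat.mul_le_mul h8 h7]
  have h9 : C ≤ 2 ^ C := Nat.lt_two_pow_self.le
  have h10 := hk n
  simp only [eval_add, eval_mul, eval_X, eval_ofNat, eval_C] at h10
  calc C * (n + (4 * n + 1 + 2 ^ (p.eval n)) + 1) ^ d
      ≤ 2 ^ C * (2 ^ (p.eval n + (8 * n + 8))) ^ d :=
        Nat.mul_le_mul h9 (Nat.pow_le_pow_left h4 _)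
    _ = 2 ^ (C + (p.eval n + (8 * n + 8)) * d) := by rw [← pow_mul, ← pow_add]
    _ ≤ 2 ^ (n ^ k + k) := Nat.pow_le_pow_right (by norm_num) h10

end Pool.Agent.Lib.MP_7fc3ed_lc
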