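import Pool.Agent.Lib.MP_7fc3ed_lc.Facts
import Mathlib.Tactic

/-!
# The capital of a simulated strategy on its diagonal set is bounded
-/

set_option autoImplicit false

namespace Pool.Agent.Lib.MP_7fc3ed_lc

open Pool.Agent.PolyTime Function

/-- The factor by which the capital changes. -/
def fac (s : List Bool → ℚ) (w : List Bool) (b : Bool) : ℚ := 2 * |bitQ b - s w|

theorem fac_true {s : List Bool → ℚ} (hs : IsStrategy s) (w : List Bool) :
    fac s w true = 2 * (1 - s w) := by
  have h := hs w
  unfold fac bitQ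
  rw [if_pos rfl, abs_of_nonneg (by linarith)]

theorem fac_false {s : List Bool → ℚ} (hs : IsStrategy s) (w : List Bool) :
    fac s w false = 2 * s w := by
  have h := hs w
  unfold fac bitQ
  rw [if_neg (by simp), zero_sub, abs_neg, abs_of_nonneg h.1]

theorem fac_nonneg (s : List Bool → ℚ) (w : List Bool) (b : Bool) : 0 ≤ fac s w b := by
  unfold fac
  positivity

theorem fac_le_two {s : List Bool → ℚ} (hs : IsStrategy s) (w : List Bool) (b : Bool) :
    fac s w b ≤ 2 := by
  have h := hs w
  cases b
  · rw [fac_false hs]; linarith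
  · rw [fac_true hs]; linarith

theorem fac_add {s : List Bool → ℚ} (hs : IsStrategy s) (w : List Bool) (b : Bool) :
    fac s w b + fac s w (!b) = 2 := by
  cases b
  · rw [Bool.not_false, fac_false hs, fac_true hs]; ring
  · rw [Bool.not_true, fac_false hs, fac_true hs]; ring

/-- The strategy `s` is simulated by the strategy with number `j`. -/
def Simulates (j : ℕ) (s : List Bool → ℚ) : Prop :=
  ∀ w, ∃ p q : ℕ, 0 < q ∧ s w = (p : ℚ) / (q : ℚ) ∧ out j w = some (pairStr p.bits q.bits)

theorem fac_nb {j : ℕ} {s : List Bool → ℚ} (hs : IsStrategy s) (hsim : Simulates j s)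
    (w : List Bool) : fac s w (nb j w) ≤ 1 := by
  obtain ⟨p, q, hq, hpq, hout⟩ := hsim w
  have hq' : (0 : ℚ) < q := by exact_mod_cast hq
  have hnb : nb j w = !ble (shl 1 p.bits) q.bits := by
    unfold nb nbT
    unfold out at hout
    rw [hout]
    simp only [unpairStr_pairStr]
  rw [hnb]
  have hiff : ble (shl 1 p.bits) q.bits = true ↔ 2 * p ≤ q := by
    rw [ble_iff, val_shl, val_bits, val_bits, pow_one]
  by_cases h : 2 * p ≤ q
  · rw [hiff.2 h, Bool.not_true, fac_false hs, hpq]
    rw [mul_div_assoc', div_le_one hq']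
    exact_mod_cast h
  · have hf : ble (shl 1 p.bits) q.bits = false := by
      rw [← Bool.not_eq_true, hiff]; exact h
    rw [hf, Bool.not_false, fac_true hs, hpq]
    have h1 : (q : ℚ) < 2 * p := by exact_mod_cast not_le.1 h
    have h2 : (1 : ℚ) / 2 ≤ p / q := by
      rw [div_le_div_iff₀ two_pos hq']; linarith
    linarith

/-- `2 ^ (-q-1)` -/
def eps (q : ℕ) : ℚ := 1 / 2 ^ (q + 1)

theorem eps_pos (q : ℕ) : 0 < eps q := by unfold eps; positivity

theorem eps_le (q : ℕ) : eps q ≤ 1 / 2 := by
  unfold eps
  apply one_div_le_one_div_of_le two_pos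
  have : (2 : ℚ) ^ 1 ≤ 2 ^ (q + 1) := pow_le_pow_right₀ (by norm_num) (by omega)
  simpa using this

theorem eps_mul (q : ℕ) : eps q * 2 ^ (q + 1) = 1 := by
  unfold eps
  field_simp

theorem small_iff {s : List Bool → ℚ} (hs : IsStrategy s) {r : ℕ}
    (hsim : Simulates (jOf (qOf r)) s) (a : Bool) :
    Small r a = true ↔ fac s (W r) (!a) ≤ 1 + eps (qOf r) := by
  obtain ⟨p, q, hq, hpq, hout⟩ := hsim (W r)
  have hq' : (0 : ℚ) < q := by exact_mod_cast hq
  have he := eps_mul (qOf r)
  have hep := eps_pos (qOf r)
  have h2 : (0 : ℚ) < 2 ^ (qOf r + 1) := by positivity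
  unfold Small smallT
  unfold out at hout
  rw [hout]
  simp only [unpairStr_pairStr]
  cases a
  · rw [if_neg (by simp), ble_iff, val_badd, val_shl, val_shl, val_bits, val_bits, Bool.not_false,
      fac_true hs, hpq]
    have e1 : (2 ^ (qOf r + 1) * q ≤ 2 ^ (qOf r + 2) * p + q) ↔
        ((2 : ℚ) ^ (qOf r + 1) * q ≤ 2 ^ (qOf r + 2) * p + q) := by exact_mod_cast Iff.rfl
    rw [e1]
    have e2 : (2 * (1 - (p : ℚ) / q) ≤ 1 + eps (qOf r)) ↔
        (2 * (1 - (p : ℚ) / q)) * (2 ^ (qOf r + 1) * q) ≤ (1 + eps (qOf r)) * (2 ^ (qOf r + 1) * q) :=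
      (mul_le_mul_iff_left₀ (by positivity)).symm
    rw [e2]
    have e3 : (2 * (1 - (p : ℚ) / q)) * (2 ^ (qOf r + 1) * q) =
        2 * 2 ^ (qOf r + 1) * q - 2 ^ (qOf r + 2) * p := by
      field_simp
      ring
    have e4 : (1 + eps (qOf r)) * (2 ^ (qOf r + 1) * q) = 2 ^ (qOf r + 1) * q + q := by
      linear_combination (q : ℚ) * he
    rw [e3, e4]
    constructor <;> intro h <;> linarith
  · rw [if_pos rfl, ble_iff, val_badd, val_shl, val_shl, val_bits, val_bits, Bool.not_true,
      fac_false hs, hpq]
    have e1 : (2 ^ (qOf r + 2) * p ≤ 2 ^ (qOf r + 1) * q + q) ↔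
        ((2 : ℚ) ^ (qOf r + 2) * p ≤ 2 ^ (qOf r + 1) * q + q) := by exact_mod_cast Iff.rfl
    rw [e1]
    have e2 : (2 * ((p : ℚ) / q) ≤ 1 + eps (qOf r)) ↔
        (2 * ((p : ℚ) / q)) * (2 ^ (qOf r + 1) * q) ≤ (1 + eps (qOf r)) * (2 ^ (qOf r + 1) * q) :=
      (mul_le_mul_iff_left₀ (by positivity)).symm
    rw [e2]
    have e3 : (2 * ((p : ℚ) / q)) * (2 ^ (qOf r + 1) * q) = 2 ^ (qOf r + 2) * p := by
      field_simp
      ring
    have e4 : (1 + eps (qOf r)) * (2 ^ (qOf r + 1) * q) = 2 ^ (qOf r + 1) * q + q := by
      linear_combination (q : ℚ) * he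
    rw [e3, e4]

/-- The index of `0 ^ h r`. -/
def ms (r : ℕ) : ℕ := 2 ^ h r - 1

theorem ms_zero : ms 0 = 0 := by simp [ms, h]

theorem ms_add_one (r : ℕ) : ms r + 1 = 2 ^ h r := by
  unfold ms
  have : 0 < 2 ^ h r := by positivity
  omega

theorem ms_lt (r : ℕ) : ms r < ms (r + 1) := by
  have h1 := ms_add_one r
  have h2 := ms_add_one (r + 1)
  have h3 : 2 ^ h r < 2 ^ h (r + 1) := Nat.pow_lt_pow_right (by norm_num) (h_lt r)
  omega

theorem ms_strictMono : StrictMono ms := strictMono_nat_of_lt_succ ms_lt

theorem isSpec_ms (r : ℕ) : isSpec (ms r) = true := (isSpec_iff _).2 ⟨r, rfl⟩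

theorem D_ms (j r : ℕ) : D j (str (ms r)) =
    if jOf (qOf r) = j then
      (match EV r with
        | none => nb j (DD j (ms r))
        | some ev => ev.2.2.2)
      else nb j (DD j (ms r)) := by
  rw [D_str, isSpec_ms]
  have : rOf (lg (ms r)) = r := rOf_lg r
  rw [this]
  by_cases hj : jOf (qOf r) = j
  · rw [if_pos hj, if_pos (by simp [hj])]
    cases EV r <;> rfl
  · rw [if_neg hj, if_neg (by simp [hj])]

theorem W_eq (r : ℕ) : W r = DD (jOf (qOf r)) (ms r) := rfl

theorem Bt_eq (r : ℕ) : Bt r = nb (jOf (qOf r)) (DD (jOf (qOf r)) (ms r)) := rfl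

theorem D_not_spec (j : ℕ) {r m : ℕ} (h1 : ms r < m) (h2 : m < ms (r + 1)) :
    D j (str m) = nb j (DD j m) := by
  rw [D_str]
  have : isSpec m = false := by
    rw [← Bool.not_eq_true, isSpec_iff]
    rintro ⟨r', hr'⟩
    change m = ms r' at hr'
    rw [hr'] at h1 h2
    have h3 := ms_strictMono.lt_iff_lt.1 h1
    have h4 := ms_strictMono.lt_iff_lt.1 h2
    omega
  rw [this]
  simp

/-! ### The potential -/

/-- The potential of a requirement. -/
def pot (r q : ℕ) : ℚ :=
  if unsat EV r q then (1 - eps q) ^ highCount EV r q else 1 + eps q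

theorem pot_pos (r q : ℕ) : 0 < pot r q := by
  unfold pot
  have h1 := eps_pos q
  have h2 := eps_le q
  split_ifs
  · apply pow_pos; linarith
  · linarith

theorem pot_le (r q : ℕ) : pot r q ≤ 1 + eps q := by
  unfold pot
  have h1 := eps_pos q
  have h2 := eps_le q
  split_ifs
  · have : (1 - eps q) ^ highCount EV r q ≤ 1 := pow_le_one₀ (by linarith) (by linarith)
    linarith
  · exact le_rfl

theorem unsat_succ (F : ℕ → Option Ev) (r q : ℕ) :
    unsat F (r + 1) q = (unsat F r q && (!decide (qOf r = q) || okEv (F r))) := by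
  unfold unsat
  rw [List.range_succ, List.all_append]
  simp

theorem highCount_succ (F : ℕ → Option Ev) (r q : ℕ) :
    highCount F (r + 1) q = highCount F r q +
      (if decide (qOf r = q) && kindIs (F r) 0 then 1 else 0) := by
  unfold highCount
  rw [List.range_succ, List.filter_append, List.length_append]
  congr 1
  cases hc : (decide (qOf r = q) && kindIs (F r) 0)
  · simp [List.filter, hc]
  · simp [List.filter, hc]

theorem pot_succ_of_ne {r q : ℕ} (hq : qOf r ≠ q) : pot (r + 1) q = pot r q := by
  unfold pot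
  rw [unsat_succ, highCount_succ]
  simp [hq]

theorem pot_succ_of_none {r : ℕ} (hE : EV r = none) (q : ℕ) : pot (r + 1) q = pot r q := by
  unfold pot
  rw [unsat_succ, highCount_succ, hE]
  simp [okEv, kindIs]

theorem half_bound (q : ℕ) {c : ℕ} (hc : 2 ^ (q + 1) ≤ c) : (1 - eps q) ^ c ≤ 1 / 2 := by
  have h1 := eps_pos q
  have h2 := eps_le q
  have h3 : (1 - eps q) ^ c ≤ (1 - eps q) ^ (2 ^ (q + 1)) :=
    pow_le_pow_of_le_one (by linarith) (by linarith) hc
  have h4 : 2 ≤ (1 + eps q) ^ (2 ^ (q + 1)) := by
    have := one_add_mul_le_pow (a := eps q) (by linarith) (2 ^ (q + 1))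
    have he := eps_mul q
    push_cast at this
    linarith
  have h5 : (1 - eps q) ^ (2 ^ (q + 1)) * (1 + eps q) ^ (2 ^ (q + 1)) ≤ 1 := by
    rw [← mul_pow]
    apply pow_le_one₀
    · nlinarith
    · nlinarith
  have h6 : 0 ≤ (1 - eps q) ^ (2 ^ (q + 1)) := pow_nonneg (by linarith) _
  nlinarith

/-- The step at a special index. -/
theorem fac_pot {j : ℕ} {s : List Bool → ℚ} (hs : IsStrategy s) (hsim : Simulates j s) (r : ℕ)
    (hj : jOf (qOf r) = j) :
    fac s (DD j (ms r)) (D j (str (ms r))) * pot r (qOf r) ≤ pot (r + 1) (qOf r) := by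
  subst hj
  have hDs := D_ms (jOf (qOf r)) r
  rw [if_pos rfl] at hDs
  have hnb := fac_nb hs hsim (DD (jOf (qOf r)) (ms r))
  have hp0 := pot_pos r (qOf r)
  have hε := eps_pos (qOf r)
  have hε2 := eps_le (qOf r)
  cases hE : EV r with
  | none =>
    rw [hE] at hDs
    rw [hDs, pot_succ_of_none hE]
    simp only
    nlinarith
  | some ev =>
    rw [hE] at hDs
    simp only at hDs
    have hEV := EV_eq r
    rw [hE] at hEV
    by_cases hun : unsat EV r (qOf r) = true
    swap
    · rw [if_neg hun] at hEV
      exact absurd hEV (by simp)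
    rw [if_pos hun] at hEV
    cases hY : Y r with
    | none =>
      rw [hY] at hEV
      exact absurd hEV (by simp)
    | some y =>
      rw [hY] at hEV
      simp only at hEV
      by_cases hl : long r y = true
      · rw [if_pos hl] at hEV
        have hev : ev = (y, (if betC EV r y then 2 else 1, (A y, Bt r))) :=
          Option.some_injective _ hEV
        have hbit : D (jOf (qOf r)) (str (ms r)) = nb (jOf (qOf r)) (DD (jOf (qOf r)) (ms r)) := by
          rw [hDs, hev, ← Bt_eq]
        rw [hbit]
        have hmono : pot r (qOf r) ≤ pot (r + 1) (qOf r) := by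
          unfold pot
          rw [unsat_succ, highCount_succ, hE, hun]
          have hk : kindIs (some ev) 0 = false := by
            unfold kindIs
            rw [hev]
            simp only
            split_ifs <;> simp
          rw [hk]
          simp only [Bool.true_and, decide_true, Bool.not_true, Bool.false_or, Bool.and_false,
            if_true, Bool.false_eq_true, if_false, add_zero]
          split_ifs
          · exact le_rfl
          · have : (1 - eps (qOf r)) ^ highCount EV r (qOf r) ≤ 1 :=
              pow_le_one₀ (by linarith) (by linarith)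
            linarith
        nlinarith
      · rw [if_neg hl] at hEV
        have hev := Option.some_injective _ hEV
        by_cases hc : (Small r (A y) || decide (2 ^ (qOf r + 1) ≤ highCount EV r (qOf r))) = true
        · -- the bit is `!a`
          rw [if_pos hc] at hev
          have hbit : D (jOf (qOf r)) (str (ms r)) = !(A y) := by
            rw [hDs, hev]
          rw [hbit]
          have hpot1 : pot (r + 1) (qOf r) = 1 + eps (qOf r) := by
            unfold pot
            rw [unsat_succ, hE, hev]
            simp [okEv]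
          have hpotr : pot r (qOf r) = (1 - eps (qOf r)) ^ highCount EV r (qOf r) := by
            unfold pot
            rw [hun]
            simp
          rw [hpot1]
          rcases Bool.or_eq_true_iff.1 hc with hsm | hct
          · have h1 := (small_iff hs hsim (A y)).1 hsm
            have h2 : pot r (qOf r) ≤ 1 := by
              rw [hpotr]
              exact pow_le_one₀ (by linarith) (by linarith)
            have h3 := fac_nonneg s (W r) (!(A y))
            rw [W_eq] at h1 h3
            nlinarith
          · have h1 := half_bound (qOf r) (of_decide_eq_true hct)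
            rw [hpotr]
            have h2 := fac_le_two hs (DD (jOf (qOf r)) (ms r)) (!(A y))
            have h3 := fac_nonneg s (DD (jOf (qOf r)) (ms r)) (!(A y))
            have h4 : 0 ≤ (1 - eps (qOf r)) ^ highCount EV r (qOf r) := pow_nonneg (by linarith) _
            nlinarith
        · rw [if_neg hc] at hev
          have hbit : D (jOf (qOf r)) (str (ms r)) = A y := by
            rw [hDs, hev]
          rw [hbit]
          have hsm : ¬ Small r (A y) = true := by
            intro hh
            exact hc (by rw [hh]; rfl)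
          rw [small_iff hs hsim] at hsm
          push Not at hsm
          have hadd := fac_add hs (W r) (A y)
          have hpot1 : pot (r + 1) (qOf r) = (1 - eps (qOf r)) ^ (highCount EV r (qOf r) + 1) := by
            unfold pot
            rw [unsat_succ, highCount_succ, hE, hev, hun]
            simp [okEv, kindIs]
          have hpotr : pot r (qOf r) = (1 - eps (qOf r)) ^ highCount EV r (qOf r) := by
            unfold pot
            rw [hun]
            simp
          rw [hpot1, hpotr, pow_succ, mul_comm]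
          apply mul_le_mul_of_nonneg_left _ (pow_nonneg (by linarith) _)
          rw [← W_eq]
          linarith

theorem capital_nonneg (s : List Bool → ℚ) (B : Lang) (n : ℕ) : 0 ≤ capital s B n := by
  induction n with
  | zero => simp [capital]
  | succ n ih =>
    unfold capital
    positivity

theorem capital_succ (s : List Bool → ℚ) (j n : ℕ) :
    capital s (D j) (n + 1) = fac s (DD j n) (D j (str n)) * capital s (D j) n := by
  rw [capital, charPrefix_D]
  rfl

/-- After a special index. -/
theorem capital_after {j : ℕ} {s : List Bool → ℚ} (hs : IsStrategy s) (hsim : Simulates j s)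
    (r : ℕ) : ∀ n, ms r + 1 ≤ n → n ≤ ms (r + 1) →
      capital s (D j) n ≤ capital s (D j) (ms r + 1) := by
  intro n hn
  induction n, hn using Nat.le_induction with
  | base => intro _; exact le_rfl
  | succ n hn ih =>
    intro h1
    rw [capital_succ, D_not_spec j (by omega : ms r < n) (by omega)]
    have h2 := fac_nb hs hsim (DD j n)
    have h3 := fac_nonneg s (DD j n) (nb j (DD j n))
    have h4 := capital_nonneg s (D j) n
    have h5 := ih (by omega)
    nlinarith

theorem capital_ms {j : ℕ} {s : List Bool → ℚ} (hs : IsStrategy s) (hsim : Simulates j s)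
    (Q : ℕ) : ∀ r ≤ Q, capital s (D j) (ms r) ≤
      ∏ q ∈ (Finset.range Q).filter (fun q => jOf q = j), pot r q := by
  intro r
  induction r with
  | zero =>
    intro _
    rw [ms_zero]
    have : ∀ q, pot 0 q = 1 := by
      intro q
      simp [pot, unsat, highCount]
    simp [capital, this]
  | succ r ih =>
    intro hr
    have hih := ih (by omega)
    have h1 := capital_after hs hsim r (ms (r + 1)) (ms_lt r) le_rfl
    refine h1.trans ?_
    rw [capital_succ]
    have hcap := capital_nonneg s (D j) (ms r)
    have hf := fac_nonneg s (DD j (ms r)) (D j (str (ms r)))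
    have hprod : 0 ≤ ∏ q ∈ (Finset.range Q).filter (fun q => jOf q = j), pot r q :=
      Finset.prod_nonneg fun q _ => (pot_pos r q).le
    by_cases hj : jOf (qOf r) = j
    · have hmem : qOf r ∈ (Finset.range Q).filter (fun q => jOf q = j) := by
        rw [Finset.mem_filter, Finset.mem_range]
        exact ⟨lt_of_le_of_lt (qOf_le r) (by omega), hj⟩
      rw [← Finset.mul_prod_erase _ _ hmem] at hih ⊢
      have heq : ∏ q ∈ ((Finset.range Q).filter (fun q => jOf q = j)).erase (qOf r),
          pot (r + 1) q = ∏ q ∈ ((Finset.range Q).filter (fun q => jOf q = j)).erase (qOf r),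
          pot r q :=
        Finset.prod_congr rfl fun q hq => pot_succ_of_ne (Ne.symm (Finset.ne_of_mem_erase hq))
      rw [heq]
      have hstep := fac_pot hs hsim r hj
      have hP : 0 ≤ ∏ q ∈ ((Finset.range Q).filter (fun q => jOf q = j)).erase (qOf r),
          pot r q := Finset.prod_nonneg fun q _ => (pot_pos r q).le
      calc fac s (DD j (ms r)) (D j (str (ms r))) * capital s (D j) (ms r)
          ≤ fac s (DD j (ms r)) (D j (str (ms r))) * (pot r (qOf r) *
            ∏ q ∈ ((Finset.range Q).filter (fun q => jOf q = j)).erase (qOf r), pot r q) :=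
            mul_le_mul_of_nonneg_left hih hf
        _ = (fac s (DD j (ms r)) (D j (str (ms r))) * pot r (qOf r)) *
            ∏ q ∈ ((Finset.range Q).filter (fun q => jOf q = j)).erase (qOf r), pot r q := by ring
        _ ≤ _ := mul_le_mul_of_nonneg_right hstep hP
    · have heq : ∏ q ∈ (Finset.range Q).filter (fun q => jOf q = j), pot (r + 1) q =
          ∏ q ∈ (Finset.range Q).filter (fun q => jOf q = j), pot r q :=
        Finset.prod_congr rfl fun q hq => pot_succ_of_ne (by
          rintro rfl
          exact hj (Finset.mem_filter.1 hq).2)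
      rw [heq, D_ms, if_neg hj]
      have h2 := fac_nb hs hsim (DD j (ms r))
      have h3 := fac_nonneg s (DD j (ms r)) (nb j (DD j (ms r)))
      nlinarith

theorem prod_le_three (Q : ℕ) :
    ∏ q ∈ Finset.range (Q + 1), (1 + eps q) ≤ 3 * (1 - 1 / 2 ^ (Q + 1)) := by
  induction Q with
  | zero => simp [eps]; norm_num
  | succ Q ih =>
    rw [Finset.prod_range_succ]
    have h1 : eps (Q + 1) = 1 / 2 ^ (Q + 1) / 2 := by
      unfold eps
      rw [pow_succ]
      field_simp
    have h2 : (1 : ℚ) / 2 ^ (Q + 1 + 1) = 1 / 2 ^ (Q + 1) / 2 := by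
      rw [pow_succ]
      field_simp
    have h3 : (0 : ℚ) < 1 / 2 ^ (Q + 1) := by positivity
    rw [h1, h2]
    set x : ℚ := 1 / 2 ^ (Q + 1)
    calc (∏ q ∈ Finset.range (Q + 1), (1 + eps q)) * (1 + x / 2) ≤ 3 * (1 - x) * (1 + x / 2) :=
          mul_le_mul_of_nonneg_right ih (by linarith)
      _ ≤ 3 * (1 - x / 2) := by nlinarith

theorem capital_ms_le {j : ℕ} {s : List Bool → ℚ} (hs : IsStrategy s) (hsim : Simulates j s)
    (r : ℕ) : capital s (D j) (ms r) ≤ 3 := by
  refine (capital_ms hs hsim (r + 1) r (Nat.le_succ r)).trans ?_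
  have h1 : ∏ q ∈ (Finset.range (r + 1)).filter (fun q => jOf q = j), pot r q ≤
      ∏ q ∈ (Finset.range (r + 1)).filter (fun q => jOf q = j), (1 + eps q) :=
    Finset.prod_le_prod (fun q _ => (pot_pos r q).le) fun q _ => pot_le r q
  have h2 : ∏ q ∈ (Finset.range (r + 1)).filter (fun q => jOf q = j), (1 + eps q) ≤
      ∏ q ∈ Finset.range (r + 1), (1 + eps q) := by
    apply Finset.prod_le_prod_of_subset_of_one_le (Finset.filter_subset _ _)
    · intro q _
      have := eps_pos q
      linarith
    · intro q _ _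
      have := eps_pos q
      linarith
  have h3 := prod_le_three r
  have h4 : (0 : ℚ) < 1 / 2 ^ (r + 1) := by positivity
  linarith

/-- **Boundedness.** -/
theorem capital_bounded {j : ℕ} {s : List Bool → ℚ} (hs : IsStrategy s)
    (hsim : ∀ w, ∃ p q : ℕ, 0 < q ∧ s w = (p : ℚ) / (q : ℚ) ∧
      out j w = some (pairStr p.bits q.bits)) : ∃ K : ℚ, ∀ N, capital s (D j) N ≤ K := by
  refine ⟨6, fun N => ?_⟩
  have hex : ∃ r, N < ms r := ⟨N + 1, lt_of_lt_of_le (Nat.lt_succ_self N) ms_strictMono.le_apply⟩
  classical
  obtain ⟨r, hr, hmin⟩ : ∃ r, N < ms (r + 1) ∧ ms r ≤ N := by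
    have h1 := Nat.find_spec hex
    have h0 : Nat.find hex ≠ 0 := by
      intro h0
      rw [h0, ms_zero] at h1
      omega
    obtain ⟨r, hr⟩ := Nat.exists_eq_succ_of_ne_zero h0
    refine ⟨r, ?_, ?_⟩
    · rw [hr] at h1; exact h1
    · by_contra hc
      exact Nat.find_min hex (m := r) (by omega) (not_le.1 hc)
  have h3 := capital_ms_le hs hsim r
  rcases hmin.eq_or_lt with heq | hlt
  · rw [← heq]; linarith
  · have h4 := capital_after hs hsim r N hlt hr.le
    rw [capital_succ] at h4
    have h5 := fac_le_two hs (DD j (ms r)) (D j (str (ms r)))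
    have h6 := capital_nonneg s (D j) (ms r)
    nlinarith

end Pool.Agent.Lib.MP_7fc3ed_lc
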