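import Pool.Agent.Lib.PolyTime.Lists

/-!
# Codes of stack machines and their interpreter

Any tree is read as the code of a stack machine; `U M x t` is its result on input `x` after `t`
steps.
-/

namespace Pool.Agent.Lib.MP_7fc3ed_lc

open Pool.Agent.PolyTime

/-- The list of trees along the right spine. -/
def tlist : T → List T
  | .nil => []
  | .cons a b => a :: tlist b

/-- The tree with a given list of trees along its right spine. -/
def ofList : List T → T
  | [] => .nil
  | a :: l => .cons a (ofList l)

@[simp] theorem tlist_ofList (l : List T) : tlist (ofList l) = l := by
  induction l with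
  | nil => rfl
  | cons a l ih => simp [ofList, tlist, ih]

/-- The number given by a tree: the length of its right spine. -/
def tnum (t : T) : ℕ := (tlist t).length

/-- A tree giving a number. -/
def ofNum (n : ℕ) : T := ofList (List.replicate n .nil)

@[simp] theorem tnum_ofNum (n : ℕ) : tnum (ofNum n) = n := by simp [tnum, ofNum]

/-- The `i`-th entry of a tree. -/
def ent (t : T) (i : ℕ) : T := (tlist t).getD i .nil

/-- The `i`-th entry of a tree, as a number. -/
def entN (t : T) (i : ℕ) : ℕ := tnum (ent t i)

/-- Replace an entry of a list. -/
def setAt (S : List (List ℕ)) (k : ℕ) (l : List ℕ) : List (List ℕ) :=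
  S.take k ++ l :: S.drop (k + 1)

/-- The symbol on top of a stack plus one, `0` if the stack is empty. -/
def topN : List ℕ → ℕ
  | [] => 0
  | a :: _ => a + 1

/-- Configurations: a state, and the contents of the stacks. -/
abbrev Conf : Type := ℕ × List (List ℕ)

/-- One step of the machine with program `p`. The instruction in state `q` is `ent p q`:
* `nil`: halt;
* `[0, k, tab]`: read and remove the top symbol `a` of stack `k`, go to the state `tab[a + 1]`
  (to `tab[0]` if the stack is empty);
* `[1, k, tab]`: the same without removing the symbol;
* otherwise `[_, k, [a, q']]`: put `a` on the stack `k` and go to `q'`. -/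
def step (p : T) (c : Conf) : Conf :=
  let I := ent p c.1
  if (tlist I).isEmpty then c else
  let k := entN I 1
  let tab := ent I 2
  let l := c.2.getD k []
  let kind := entN I 0
  if kind = 0 then
    (entN tab (topN l), setAt c.2 k l.tail)
  else if kind = 1 then
    (entN tab (topN l), c.2)
  else
    (entN tab 1, setAt c.2 k (entN tab 0 :: l))

/-- The initial configuration. The entries of a code are: the number of stacks, the input stack,
the output stack, the input symbols of `0` and `1`, the output symbol of `1`, the initial state,
and the program. -/
def init (M : T) (x : List Bool) : Conf :=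
  (entN M 6, setAt (List.replicate (entN M 0) []) (entN M 1)
    (x.map fun b => if b then entN M 4 else entN M 3))

/-- The result of the machine with code `M` on input `x` after `t` steps (`none` if it has not
halted). -/
def U (M : T) (x : List Bool) (t : ℕ) : Option (List Bool) :=
  let c := (step (ent M 7))^[t] (init M x)
  if (tlist (ent (ent M 7) c.1)).isEmpty then
    some ((c.2.getD (entN M 2) []).map fun a => decide (a = entN M 5))
  else none

theorem step_halted {p : T} {c : Conf} (h : (tlist (ent p c.1)).isEmpty) : step p c = c := by
  simp [step, h]

/-- The result does not change with more time. -/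
theorem U_mono {M : T} {x y : List Bool} {t t' : ℕ} (h : U M x t = some y) (ht : t ≤ t') :
    U M x t' = some y := by
  unfold U at h ⊢
  obtain ⟨d, rfl⟩ := Nat.exists_eq_add_of_le ht
  by_cases hh : (tlist (ent (ent M 7) ((step (ent M 7))^[t] (init M x)).1)).isEmpty
  · have : (step (ent M 7))^[t + d] (init M x) = (step (ent M 7))^[t] (init M x) := by
      rw [Nat.add_comm, Function.iterate_add_apply]
      exact Function.iterate_fixed (step_halted hh) d
    simp only [this]
    exact h
  · simp [hh] at h

theorem U_unique {M : T} {x y y' : List Bool} {t t' : ℕ} (h : U M x t = some y)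
    (h' : U M x t' = some y') : y = y' := by
  have h1 := U_mono h (le_max_left t t')
  have h2 := U_mono h' (le_max_right t t')
  rw [h1] at h2
  exact Option.some_injective _ h2

theorem getD_setAt_self {S : List (List ℕ)} {k : ℕ} {l : List ℕ} (hk : k ≤ S.length) :
    (setAt S k l).getD k [] = l := by
  unfold setAt
  rw [List.getD_append_right _ _ _ _ (by simp)]
  simp [hk]

end Pool.Agent.Lib.MP_7fc3ed_lc
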