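import Pool.Agent.Lib.MP_7fc3ed_lc.PTX
import Pool.Agent.Lib.MP_7fc3ed_lc.Code

/-!
# The interpreter is polynomial-time computable
-/

namespace Pool.Agent.Lib.MP_7fc3ed_lc

open Pool.Agent.PolyTime

variable {α β γ δ σ : Type*} [Rep α] [Rep β] [Rep γ] [Rep δ] [Rep σ]

theorem toT_tlist (t : T) : toT (tlist t) = t := by
  induction t with
  | nil => rfl
  | cons a b _ ih => simp [tlist, ih]

@[fun_prop]
theorem pt_tlist {f : α → T} (hf : PT f) : PT (fun a => tlist (f a)) :=
  Comp.congr hf (fun _ => rfl) fun a => (toT_tlist (f a)).symm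

theorem sz_tlist (t : T) : sz (tlist t) = t.size := by rw [sz, toT_tlist]

@[fun_prop]
theorem pt_tnum {f : α → T} (hf : PT f) : PT (fun a => tnum (f a)) :=
  PT.length (pt_tlist hf)

@[fun_prop]
theorem pt_ent {f : α → T} {g : α → ℕ} (hf : PT f) (hg : PT g) :
    PT (fun a => ent (f a) (g a)) :=
  PT.listGetD (pt_tlist hf) hg (PT.const _)

@[fun_prop]
theorem pt_entN {f : α → T} {g : α → ℕ} (hf : PT f) (hg : PT g) :
    PT (fun a => entN (f a) (g a)) := pt_tnum (pt_ent hf hg)

theorem tnum_le (t : T) : tnum t ≤ t.size := by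
  rw [← sz_tlist]; exact length_le_sz _

theorem size_ent_le (t : T) (i : ℕ) : (ent t i).size ≤ t.size := by
  unfold ent
  by_cases h : i < (tlist t).length
  · rw [List.getD_eq_getElem _ _ h]
    have := sz_mem_le (List.getElem_mem h)
    rw [sz_tlist] at this
    exact this
  · rw [List.getD_eq_default _ _ (by omega)]
    exact T.size_pos t

theorem entN_le (t : T) (i : ℕ) : entN t i ≤ t.size := (tnum_le _).trans (size_ent_le _ _)

@[fun_prop]
theorem pt_setAt {f : α → List (List ℕ)} {g : α → ℕ} {h : α → List ℕ} (hf : PT f) (hg : PT g)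
    (hh : PT h) : PT (fun a => setAt (f a) (g a) (h a)) := by
  unfold setAt; fun_prop

@[fun_prop]
theorem pt_topN {f : α → List ℕ} (hf : PT f) : PT (fun a => topN (f a)) :=
  (PT.listCases (g := fun _ b _ => b + 1) hf (PT.const 0) PT.id.snd.fst.succ).congr fun a => by
    cases f a <;> rfl

theorem step_eq (p : T) (c : Conf) : step p c =
    if (tlist (ent p c.1)).isEmpty then c else
    if entN (ent p c.1) 0 = 0 then
      (entN (ent (ent p c.1) 2) (topN (c.2.getD (entN (ent p c.1) 1) [])),
        setAt c.2 (entN (ent p c.1) 1) (c.2.getD (entN (ent p c.1) 1) []).tail)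
    else if entN (ent p c.1) 0 = 1 then
      (entN (ent (ent p c.1) 2) (topN (c.2.getD (entN (ent p c.1) 1) [])), c.2)
    else
      (entN (ent (ent p c.1) 2) 1, setAt c.2 (entN (ent p c.1) 1)
        (entN (ent (ent p c.1) 2) 0 :: c.2.getD (entN (ent p c.1) 1) [])) := rfl

@[fun_prop]
theorem pt_step {f : α → T} {g : α → Conf} (hf : PT f) (hg : PT g) :
    PT (fun a => step (f a) (g a)) := by
  simp only [step_eq]
  fun_prop

theorem sz_setAt (S : List (List ℕ)) (k : ℕ) (l : List ℕ) :
    sz (setAt S k l) + sz (S.getD k []) ≤ sz S + sz l + 2 := by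
  unfold setAt
  have h1 := sz_append (S.take k) (l :: S.drop (k + 1))
  rw [sz_cons] at h1
  by_cases hk : k < S.length
  · have h2 := sz_append (S.take k) (S[k] :: S.drop (k + 1))
    rw [sz_cons, ← List.drop_eq_getElem_cons hk, List.take_append_drop] at h2
    rw [List.getD_eq_getElem _ _ hk]
    omega
  · rw [List.getD_eq_default _ _ (by omega)]
    rw [List.take_of_length_le (by omega), List.drop_of_length_le (by omega)] at h1 ⊢
    simp only [sz_nil] at h1 ⊢
    omega

theorem sz_tail_le (l : List ℕ) : sz l.tail ≤ sz l := sz_sublist (List.tail_sublist l)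

theorem step_bound (p : T) (c : Conf) : (step p c).1 ≤ max c.1 p.size ∧
    sz (step p c).2 ≤ sz c.2 + 2 * p.size + 4 := by
  have hs : ∀ i j, entN (ent (ent p c.1) i) j ≤ p.size := fun i j =>
    (entN_le _ _).trans ((size_ent_le _ _).trans (size_ent_le _ _))
  rw [step_eq]
  split_ifs
  · exact ⟨le_max_left _ _, by omega⟩
  · refine ⟨(hs 2 _).trans (le_max_right _ _), ?_⟩
    have h1 := sz_setAt c.2 (entN (ent p c.1) 1) (c.2.getD (entN (ent p c.1) 1) []).tail
    have h2 := sz_tail_le (c.2.getD (entN (ent p c.1) 1) [])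
    simp only
    omega
  · exact ⟨(hs 2 _).trans (le_max_right _ _), by simp only; omega⟩
  · refine ⟨(hs 2 _).trans (le_max_right _ _), ?_⟩
    have h1 := sz_setAt c.2 (entN (ent p c.1) 1)
      (entN (ent (ent p c.1) 2) 0 :: c.2.getD (entN (ent p c.1) 1) [])
    have h2 := hs 2 0
    rw [sz_cons, sz_nat] at h1
    simp only
    omega

theorem iter_bound (p : T) (c : Conf) (m : ℕ) : ((step p)^[m] c).1 ≤ max c.1 p.size ∧
    sz ((step p)^[m] c).2 ≤ sz c.2 + m * (2 * p.size + 4) := by
  induction m with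
  | zero => simp
  | succ m ih =>
    rw [Function.iterate_succ_apply']
    obtain ⟨h1, h2⟩ := step_bound p ((step p)^[m] c)
    refine ⟨h1.trans (by omega), ?_⟩
    have : (m + 1) * (2 * p.size + 4) = m * (2 * p.size + 4) + (2 * p.size + 4) := by ring
    omega

@[fun_prop]
theorem pt_steps {f : α → T} {g : α → Conf} {n : α → ℕ} (hf : PT f) (hg : PT g) (hn : PT n) :
    PT (fun a => (step (f a))^[n a] (g a)) := by
  refine pt_iter (g := fun a c => step (f a) c) hn hg (by fun_prop)
    (B := fun a => 2 * (sz (g a) + sz (f a)) + sz (g a) + n a * (2 * sz (f a) + 4) + 2)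
    ?_ ?_
  · exact ((((Bdd.const 2).mul (hg.bdd.add hf.bdd)).add hg.bdd).add
      ((bdd_nat hn).mul (((Bdd.const 2).mul hf.bdd).add (Bdd.const 4)))).add (Bdd.const 2)
  · intro a m hm
    obtain ⟨h1, h2⟩ := iter_bound (f a) (g a) m
    rw [sz_prod, sz_nat]
    have h3 : (g a).1 ≤ sz (g a) := by
      rw [sz_prod, sz_nat]; omega
    have h4 : sz (g a).2 ≤ sz (g a) := by
      rw [sz_prod]; omega
    have h5 : m * (2 * (f a).size + 4) ≤ n a * (2 * (f a).size + 4) := Nat.mul_le_mul_right _ hm
    have h6 : sz (f a) = (f a).size := rfl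
    have h7 : max (g a).1 (f a).size ≤ sz (g a) + sz (f a) := by omega
    rw [h6] at h7
    beta_reduce
    rw [h6]
    generalize (step (f a))^[m] (g a) = w at h1 h2 ⊢
    omega

@[fun_prop]
theorem pt_init {f : α → T} {g : α → List Bool} (hf : PT f) (hg : PT g) :
    PT (fun a => init (f a) (g a)) := by
  unfold init
  fun_prop

@[fun_prop]
theorem pt_U {f : α → T} {g : α → List Bool} {n : α → ℕ} (hf : PT f) (hg : PT g) (hn : PT n) :
    PT (fun a => U (f a) (g a) (n a)) := by
  unfold U
  fun_prop

/-! ### Lengths -/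

theorem length_setAt_le {S : List (List ℕ)} {k : ℕ} {l : List ℕ} {B : ℕ}
    (hS : ∀ l ∈ S, l.length ≤ B) (hl : l.length ≤ B) : ∀ l' ∈ setAt S k l, l'.length ≤ B := by
  intro l' h
  unfold setAt at h
  rw [List.mem_append, List.mem_cons] at h
  rcases h with h | rfl | h
  · exact hS _ (List.mem_of_mem_take h)
  · exact hl
  · exact hS _ (List.mem_of_mem_drop h)

theorem length_getD_le {S : List (List ℕ)} {k B : ℕ} (hS : ∀ l ∈ S, l.length ≤ B) :
    (S.getD k []).length ≤ B := by
  by_cases hk : k < S.length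
  · rw [List.getD_eq_getElem _ _ hk]; exact hS _ (List.getElem_mem hk)
  · rw [List.getD_eq_default _ _ (by omega)]; simp

theorem iter_length (p : T) (c : Conf) (B m : ℕ) (hS : ∀ l ∈ c.2, l.length ≤ B) :
    ∀ l ∈ ((step p)^[m] c).2, l.length ≤ B + m := by
  induction m with
  | zero => simpa using hS
  | succ m ih =>
    rw [Function.iterate_succ_apply', step_eq]
    generalize (step p)^[m] c = c' at ih
    have h1 : ∀ l ∈ c'.2, l.length ≤ B + (m + 1) := fun l hl => (ih l hl).trans (by omega)
    have h2 := length_getD_le (k := entN (ent p c'.1) 1) ih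
    split_ifs
    · exact h1
    · exact length_setAt_le h1 (by simp only [List.length_tail]; omega)
    · exact h1
    · exact length_setAt_le h1 (by simp only [List.length_cons]; omega)

theorem length_U {M : T} {x y : List Bool} {t : ℕ} (h : U M x t = some y) :
    y.length ≤ x.length + t := by
  unfold U at h
  simp only at h
  split_ifs at h
  rw [Option.some_inj] at h
  rw [← h, List.length_map]
  refine length_getD_le (iter_length _ _ _ _ ?_)
  intro l hl
  refine length_setAt_le (B := x.length) ?_ (by simp) l hl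
  intro l' hl'
  rw [List.mem_replicate] at hl'
  rw [hl'.2]; simp

end Pool.Agent.Lib.MP_7fc3ed_lc
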