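import Pool.Agent.Lib.MP_7fc3ed_lc.Bin

/-!
# The construction

The set `A` and the diagonal sets `D j`.  Stage `r` works at length `h r` for the requirement
`qOf r`, a pair `(i, j)`: the set `D j` is not reducible to `A` by the `i`-th function. All
definitions that are computed by our machines carry a cap `t` for the exponentially large
numbers in them.
-/

namespace Pool.Agent.Lib.MP_7fc3ed_lc

open Pool.Agent.PolyTime Function

/-- The lengths of the stages. -/
def h : ℕ → ℕ
  | 0 => 0
  | r + 1 => 2 ^ ((h r + 2) ^ (h r + 3))

/-- The last stage `r` with `h r ≤ m`. -/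
def rOf (m : ℕ) : ℕ := Nat.findGreatest (fun r => h r ≤ m) m

/-- The requirement of a stage: each requirement is that of infinitely many stages. -/
def qOf (r : ℕ) : ℕ := (Nat.unpair r).1

/-- The reduction of a requirement. -/
def iOf (q : ℕ) : ℕ := (Nat.unpair q).1

/-- The strategy of a requirement. -/
def jOf (q : ℕ) : ℕ := (Nat.unpair q).2

/-- The bound for the logarithms of the times needed at stage `r`. -/
def LL (r : ℕ) : ℕ := (h r + 2) ^ ((Nat.unpair (jOf (qOf r))).2 + 2)

/-- Events: the string `y` to which `0 ^ h r` is mapped, the kind of the stage (0: `y` is short,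
1: `y` is long and there is no bet, 2: `y` is long and there is a bet), the value of `A` at `y`,
and the value of `D j` at `0 ^ h r`. -/
abbrev Ev : Type := List Bool × (ℕ × (Bool × Bool))

/-- The event has not met the requirement. -/
def okEv (o : Option Ev) : Bool := match o with
  | none => true
  | some ev => decide (ev.2.2.1 = ev.2.2.2)

/-- The coding of the pair `(e, x)`. -/
def cd (e : ℕ) (x : List Bool) : List Bool :=
  List.replicate (e * (x.length + 1)) true ++ false :: x

/-- The number of leading ones. -/
def ones (y : List Bool) : ℕ := (y.takeWhile fun b => b).length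

/-- Decoding. -/
def dec (y : List Bool) : Option (ℕ × List Bool) :=
  if ones y < y.length ∧ ones y % ((y.drop (ones y + 1)).length + 1) = 0 then
    some (ones y / ((y.drop (ones y + 1)).length + 1), y.drop (ones y + 1))
  else none

/-- The kind of an event. -/
def kindIs (o : Option Ev) (k : ℕ) : Bool := match o with
  | none => false
  | some ev => decide (ev.2.1 = k)

/-- The set (that is, its index) on which an event bets. -/
def betsOn (o : Option Ev) (e : ℕ) : Bool := match o with
  | none => false
  | some ev => decide (ev.2.1 = 2) && (match dec ev.1 with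
    | none => false
    | some c => decide (c.1 = e))

/-- The requirement `q` is not met before stage `r`. -/
def unsat (F : ℕ → Option Ev) (r q : ℕ) : Bool :=
  (List.range r).all fun r' => !decide (qOf r' = q) || okEv (F r')

/-- The number of high stages for `q` before `r`. -/
def highCount (F : ℕ → Option Ev) (r q : ℕ) : ℕ :=
  ((List.range r).filter fun r' => decide (qOf r' = q) && kindIs (F r') 0).length

/-- The number of bets on the set `e` for `q` before `r`. -/
def betCount (F : ℕ → Option Ev) (r e q : ℕ) : ℕ :=
  ((List.range r).filter fun r' => decide (qOf r' = q) && betsOn (F r') e).length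

/-- The number of bets after which a requirement may injure a set. -/
def thr (e q : ℕ) : ℕ := 2 * Nat.pair e q + 2

/-- The condition for a bet at a stage with a long `y`. -/
def betC (F : ℕ → Option Ev) (r : ℕ) (y : List Bool) : Bool := match dec y with
  | none => false
  | some c => decide (c.1 < qOf r) && decide (betCount F r c.1 (qOf r) < thr c.1 (qOf r))

/-- The time allowed for the strategy `j` at `w`. -/
def fuel (j : ℕ) (w : List Bool) : ℕ :=
  2 ^ (w.length.bits.length ^ (Nat.unpair j).2 + (Nat.unpair j).2)

/-- The output of the strategy `j` at `w`. -/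
def outT (t j : ℕ) (w : List Bool) : Option (List Bool) :=
  U (tree (Nat.unpair j).1) w (min (fuel j w) t)

/-- The bit at which the strategy `j` does not gain at `w`: `0` if the value is at most `1/2`,
otherwise `1`. -/
def nbT (t j : ℕ) (w : List Bool) : Bool := match outT t j w with
  | none => false
  | some o => !ble (shl 1 (unpairStr o).1) (unpairStr o).2

/-- The strategy `j` gains at `w` at most by the factor `1 + 2 ^ (-q-1)` if the bit is not `a`. -/
def smallT (t j : ℕ) (w : List Bool) (q : ℕ) (a : Bool) : Bool := match outT t j w with
  | none => false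
  | some o => if a then
      ble (shl (q + 2) (unpairStr o).1) (badd (shl (q + 1) (unpairStr o).2) (unpairStr o).2)
    else
      ble (shl (q + 1) (unpairStr o).2) (badd (shl (q + 2) (unpairStr o).1) (unpairStr o).2)

/-- The number of bits of `m + 1`, minus one. -/
def lg (m : ℕ) : ℕ := (m + 1).bits.length - 1

/-- `m` is the index of the string of the stage `rOf (lg m)`. -/
def isSpec (m : ℕ) : Bool := decide (h (rOf (lg m)) = lg m) && decide (2 ^ lg m = m + 1)

/-- The bit of `D j` with index `m`, where `w` is the list of the earlier bits, if the events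
before `r` are known. -/
def bitT (t : ℕ) (F : ℕ → Option Ev) (r j m : ℕ) (w : List Bool) : Bool :=
  if isSpec m && decide (rOf (lg m) < r) && decide (jOf (qOf (rOf (lg m))) = j) then
    (match F (rOf (lg m)) with
      | none => nbT t j w
      | some ev => ev.2.2.2)
  else nbT t j w

/-- The first `m` bits of `D j`. -/
def prefT (t : ℕ) (F : ℕ → Option Ev) (r j m : ℕ) : List Bool :=
  Nat.rec (motive := fun _ => List Bool) [] (fun m w => w ++ [bitT t F r j m w]) m

/-- The string to which `0 ^ h r` is mapped. -/
def yT (t r : ℕ) : Option (List Bool) :=
  U (tree (iOf (qOf r))) (zs (h r)) (cpow 2 (h r) t)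

/-- The default value of `A`. -/
def codeT (t : ℕ) (y : List Bool) : Bool := match dec y with
  | none => false
  | some c => decide (U (tree (Nat.unpair c.1).1) c.2 (cpow 2 y.length t) = some [true])

/-- The bit at `0 ^ h r` at which the strategy of stage `r` does not gain. -/
def bT (t : ℕ) (F : ℕ → Option Ev) (r : ℕ) : Bool :=
  nbT t (jOf (qOf r)) (prefT t F r (jOf (qOf r)) (cpow 2 (h r) t - 1))

/-- The string `y` is long. -/
def long (r : ℕ) (y : List Bool) : Bool := decide ((h r + 1) * LL r ≤ y.length)

/-- The value of `A` at `y`. -/
def aT (t : ℕ) (F : ℕ → Option Ev) (y : List Bool) : Bool :=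
  if unsat F (rOf y.length) (qOf (rOf y.length)) && decide (yT t (rOf y.length) = some y) &&
      long (rOf y.length) y && !betC F (rOf y.length) y then !bT t F (rOf y.length)
  else codeT t y

/-- The bit of `D j` at `0 ^ h r` at a stage with a short `y`. -/
def hT (t : ℕ) (F : ℕ → Option Ev) (r : ℕ) (a : Bool) : Bool :=
  if smallT t (jOf (qOf r)) (prefT t F r (jOf (qOf r)) (cpow 2 (h r) t - 1)) (qOf r) a ||
      decide (2 ^ (qOf r + 1) ≤ highCount F r (qOf r)) then !a else a

/-- The event of stage `r`. -/
def evT (t : ℕ) (F : ℕ → Option Ev) (r : ℕ) : Option Ev :=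
  if unsat F r (qOf r) then
    (match yT t r with
      | none => none
      | some y => if long r y then
          some (y, (if betC F r y then 2 else 1, (aT t F y, bT t F r)))
        else some (y, (0, (aT t F y, hT t F r (aT t F y)))))
  else none

/-- The events before stage `r`. -/
def hist : ℕ → List (Option Ev)
  | 0 => []
  | r + 1 => hist r ++ [evT (h (r + 1)) (fun r' => (hist r).getD r' none) r]

/-- The event of stage `r`. -/
def EV (r : ℕ) : Option Ev := evT (h (r + 1)) (fun r' => (hist r).getD r' none) r

/-- The set `A`. -/
def A : Lang := fun y => aT (2 ^ y.length) EV y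

/-- The output of strategy `j`. -/
def out (j : ℕ) (w : List Bool) : Option (List Bool) := outT (fuel j w) j w

/-- The bit at which the strategy `j` does not gain at `w`. -/
def nb (j : ℕ) (w : List Bool) : Bool := nbT (fuel j w) j w

/-- The first `m` bits of `D j`. -/
def DD (j : ℕ) : ℕ → List Bool
  | 0 => []
  | m + 1 => DD j m ++ [if isSpec m && decide (jOf (qOf (rOf (lg m))) = j) then
      (match EV (rOf (lg m)) with
        | none => nb j (DD j m)
        | some ev => ev.2.2.2)
      else nb j (DD j m)]

/-- The diagonal set of the strategy `j`. -/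
def D (j : ℕ) : Lang := fun x => (DD j (idx x + 1)).getD (idx x) false

end Pool.Agent.Lib.MP_7fc3ed_lc
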