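import Pool.Agent.Lib.MP_7fc3ed_lc.Facts

/-!
# The ingredients of the construction are polynomial-time computable
-/

namespace Pool.Agent.Lib.MP_7fc3ed_lc

open Pool.Agent.PolyTime Function

variable {α β γ δ σ : Type*} [Rep α] [Rep β] [Rep γ] [Rep δ] [Rep σ]

theorem h_succ' (r : ℕ) : h (r + 1) = 2 ^ ((h r + 2) ^ (h r + 3)) := rfl

theorem rOf_def' (m : ℕ) : rOf m = Nat.findGreatest (fun r => h r ≤ m) m := rfl

theorem fuel_def' (j : ℕ) (w : List Bool) : fuel j w =
  2 ^ (w.length.bits.length ^ (Nat.unpair j).2 + (Nat.unpair j).2) := rfl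

theorem prefT_def' (t : ℕ) (F : ℕ → Option Ev) (r j m : ℕ) : prefT t F r j m =
  Nat.rec (motive := fun _ => List Bool) [] (fun m w => w ++ [bitT t F r j m w]) m := rfl

theorem length_prefT (t : ℕ) (F : ℕ → Option Ev) (r j m : ℕ) : (prefT t F r j m).length = m := by
  induction m with
  | zero => rfl
  | succ m ih => rw [prefT_succ, List.length_append, ih]; rfl

attribute [local irreducible] h rOf unpairStr tree U qOf iOf jOf ones dec cd okEv kindIs betsOn
  unsat highCount betCount thr betC fuel outT nbT smallT lg isSpec bitT prefT yT codeT bT long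
  aT hT evT ble badd shl str idx zs

/-! ### Stages -/

theorem capTwo (E t : ℕ) : min (2 ^ (min E t)) t = min (2 ^ E) t := by
  rcases Nat.le_total E t with h | h
  · rw [Nat.min_eq_left h]
  · rw [Nat.min_eq_right h]
    have h1 : t < 2 ^ t := Nat.lt_two_pow_self
    have h2 : 2 ^ t ≤ 2 ^ E := Nat.pow_le_pow_right (by norm_num) h
    omega

theorem capH_rec (t r : ℕ) : Nat.rec (motive := fun _ => ℕ) 0
    (fun _ v => cpow 2 (cpow (v + 2) (v + 3) t) t) r = min (h r) t := by
  induction r with
  | zero => simp [h]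
  | succ r ih =>
    simp only [ih]
    rw [cpow_def, cpow_def, capTwo]
    have h1 := h_succ' r
    rcases Nat.le_total (h r) t with h2 | h2
    · rw [Nat.min_eq_left h2, h1]
    · rw [Nat.min_eq_right h2]
      have h3 := h_lt r
      have h4 : t + 2 ≤ (t + 2) ^ (t + 3) := Nat.le_self_pow (by omega) _
      have h5 : (t + 2) ^ (t + 3) < 2 ^ ((t + 2) ^ (t + 3)) := Nat.lt_two_pow_self
      omega

theorem pt_capH {f g : α → ℕ} (hf : PT f) (hg : PT g) : PT (fun a => min (h (f a)) (g a)) := by
  refine (PT.natRec (g := fun a _ v => cpow 2 (cpow (v + 2) (v + 3) (g a)) (g a)) hf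
    (f := fun _ => 0) (by fun_prop) (by fun_prop) (B := fun a => 2 * g a + 1)
    (((Bdd.const 2).mul (bdd_nat hg)).add (Bdd.const 1)) ?_).congr fun a => capH_rec _ _
  intro a m _
  rw [capH_rec, sz_nat]
  omega

/-- Capped stage length. -/
def ch (r t : ℕ) : ℕ := min (h r) t

theorem ch_def (r t : ℕ) : ch r t = min (h r) t := rfl

attribute [irreducible] ch

@[fun_prop]
theorem pt_ch {f g : α → ℕ} (hf : PT f) (hg : PT g) : PT (fun a => ch (f a) (g a)) :=
  (pt_capH hf hg).congr fun a => (ch_def _ _).symm

theorem pt_h {f g : α → ℕ} (hf : PT f) (hg : PT g) (hle : ∀ a, h (f a) ≤ g a) :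
    PT (fun a => h (f a)) :=
  (pt_capH hf hg).congr fun a => Nat.min_eq_left (hle a)

@[fun_prop]
theorem pt_rOf {f : α → ℕ} (hf : PT f) : PT (fun a => rOf (f a)) := by
  have key : ∀ (a : α) (n : ℕ), Nat.rec (motive := fun _ => ℕ) 0
      (fun i s => if ch (i + 1) (f a + 1) ≤ f a then i + 1 else s) n =
      Nat.findGreatest (fun r => h r ≤ f a) n := by
    intro a n
    induction n with
    | zero => rfl
    | succ n ih =>
      simp only [ih, Nat.findGreatest_succ]
      have h2 := ch_def (n + 1) (f a + 1)
      by_cases h1 : h (n + 1) ≤ f a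
      · rw [if_pos (by omega), if_pos h1]
      · rw [if_neg (by omega), if_neg h1]
  refine (PT.natRec (g := fun a i s => if ch (i + 1) (f a + 1) ≤ f a then i + 1 else s) hf
    (f := fun _ => 0) (by fun_prop) (by fun_prop) (B := fun a => 2 * f a + 1)
    (((Bdd.const 2).mul (bdd_nat hf)).add (Bdd.const 1)) ?_).congr fun a => by
      rw [key a, rOf_def']
  intro a m hm
  rw [key, sz_nat]
  have := Nat.findGreatest_le (P := fun r => h r ≤ f a) m
  omega

@[fun_prop]
theorem pt_qOf {f : α → ℕ} (hf : PT f) : PT (fun a => qOf (f a)) := by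
  unfold qOf; fun_prop

@[fun_prop]
theorem pt_iOf {f : α → ℕ} (hf : PT f) : PT (fun a => iOf (f a)) := by
  unfold iOf; fun_prop

@[fun_prop]
theorem pt_jOf {f : α → ℕ} (hf : PT f) : PT (fun a => jOf (f a)) := by
  unfold jOf; fun_prop

/-! ### Decoding -/

theorem ones_foldl (y : List Bool) : ∀ (c : ℕ),
    y.foldl (fun (s : Bool × ℕ) b => if s.1 then (if b then (true, s.2 + 1) else (false, s.2))
      else s) (true, c) = (decide (ones y = y.length), c + ones y) ∧
    ∀ c, y.foldl (fun (s : Bool × ℕ) b => if s.1 then (if b then (true, s.2 + 1)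
      else (false, s.2)) else s) (false, c) = (false, c) := by
  induction y with
  | nil => intro c; simp [ones]
  | cons b y ih =>
    intro c
    refine ⟨?_, ?_⟩
    · cases b
      · have := (ih 0).2 c
        simp only [List.foldl_cons, if_true, Bool.false_eq_true, if_false, this]
        simp [ones]
      · have := (ih (c + 1)).1
        simp only [List.foldl_cons, if_true, this]
        have e : ones (true :: y) = ones y + 1 := by simp [ones]
        rw [e, List.length_cons]
        simp only [Nat.add_right_cancel_iff, Prod.mk.injEq, true_and]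
        omega
    · intro c
      simp only [List.foldl_cons, Bool.false_eq_true, if_false]
      exact (ih 0).2 c

@[fun_prop]
theorem pt_ones {f : α → List Bool} (hf : PT f) : PT (fun a => ones (f a)) := by
  have h1 : PT (fun a => (f a).foldl (fun (s : Bool × ℕ) b => if s.1 then
      (if b then (true, s.2 + 1) else (false, s.2)) else s) (true, 0)) := by
    refine PT.foldl (g := fun _ (s : Bool × ℕ) b => if s.1 then
      (if b then (true, s.2 + 1) else (false, s.2)) else s) hf (by fun_prop) (by fun_prop)
      (B := fun a => 2 * (f a).length + 5) (((Bdd.const 2).mul (bdd_nat hf.length)).add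
        (Bdd.const 5)) ?_
    intro a l' hl'
    rw [(ones_foldl l' 0).1]
    have h2 := hl'.length_le
    have h3 : ones l' ≤ l'.length := by unfold ones; exact (List.takeWhile_sublist _).length_le
    have h4 := sz_bool (decide (ones l' = l'.length))
    rw [sz_pair, sz_nat]
    omega
  refine h1.snd.congr fun a => ?_
  rw [(ones_foldl (f a) 0).1]
  simp

@[fun_prop]
theorem pt_dec {f : α → List Bool} (hf : PT f) : PT (fun a => dec (f a)) := by
  unfold dec; fun_prop

@[fun_prop]
theorem pt_cd {f : α → ℕ} {g : α → List Bool} (hf : PT f) (hg : PT g) :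
    PT (fun a => cd (f a) (g a)) := by
  unfold cd; fun_prop

/-! ### Events -/

/-- The events given by a list. -/
def gF (H : List (Option Ev)) : ℕ → Option Ev := fun r => H.getD r none

@[fun_prop]
theorem pt_gF {f : α → List (Option Ev)} {g : α → ℕ} (hf : PT f) (hg : PT g) :
    PT (fun a => gF (f a) (g a)) := by
  unfold gF; fun_prop

@[fun_prop]
theorem pt_okEv {f : α → Option Ev} (hf : PT f) : PT (fun a => okEv (f a)) :=
  (PT.optionCases (g := fun _ (ev : Ev) => decide (ev.2.2.1 = ev.2.2.2)) hf (PT.const true)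
    (by fun_prop)).congr fun a => by unfold okEv; cases f a <;> rfl

@[fun_prop]
theorem pt_kindIs {f : α → Option Ev} {g : α → ℕ} (hf : PT f) (hg : PT g) :
    PT (fun a => kindIs (f a) (g a)) :=
  (PT.optionCases (g := fun a (ev : Ev) => decide (ev.2.1 = g a)) hf (PT.const false)
    (by fun_prop)).congr fun a => by unfold kindIs; cases f a <;> rfl

@[fun_prop]
theorem pt_betsOn {f : α → Option Ev} {g : α → ℕ} (hf : PT f) (hg : PT g) :
    PT (fun a => betsOn (f a) (g a)) := by
  have h1 : PT (fun p : α × Ev => Option.casesOn (motive := fun _ => Bool) (dec p.2.1) false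
      fun c => decide (c.1 = g p.1)) :=
    PT.optionCases (g := fun (p : α × Ev) (c : ℕ × List Bool) => decide (c.1 = g p.1))
      (by fun_prop) (by fun_prop) (by fun_prop)
  refine (PT.optionCases (g := fun a (ev : Ev) => decide (ev.2.1 = 2) &&
    Option.casesOn (motive := fun _ => Bool) (dec ev.1) false fun c => decide (c.1 = g a))
    hf (PT.const false) ?_).congr fun a => by
      unfold betsOn
      cases f a with
      | none => rfl
      | some ev => simp only; cases dec ev.1 <;> rfl
  exact PT.and (by fun_prop) h1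

@[fun_prop]
theorem pt_unsat {H : α → List (Option Ev)} {r q : α → ℕ} (hH : PT H) (hr : PT r) (hq : PT q) :
    PT (fun a => unsat (gF (H a)) (r a) (q a)) := by
  unfold unsat; fun_prop

@[fun_prop]
theorem pt_highCount {H : α → List (Option Ev)} {r q : α → ℕ} (hH : PT H) (hr : PT r)
    (hq : PT q) : PT (fun a => highCount (gF (H a)) (r a) (q a)) := by
  unfold highCount; fun_prop

@[fun_prop]
theorem pt_betCount {H : α → List (Option Ev)} {r e q : α → ℕ} (hH : PT H) (hr : PT r)
    (he : PT e) (hq : PT q) : PT (fun a => betCount (gF (H a)) (r a) (e a) (q a)) := by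
  unfold betCount; fun_prop

@[fun_prop]
theorem pt_thr {e q : α → ℕ} (he : PT e) (hq : PT q) : PT (fun a => thr (e a) (q a)) := by
  unfold thr; fun_prop

@[fun_prop]
theorem pt_betC {H : α → List (Option Ev)} {r : α → ℕ} {y : α → List Bool} (hH : PT H)
    (hr : PT r) (hy : PT y) : PT (fun a => betC (gF (H a)) (r a) (y a)) :=
  (PT.optionCases (g := fun a (c : ℕ × List Bool) => decide (c.1 < qOf (r a)) &&
    decide (betCount (gF (H a)) (r a) c.1 (qOf (r a)) < thr c.1 (qOf (r a))))
    (pt_dec hy) (PT.const false) (by fun_prop)).congr fun a => by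
      unfold betC; cases dec (y a) <;> rfl

/-! ### Strategies -/

theorem capFuel (a k t : ℕ) : min (2 ^ (min (a ^ k) t + k)) t = min (2 ^ (a ^ k + k)) t := by
  rcases Nat.le_total (a ^ k) t with h | h
  · rw [Nat.min_eq_left h]
  · rw [Nat.min_eq_right h]
    have h1 : t < 2 ^ t := Nat.lt_two_pow_self
    have h2 : 2 ^ t ≤ 2 ^ (t + k) := Nat.pow_le_pow_right (by norm_num) (by omega)
    have h3 : 2 ^ t ≤ 2 ^ (a ^ k + k) := Nat.pow_le_pow_right (by norm_num) (by omega)
    omega

theorem pt_capFuel {t j : α → ℕ} {w : α → List Bool} (ht : PT t) (hj : PT j) (hw : PT w) :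
    PT (fun a => min (fuel (j a) (w a)) (t a)) := by
  have h1 : PT (fun a => cpow 2 (cpow ((w a).length.bits.length) (Nat.unpair (j a)).2 (t a) +
      (Nat.unpair (j a)).2) (t a)) := by fun_prop
  refine h1.congr fun a => ?_
  rw [cpow_def, cpow_def, capFuel, fuel_def']

@[fun_prop]
theorem pt_outT {t j : α → ℕ} {w : α → List Bool} (ht : PT t) (hj : PT j) (hw : PT w) :
    PT (fun a => outT (t a) (j a) (w a)) := by
  unfold outT
  exact pt_U (by fun_prop) hw (pt_capFuel ht hj hw)

@[fun_prop]
theorem pt_nbT {t j : α → ℕ} {w : α → List Bool} (ht : PT t) (hj : PT j) (hw : PT w) :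
    PT (fun a => nbT (t a) (j a) (w a)) :=
  (PT.optionCases (g := fun _ (o : List Bool) => !ble (shl 1 (unpairStr o).1) (unpairStr o).2)
    (pt_outT ht hj hw) (PT.const false) (by fun_prop)).congr fun a => by
      unfold nbT; cases outT (t a) (j a) (w a) <;> rfl

@[fun_prop]
theorem pt_smallT {t j : α → ℕ} {w : α → List Bool} {q : α → ℕ} {b : α → Bool} (ht : PT t)
    (hj : PT j) (hw : PT w) (hq : PT q) (hb : PT b) :
    PT (fun a => smallT (t a) (j a) (w a) (q a) (b a)) :=
  (PT.optionCases (g := fun a (o : List Bool) => if b a then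
      ble (shl (q a + 2) (unpairStr o).1) (badd (shl (q a + 1) (unpairStr o).2) (unpairStr o).2)
    else
      ble (shl (q a + 1) (unpairStr o).2) (badd (shl (q a + 2) (unpairStr o).1) (unpairStr o).2))
    (pt_outT ht hj hw) (PT.const false) (by fun_prop)).congr fun a => by
      unfold smallT; cases outT (t a) (j a) (w a) <;> rfl

/-! ### The sets `D j` -/

@[fun_prop]
theorem pt_lg {f : α → ℕ} (hf : PT f) : PT (fun a => lg (f a)) := by
  unfold lg; fun_prop

@[fun_prop]
theorem pt_isSpec {f : α → ℕ} (hf : PT f) : PT (fun a => isSpec (f a)) := by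
  have h1 : PT (fun a => decide (ch (rOf (lg (f a))) (lg (f a)) = lg (f a)) &&
      decide (cpow 2 (lg (f a)) (f a + 2) = f a + 1)) := by fun_prop
  refine h1.congr fun a => ?_
  unfold isSpec
  rw [ch_def, cpow_def, Nat.min_eq_left (h_rOf_le _)]
  congr 1
  rw [decide_eq_decide]
  omega

@[fun_prop]
theorem pt_bitT {t r j m : α → ℕ} {H : α → List (Option Ev)} {w : α → List Bool} (ht : PT t)
    (hH : PT H) (hr : PT r) (hj : PT j) (hm : PT m) (hw : PT w) :
    PT (fun a => bitT (t a) (gF (H a)) (r a) (j a) (m a) (w a)) := by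
  have h1 : PT (fun a => Option.casesOn (motive := fun _ => Bool) (gF (H a) (rOf (lg (m a))))
      (nbT (t a) (j a) (w a)) fun ev => ev.2.2.2) :=
    PT.optionCases (g := fun (_ : α) (ev : Ev) => ev.2.2.2) (by fun_prop) (by fun_prop)
      (by fun_prop)
  have h2 : PT (fun a => isSpec (m a) && decide (rOf (lg (m a)) < r a) &&
      decide (jOf (qOf (rOf (lg (m a)))) = j a)) := by fun_prop
  refine (PT.ite h2 h1 (pt_nbT ht hj hw)).congr fun a => ?_
  unfold bitT
  split_ifs
  · cases gF (H a) (rOf (lg (m a))) <;> rfl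
  · rfl

@[fun_prop]
theorem pt_prefT {t r j m : α → ℕ} {H : α → List (Option Ev)} (ht : PT t)
    (hH : PT H) (hr : PT r) (hj : PT j) (hm : PT m) :
    PT (fun a => prefT (t a) (gF (H a)) (r a) (j a) (m a)) := by
  refine (PT.natRec (f := fun _ => ([] : List Bool))
    (g := fun a m w => w ++ [bitT (t a) (gF (H a)) (r a) (j a) m w]) hm (by fun_prop)
    (by fun_prop) (B := fun a => m a * 4 + 1)
    (((bdd_nat hm).mul (Bdd.const 4)).add (Bdd.const 1)) ?_).congr fun a => by
      rw [prefT_def']
  intro a i hi
  rw [← prefT_def']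
  have h1 := length_prefT (t a) (gF (H a)) (r a) (j a) i
  have h2 := sz_le_of_forall (prefT (t a) (gF (H a)) (r a) (j a) i) 3 fun b _ => sz_bool b
  rw [h1] at h2
  omega

/-! ### The set `A` and the events -/

theorem pt_yT {t r b : α → ℕ} (ht : PT t) (hr : PT r) (hb : PT b) (hle : ∀ a, h (r a) ≤ b a) :
    PT (fun a => yT (t a) (r a)) := by
  have := pt_h hr hb hle
  unfold yT
  fun_prop

@[fun_prop]
theorem pt_codeT {t : α → ℕ} {y : α → List Bool} (ht : PT t) (hy : PT y) :
    PT (fun a => codeT (t a) (y a)) :=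
  (PT.optionCases (g := fun a (c : ℕ × List Bool) =>
      decide (U (tree (Nat.unpair c.1).1) c.2 (cpow 2 (y a).length (t a)) = some [true]))
    (pt_dec hy) (PT.const false)
    (PT.eqOfInj (β := Option (List Bool)) (by
      have h1 : Injective (toT : Bool → T) := by
        intro a b hab; cases a <;> cases b <;> simp_all
      have h2 : Injective (toT : List Bool → T) := by
        intro a
        induction a with
        | nil => intro b hab; cases b <;> simp_all
        | cons x a ih =>
          intro b hab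
          cases b with
          | nil => simp at hab
          | cons y b =>
            simp only [toT_cons, T.cons.injEq] at hab
            rw [h1 hab.1, ih hab.2]
      intro a b hab
      cases a <;> cases b <;> simp_all
      exact h2 hab) (by fun_prop) (by fun_prop))).congr fun a => by
      unfold codeT; cases dec (y a) <;> rfl

theorem pt_bT {t r b : α → ℕ} {H : α → List (Option Ev)} (ht : PT t) (hH : PT H) (hr : PT r)
    (hb : PT b) (hle : ∀ a, h (r a) ≤ b a) : PT (fun a => bT (t a) (gF (H a)) (r a)) := by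
  have := pt_h hr hb hle
  unfold bT
  fun_prop

theorem long_eq (r : ℕ) (y : List Bool) : long r y =
    decide ((min (h r) (y.length + 1) + 1) * min ((min (h r) (y.length + 1) + 2) ^
      ((Nat.unpair (jOf (qOf r))).2 + 2)) (y.length + 1) ≤ y.length) := by
  unfold long
  rw [decide_eq_decide]
  rcases Nat.lt_or_ge (h r) (y.length + 1) with h1 | h1
  · rw [Nat.min_eq_left h1.le]
    change _ ↔ (h r + 1) * min (LL r) (y.length + 1) ≤ y.length
    rcases Nat.lt_or_ge (LL r) (y.length + 1) with h2 | h2
    · rw [Nat.min_eq_left h2.le]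
    · rw [Nat.min_eq_right h2]
      constructor
      · intro h3; nlinarith
      · intro h3; nlinarith
  · rw [Nat.min_eq_right h1]
    have h3 : y.length + 1 + 2 ≤ (y.length + 1 + 2) ^ ((Nat.unpair (jOf (qOf r))).2 + 2) :=
      Nat.le_self_pow (by omega) _
    rw [Nat.min_eq_right (by omega)]
    have h2 := LL_pos r
    constructor
    · intro h4; nlinarith
    · intro h4; nlinarith

@[fun_prop]
theorem pt_long {r : α → ℕ} {y : α → List Bool} (hr : PT r) (hy : PT y) :
    PT (fun a => long (r a) (y a)) := by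
  have hc : PT (fun a => (y a).length + 1) := hy.length.succ
  have h1 : PT (fun a => min (h (r a)) ((y a).length + 1)) := pt_capH hr hc
  have h2 : PT (fun a => (Nat.unpair (jOf (qOf (r a)))).2 + 2) := by fun_prop
  have h3 : PT (fun a => min ((min (h (r a)) ((y a).length + 1) + 2) ^
      ((Nat.unpair (jOf (qOf (r a)))).2 + 2)) ((y a).length + 1)) :=
    pt_capPow (h1.add (PT.const 2)) h2 hc
  refine (PT.le ((h1.add (PT.const 1)).mul h3) hy.length).congr fun a => ?_
  rw [long_eq]

theorem toT_option_inj : Injective (toT : Option (List Bool) → T) := by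
  have h1 : Injective (toT : Bool → T) := by
    intro a b hab; cases a <;> cases b <;> simp_all
  have h2 : Injective (toT : List Bool → T) := by
    intro a
    induction a with
    | nil => intro b hab; cases b <;> simp_all
    | cons x a ih =>
      intro b hab
      cases b with
      | nil => simp at hab
      | cons y b =>
        simp only [toT_cons, T.cons.injEq] at hab
        rw [h1 hab.1, ih hab.2]
  intro a b hab
  cases a <;> cases b <;> simp_all
  exact h2 hab

@[fun_prop]
theorem pt_aT {t : α → ℕ} {H : α → List (Option Ev)} {y : α → List Bool} (ht : PT t)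
    (hH : PT H) (hy : PT y) : PT (fun a => aT (t a) (gF (H a)) (y a)) := by
  have h1 : PT (fun a => yT (t a) (rOf (y a).length)) :=
    pt_yT ht (by fun_prop) (b := fun a => (y a).length) (by fun_prop) fun a => h_rOf_le _
  have h2 : PT (fun a => bT (t a) (gF (H a)) (rOf (y a).length)) :=
    pt_bT ht hH (by fun_prop) (b := fun a => (y a).length) (by fun_prop) fun a => h_rOf_le _
  have h3 : PT (fun a => decide (yT (t a) (rOf (y a).length) = some (y a))) :=
    PT.eqOfInj toT_option_inj h1 (PT.some hy)
  have h4 : PT (fun a => unsat (gF (H a)) (rOf (y a).length) (qOf (rOf (y a).length))) := by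
    fun_prop
  have h5 : PT (fun a => long (rOf (y a).length) (y a)) := by fun_prop
  have h6 : PT (fun a => betC (gF (H a)) (rOf (y a).length) (y a)) := by fun_prop
  unfold aT
  exact PT.ite (((h4.and h3).and h5).and h6.not) h2.not (pt_codeT ht hy)

theorem pt_hT {t r b : α → ℕ} {H : α → List (Option Ev)} {c : α → Bool} (ht : PT t)
    (hH : PT H) (hr : PT r) (hc : PT c) (hb : PT b) (hle : ∀ a, h (r a) ≤ b a) :
    PT (fun a => hT (t a) (gF (H a)) (r a) (c a)) := by
  have h0 := pt_h hr hb hle
  have h1 : PT (fun a => decide (cpow 2 (qOf (r a) + 1) (highCount (gF (H a)) (r a)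
    (qOf (r a)) + 1) ≤ highCount (gF (H a)) (r a) (qOf (r a)))) := by fun_prop
  have h2 : PT (fun a => decide (2 ^ (qOf (r a) + 1) ≤ highCount (gF (H a)) (r a)
      (qOf (r a)))) := by
    refine h1.congr fun a => ?_
    rw [decide_eq_decide, cpow_def]
    omega
  have h3 : PT (fun a => smallT (t a) (jOf (qOf (r a))) (prefT (t a) (gF (H a)) (r a)
      (jOf (qOf (r a))) (cpow 2 (h (r a)) (t a) - 1)) (qOf (r a)) (c a)) := by fun_prop
  unfold hT
  exact PT.ite (h3.or h2) hc.not hc

theorem pt_evT {t r b : α → ℕ} {H : α → List (Option Ev)} (ht : PT t) (hH : PT H) (hr : PT r)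
    (hb : PT b) (hle : ∀ a, h (r a) ≤ b a) : PT (fun a => evT (t a) (gF (H a)) (r a)) := by
  have h0 := pt_yT ht hr hb hle
  have h1 : PT (fun p : α × List Bool => bT (t p.1) (gF (H p.1)) (r p.1)) :=
    (pt_bT ht hH hr hb hle).comp PT.id.fst
  have h2 : PT (fun p : α × List Bool => hT (t p.1) (gF (H p.1)) (r p.1)
      (aT (t p.1) (gF (H p.1)) p.2)) :=
    pt_hT (by fun_prop) (by fun_prop) (by fun_prop) (by fun_prop) (b := fun p => b p.1)
      (by fun_prop) fun p => hle p.1
  have h3 : PT (fun p : α × List Bool => if long (r p.1) p.2 then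
      some (p.2, (if betC (gF (H p.1)) (r p.1) p.2 then 2 else 1,
        (aT (t p.1) (gF (H p.1)) p.2, bT (t p.1) (gF (H p.1)) (r p.1))))
      else some (p.2, (0, (aT (t p.1) (gF (H p.1)) p.2, hT (t p.1) (gF (H p.1)) (r p.1)
        (aT (t p.1) (gF (H p.1)) p.2))))) := by
    have h4 : PT (fun p : α × List Bool => (if betC (gF (H p.1)) (r p.1) p.2 then 2 else 1 : ℕ)) :=
      by fun_prop
    exact PT.ite (by fun_prop) (PT.some (PT.pair (by fun_prop) (PT.pair h4 (PT.pair
      (by fun_prop) h1)))) (PT.some (PT.pair (by fun_prop) (PT.pair (by fun_prop) (PT.pair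
      (by fun_prop) h2))))
  have h5 := PT.optionCases (l := fun a => yT (t a) (r a)) (f := fun _ => (none : Option Ev))
    (g := fun a y => if long (r a) y then
      some (y, (if betC (gF (H a)) (r a) y then 2 else 1,
        (aT (t a) (gF (H a)) y, bT (t a) (gF (H a)) (r a))))
      else some (y, (0, (aT (t a) (gF (H a)) y, hT (t a) (gF (H a)) (r a)
        (aT (t a) (gF (H a)) y))))) h0 (PT.const none) h3
  refine (PT.ite (pt_unsat hH hr (pt_qOf hr)) h5 (PT.const none)).congr fun a => ?_
  unfold evT
  split_ifs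
  · cases yT (t a) (r a) <;> rfl
  · rfl

end Pool.Agent.Lib.MP_7fc3ed_lc
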