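import Mathlib.Computability.TuringMachine.Computable
import Mathlib.Data.Nat.Bits
import Mathlib.Data.Nat.Log
import Mathlib.Data.Rat.Cast.Order
import Mathlib.Algebra.Order.Field.Rat

/-!
# Complexity classes, resource-bounded measure and almost completeness: definitions
-/

namespace Pool.Agent.Lib.MP_7fc3ed_lc

open Turing

/-- `f : {0,1}* → {0,1}*` is computed by a deterministic machine with finitely many stacks over
finite alphabets (Mathlib's `FinTM2`), which reads and writes raw binary strings, within
`t n` steps on inputs of length `n`. -/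
def ComputableIn (f : List Bool → List Bool) (t : ℕ → ℕ) : Prop :=
  ∃ M : TM2ComputableInTime (id : List Bool → List Bool) (id : List Bool → List Bool) f,
    (∀ k, Finite (M.tm.Γ k)) ∧ ∀ n, M.time n ≤ t n

/-- Languages, that is, subsets of `{0,1}*`, given by their characteristic functions. -/
abbrev Lang : Type := List Bool → Bool

/-- The language `A` is decided in time `t`. -/
def DecidedIn (A : Lang) (t : ℕ → ℕ) : Prop := ComputableIn (fun x => [A x]) t

/-- `E = DTIME(2^O(n))`. -/
def ClassE : Set Lang := {A | ∃ c : ℕ, DecidedIn A fun n => 2 ^ (c * n + c)}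

/-- `EXP = DTIME(2^(n^O(1)))`. -/
def ClassEXP : Set Lang := {A | ∃ c : ℕ, DecidedIn A fun n => 2 ^ (n ^ c + c)}

/-- Polynomial-time many-one reducibility `B ≤ A`. -/
def Reduces (B A : Lang) : Prop :=
  ∃ f : List Bool → List Bool, (∃ c : ℕ, ComputableIn f fun n => n ^ c + c) ∧
    ∀ x, B x = A (f x)

/-- The lower span of `A`. -/
def lowerSpan (A : Lang) : Set Lang := {B | Reduces B A}

/-- The `n`-th string (from `n = 0`) in the length-lexicographic order: the binary expansion of
`n + 1` (most significant bit first) without its leading `1`. -/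
def str (n : ℕ) : List Bool := ((n + 1).bits.dropLast).reverse

/-- The first `n` bits of the characteristic sequence of `A`. -/
def charPrefix (A : Lang) (n : ℕ) : List Bool := (List.range n).map fun i => A (str i)

/-- A betting strategy takes rational values in `[0, 1]`. -/
def IsStrategy (s : List Bool → ℚ) : Prop := ∀ w, 0 ≤ s w ∧ s w ≤ 1

/-- The number `0` or `1` given by a bit. -/
def bitQ (b : Bool) : ℚ := if b then 1 else 0

/-- The value `d_s (A ↾ n)` of the martingale induced by the strategy `s`: `d_s (λ) = 1` and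
`d_s (w i) = 2 |i - s w| d_s (w)`. -/
def capital (s : List Bool → ℚ) (A : Lang) : ℕ → ℚ
  | 0 => 1
  | n + 1 => 2 * |bitQ (A (str n)) - s (charPrefix A n)| * capital s A n

/-- The martingale `d_s` succeeds on `A`: the limes superior of `d_s (A ↾ n)` is infinite. -/
def Succeeds (s : List Bool → ℚ) (A : Lang) : Prop :=
  ∀ (K : ℚ) (N : ℕ), ∃ n ≥ N, K < capital s A n

/-- A pairing of binary strings: `1 u₁ 1 u₂ ... 1 uₖ 0 v`. -/
def pairStr (u v : List Bool) : List Bool := (u.flatMap fun b => [true, b]) ++ false :: v

/-- The strategy `s` is computable in time `t`: numerator and denominator of a fraction equal to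
`s w` (in binary, least significant bit first) are computed within `t |w|` steps. -/
def StrategyIn (s : List Bool → ℚ) (t : ℕ → ℕ) : Prop :=
  ∃ p q : List Bool → ℕ, (∀ w, 0 < q w ∧ s w = (p w : ℚ) / (q w : ℚ)) ∧
    ComputableIn (fun w => pairStr (p w).bits (q w).bits) t

/-- `C` has measure 0 in `E`: some martingale computable in polynomial time succeeds on every
member of `C ∩ E`. -/
def MeasureZeroE (C : Set Lang) : Prop :=
  ∃ s, IsStrategy s ∧ (∃ c : ℕ, StrategyIn s fun n => n ^ c + c) ∧
    ∀ B ∈ C ∩ ClassE, Succeeds s B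

/-- `C` has measure 0 in `EXP`: for some `k`, some martingale computable in time
`O(2^((log n)^k))` succeeds on every member of `C ∩ EXP`. -/
def MeasureZeroEXP (C : Set Lang) : Prop :=
  ∃ s, IsStrategy s ∧ (∃ k c : ℕ, StrategyIn s fun n => c * 2 ^ (Nat.log 2 n) ^ k + c) ∧
    ∀ B ∈ C ∩ ClassEXP, Succeeds s B

/-- `A` is almost p-m-complete for `E`. -/
def AlmostCompleteE (A : Lang) : Prop := A ∈ ClassE ∧ MeasureZeroE (lowerSpan A)ᶜ

/-- `A` is almost p-m-complete for `EXP`. -/
def AlmostCompleteEXP (A : Lang) : Prop := A ∈ ClassEXP ∧ MeasureZeroEXP (lowerSpan A)ᶜ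

end Pool.Agent.Lib.MP_7fc3ed_lc
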