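import Pool.Agent.Lib.MP_7fc3ed_lc.PTX
import Pool.Agent.Lib.MP_7fc3ed_lc.Defs

/-!
# Programs whose running time is polynomial in a given function, and raw input and output
-/

namespace Pool.Agent.PolyTime

open Turing Function Polynomial

/-- Some program turns `x j` into `y j` in time polynomial in `B j`. -/
def CompB {ι : Type*} (x y : ι → T) (B : ι → ℕ) : Prop :=
  ∃ (p : P) (b : Polynomial ℕ), ∀ (j : ι) (i o : List Bool) (d e c n : List (Option Bool)),
    Run p (st i o (tenc (x j) ++ d) e c n) (st i o (tenc (y j) ++ d) e c n) (b.eval (B j))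

section
variable {ι κ : Type*} {x y z : ι → T} {B B' : ι → ℕ}

theorem Comp.toB (h : Comp x y) : CompB x y (fun j => (x j).size) := h

theorem CompB.mono (h : CompB x y B) (q : Polynomial ℕ) (hB : ∀ j, B j ≤ q.eval (B' j)) :
    CompB x y B' := by
  obtain ⟨p, b, h⟩ := h
  refine ⟨p, b.comp q, fun j i o d e c n => (h j i o d e c n).mono ?_⟩
  rw [eval_comp]
  exact poly_mono b (hB j)

theorem CompB.monoLe (h : CompB x y B) (hB : ∀ j, B j ≤ B' j) : CompB x y B' :=
  h.mono X fun j => by simpa using hB j

theorem CompB.congr {x' y' : ι → T} (h : CompB x y B) (hx : ∀ j, x j = x' j)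
    (hy : ∀ j, y j = y' j) : CompB x' y' B := by
  rw [← funext hx, ← funext hy]; exact h

theorem CompB.comp (h1 : CompB x y B) (h2 : CompB y z B) : CompB x z B := by
  obtain ⟨p1, b1, h1⟩ := h1
  obtain ⟨p2, b2, h2⟩ := h2
  refine ⟨.seq p1 p2, b1 + b2, fun j i o d e c n => ?_⟩
  refine (Run.seq (h1 j i o d e c n) (h2 j i o d e c n)).mono ?_
  simp only [eval_add]
  exact le_rfl

/-- A polynomial-time computation on values of size at most polynomial in `B`. -/
theorem Comp.toBle (h : Comp x y) (q : Polynomial ℕ) (hB : ∀ j, (x j).size ≤ q.eval (B j)) :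
    CompB x y B := h.toB.mono q hB

/-- Bounded iteration of a polynomial-time step, without a polynomial bound for the sizes. -/
theorem Comp.iterB {s : κ → T} {next : κ → κ} (h : Comp s (fun k => s (next k)))
    {k : ι → κ} (hx : ∀ j, (x j).size ≤ B j)
    (hB : ∀ j, ∀ m ≤ (x j).size, (s (next^[m] (k j))).size ≤ B j) :
    CompB (fun j => .cons (x j) (s (k j))) (fun j => s (next^[(x j).size] (k j))) B := by
  obtain ⟨p, b, h⟩ := h
  refine ⟨.seq pop1 (.seq readTree (.seq (.push .itr none) (.seq auxToItr (rep p)))),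
    1 + ((5 * X + 4) + (1 + ((2 * X + 1) + (X * (b + 1) + 1)))),
    fun j i o d e c n => ?_⟩
  have r1 := run_pop1 i o (some true) (tenc (x j) ++ (tenc (s (k j)) ++ d)) e c n
  have r2 := run_readTree i o (x j) (tenc (s (k j)) ++ d) e c n
  rw [tenc_reverse] at r2
  have r3 : Run (.push .itr none)
    (st i o (tenc (s (k j)) ++ d) ((x j).enc.reverse.map some ++ (none :: e)) c n)
    (st i o (tenc (s (k j)) ++ d) ((x j).enc.reverse.map some ++ (none :: e)) c (none :: n)) 1 :=
    Run.push (by simp)
  have r4 := run_auxToItr i o (tenc (s (k j)) ++ d) e c (none :: n) (x j).enc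
  have r5 := run_rep p i o e c n (b.eval (B j)) (x j).size
    (fun m => tenc (s (next^[m] (k j))) ++ d) (by
      intro m hm n'
      have := h (next^[m] (k j)) i o d e c n'
      simp only [iterate_succ', comp_apply]
      exact this.mono (poly_mono b (hB j m hm.le)))
  have e1 : tenc (T.cons (x j) (s (k j))) ++ d =
      some true :: (tenc (x j) ++ (tenc (s (k j)) ++ d)) := by simp
  rw [e1]
  rw [T.length_enc] at r4
  refine (Run.seq r1 (Run.seq r2 (Run.seq r3 (Run.seq r4 r5)))).mono ?_
  simp only [eval_add, eval_mul, eval_X, eval_one, eval_ofNat]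
  have hx := hx j
  have := Nat.mul_le_mul_right (b.eval (B j) + 1) hx
  omega

end

/-- Functions computable in time polynomial in `B`. -/
def PTB {α β : Type*} [Rep α] [Rep β] (f : α → β) (B : α → ℕ) : Prop :=
  CompB (fun a : α => toT a) (fun a => toT (f a)) B

section
variable {α β γ : Type*} [Rep α] [Rep β] [Rep γ]

/-- Adding an exponentially long number to the input. -/
theorem ptb_pow {m : α → ℕ} (hm : PT m) :
    PTB (fun a : α => (a, 2 ^ m a)) (fun a => sz a + 2 ^ m a) := by
  -- one step: `(n, (a, v)) ↦ (n - 1, (a, 2 v))`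
  let next : ℕ × (α × ℕ) → ℕ × (α × ℕ) := fun s =>
    if s.1 = 0 then s else (s.1 - 1, (s.2.1, s.2.2 + s.2.2))
  have hnext : Comp (fun k : ℕ × (α × ℕ) => toT k) (fun k => toT (next k)) := by
    have : PT next := PT.iteProp (PT.isZero PT.id.fst) PT.id
      (PT.pair PT.id.fst.pred (PT.pair PT.id.snd.fst (PT.add PT.id.snd.snd PT.id.snd.snd)))
    exact this
  have key : ∀ (a : α) (M k : ℕ), next^[k] (M, (a, 1)) = (M - k, (a, 2 ^ (min k M))) := by
    intro a M k
    induction k with
    | zero => simp
    | succ k ih =>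
      rw [iterate_succ_apply', ih]
      rcases Nat.lt_or_ge k M with h | h
      · have h1 : M - k ≠ 0 := by omega
        simp only [next, h1, if_false]
        rw [Nat.min_eq_left h.le, Nat.min_eq_left h, pow_succ, Nat.sub_sub, ← Nat.mul_two]
      · have h1 : M - k = 0 := by omega
        simp only [next, h1, if_true]
        rw [Nat.min_eq_right h, Nat.min_eq_right (by omega)]
        congr 1
        omega
  have h1 : Comp (fun a : α => toT a)
      (fun a => .cons (toT (m a)) (toT ((m a, (a, 1)) : ℕ × (α × ℕ)))) :=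
    Comp.pair hm (PT.pair hm (PT.pair PT.id (PT.const 1)))
  have hpow : ∀ a, m a < 2 ^ m a := fun a => Nat.lt_two_pow_self
  obtain ⟨q, hq⟩ := hm.bdd
  have h2 : CompB (fun a : α => .cons (toT (m a)) (toT ((m a, (a, 1)) : ℕ × (α × ℕ))))
      (fun a => toT (next^[(toT (m a)).size] (m a, (a, 1))))
      (fun a => 8 * (sz a + 2 ^ m a)) := by
    refine Comp.iterB hnext (x := fun a => toT (m a)) (k := fun a => (m a, (a, 1))) ?_ ?_
    · intro a
      have := hpow a
      change sz (m a) ≤ _
      rw [sz_nat]; omega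
    · intro a k _
      rw [key]
      change sz ((m a - k, (a, 2 ^ (min k (m a)))) : ℕ × (α × ℕ)) ≤ _
      have h3 : 2 ^ (min k (m a)) ≤ 2 ^ m a := Nat.pow_le_pow_right (by norm_num) (by omega)
      have := hpow a
      have := sz_pos a
      simp only [sz_pair, sz_nat]
      omega
  have h3 : Comp (fun a : α => toT ((0, (a, 2 ^ m a)) : ℕ × (α × ℕ)))
      (fun a => toT ((a, 2 ^ m a) : α × ℕ)) := Comp.snd
  have h4 := (h1.toB.mono (B' := fun a => 8 * (sz a + 2 ^ m a)) X (fun a => by
    rw [eval_X]; change sz a ≤ _; have := hpow a; omega)).comp h2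
  have h5 : CompB (fun a : α => toT a) (fun a => toT ((0, (a, 2 ^ m a)) : ℕ × (α × ℕ)))
      (fun a => 8 * (sz a + 2 ^ m a)) := by
    refine h4.congr (fun _ => rfl) fun a => ?_
    rw [key]
    have h6 : m a ≤ (toT (m a)).size := by
      have := sz_nat (m a)
      simp only [sz] at this
      omega
    rw [Nat.min_eq_right h6, Nat.sub_eq_zero_of_le h6]
  have h7 := h5.comp (h3.toB.mono (B' := fun a => 8 * (sz a + 2 ^ m a)) X (fun a => by
    rw [eval_X]
    change sz ((0, (a, 2 ^ m a)) : ℕ × (α × ℕ)) ≤ _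
    have := hpow a
    simp only [sz_pair, sz_nat]; omega))
  exact h7.mono (8 * X) fun a => by simp

/-- A polynomial-time function of the input and of an exponentially long number. -/
theorem ptb_comp_pow {m : α → ℕ} (hm : PT m) {f : α × ℕ → β} (hf : PT f) :
    PTB (fun a => f (a, 2 ^ m a)) (fun a => sz a + 2 ^ m a) := by
  refine CompB.comp (ptb_pow hm) ?_
  refine Comp.toBle (x := fun a => toT ((a, 2 ^ m a) : α × ℕ)) (Comp.sub hf _) (2 * X + 2) ?_
  intro a
  change sz ((a, 2 ^ m a) : α × ℕ) ≤ _
  simp only [sz_pair, sz_nat, eval_add, eval_mul, eval_X, eval_ofNat]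
  omega

end

end Pool.Agent.PolyTime
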