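import Pool.Agent.Lib.MP_7fc3ed_lc.Code
import Mathlib.Data.Fintype.EquivFin

/-!
# Every machine has a code
-/

namespace Pool.Agent.Lib.MP_7fc3ed_lc

open Pool.Agent.PolyTime Turing Turing.TM2 Function

theorem step_ofList (p : T) (q : ℕ) (S : List (List ℕ)) (kind k : ℕ) (tb : T)
    (h : ent p q = ofList [ofNum kind, ofNum k, tb]) :
    MP_7fc3ed_lc.step p (q, S) =
    if kind = 0 then
      (entN tb (topN (S.getD k [])),
        setAt S k (S.getD k []).tail)
    else if kind = 1 then
      (entN tb (topN (S.getD k [])), S)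
    else (entN tb 1, setAt S k (entN tb 0 :: S.getD k [])) := by
  have e0 : entN (ofList [ofNum kind, ofNum k, tb]) 0 = kind := by simp [entN, ent]
  have e1 : entN (ofList [ofNum kind, ofNum k, tb]) 1 = k := by simp [entN, ent]
  have e2 : ent (ofList [ofNum kind, ofNum k, tb]) 2 = tb := by simp [ent]
  have e3 : (tlist (ofList [ofNum kind, ofNum k, tb])).isEmpty = false := by simp
  unfold MP_7fc3ed_lc.step
  simp only [h, e0, e1, e2, e3, Bool.false_eq_true, if_false]

section
variable {K : Type} [DecidableEq K] [Fintype K] {Γ : K → Type} [∀ k, Fintype (Γ k)]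
  {Λ : Type} [Fintype Λ] {σ : Type} [Fintype σ]

/-- Number of a stack. -/
noncomputable def kn (k : K) : ℕ := (Fintype.equivFin K k : ℕ)

/-- Number of a symbol. -/
noncomputable def sn (k : K) (a : Γ k) : ℕ := (Fintype.equivFin (Γ k) a : ℕ)

theorem sn_inj {k : K} {a b : Γ k} (h : sn k a = sn k b) : a = b :=
  (Fintype.equivFin (Γ k)).injective (Fin.ext h)

/-- Stacks of numbers. -/
noncomputable def encS (S : ∀ k, List (Γ k)) : List (List ℕ) :=
  List.ofFn fun i : Fin (Fintype.card K) =>
    (S ((Fintype.equivFin K).symm i)).map (sn ((Fintype.equivFin K).symm i))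

theorem getD_encS (S : ∀ k, List (Γ k)) (k : K) :
    (encS S).getD (kn k) [] = (S k).map (sn k) := by
  unfold encS kn
  rw [List.getD_eq_getElem _ _ (by simp)]
  simp only [List.getElem_ofFn, Fin.eta]
  rw [Equiv.symm_apply_apply]

theorem length_encS (S : ∀ k, List (Γ k)) : (encS S).length = Fintype.card K := by
  simp [encS]

theorem kn_lt (k : K) : kn k < Fintype.card K := by unfold kn; exact Fin.isLt _

theorem setAt_encS (S : ∀ k, List (Γ k)) (k : K) (l : List (Γ k)) :
    setAt (encS S) (kn k) (l.map (sn k)) = encS (update S k l) := by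
  have hk := kn_lt k
  apply List.ext_getElem
  · simp only [setAt, List.length_append, List.length_take, List.length_cons, List.length_drop,
      length_encS]
    omega
  · intro i h1 h2
    rw [length_encS] at h2
    have e2 : (encS (update S k l))[i]'(by rw [length_encS]; exact h2) =
        (update S k l ((Fintype.equivFin K).symm ⟨i, h2⟩)).map
          (sn ((Fintype.equivFin K).symm ⟨i, h2⟩)) := by
      simp [encS]
    rw [e2]
    by_cases hi : i = kn k
    · have e3 : (Fintype.equivFin K).symm ⟨i, h2⟩ = k := by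
        rw [Equiv.symm_apply_eq]
        exact Fin.ext hi
      rw [e3, update_self]
      simp only [setAt]
      rw [List.getElem_append_right (by simp; omega)]
      have : i - (List.take (kn k) (encS S)).length = 0 := by
        rw [List.length_take, length_encS]; omega
      simp only [this, List.getElem_cons_zero]
    · have e3 : (Fintype.equivFin K).symm ⟨i, h2⟩ ≠ k := by
        intro h
        rw [Equiv.symm_apply_eq] at h
        exact hi (congrArg Fin.val h)
      rw [update_of_ne e3]
      have e4 : (encS S)[i]'(by rw [length_encS]; exact h2) =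
        (S ((Fintype.equivFin K).symm ⟨i, h2⟩)).map
          (sn ((Fintype.equivFin K).symm ⟨i, h2⟩)) := by
        simp [encS]
      rw [← e4]
      simp only [setAt]
      rcases Nat.lt_or_ge i (kn k) with hlt | hge
      · rw [List.getElem_append_left (by rw [List.length_take, length_encS]; omega),
          List.getElem_take]
      · have hl : (List.take (kn k) (encS S)).length = kn k := by
          rw [List.length_take, length_encS]; omega
        rw [List.getElem_append_right (by omega)]
        obtain ⟨d, hd⟩ : ∃ d, i = kn k + 1 + d := ⟨i - (kn k + 1), by omega⟩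
        subst hd
        have : kn k + 1 + d - (List.take (kn k) (encS S)).length = d + 1 := by omega
        simp only [this, List.getElem_cons_succ, List.getElem_drop]

variable (M : Λ → Stmt Γ Λ σ)

/-- All statements occurring in the machine. -/
noncomputable def allSt : Finset (Stmt Γ Λ σ) := by
  classical exact Finset.univ.biUnion fun l => stmts₁ (M l)

theorem mem_allSt (l : Λ) : M l ∈ allSt M := by
  classical
  unfold allSt
  exact Finset.mem_biUnion.2 ⟨l, Finset.mem_univ _, stmts₁_self⟩

theorem allSt_trans {q q' : Stmt Γ Λ σ} (h : q' ∈ stmts₁ q) (hq : q ∈ allSt M) :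
    q' ∈ allSt M := by
  classical
  unfold allSt at hq ⊢
  obtain ⟨l, hl, hq⟩ := Finset.mem_biUnion.1 hq
  exact Finset.mem_biUnion.2 ⟨l, hl, stmts₁_trans hq h⟩

/-- Numbering of the states. -/
noncomputable def stEquiv : ({q // q ∈ allSt M} × σ) ≃ Fin (Fintype.card ({q // q ∈ allSt M} × σ)) :=
  Fintype.equivFin _

open Classical in
/-- Number of a state. -/
noncomputable def qn (q : Stmt Γ Λ σ) (v : σ) : ℕ :=
  if h : q ∈ allSt M then (stEquiv M (⟨q, h⟩, v) : ℕ) else 0

/-- A table indexed by the possible top symbols of a stack. -/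
noncomputable def tab (k : K) (g : Option (Γ k) → ℕ) : T :=
  ofList (ofNum (g none) :: List.ofFn fun i : Fin (Fintype.card (Γ k)) =>
    ofNum (g (some ((Fintype.equivFin (Γ k)).symm i))))

theorem entN_tab (k : K) (g : Option (Γ k) → ℕ) (l : List (Γ k)) :
    entN (tab k g) (topN (l.map (sn k))) = g l.head? := by
  cases l with
  | nil => simp [entN, ent, tab, topN]
  | cons a l =>
    simp only [List.map_cons, topN, entN, ent, tab, tlist_ofList, List.getD_cons_succ,
      List.head?_cons]
    rw [List.getD_eq_getElem _ _ (by simp [sn])]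
    simp [sn]

/-- The instruction of a state. -/
noncomputable def instr (k0 : K) : Stmt Γ Λ σ → σ → T
  | .push k f q, v => ofList [ofNum 2, ofNum (kn k),
      ofList [ofNum (sn k (f v)), ofNum (qn M q v)]]
  | .peek k f q, v => ofList [ofNum 1, ofNum (kn k), tab k fun o => qn M q (f v o)]
  | .pop k f q, v => ofList [ofNum 0, ofNum (kn k), tab k fun o => qn M q (f v o)]
  | .load a q, v => ofList [ofNum 1, ofNum (kn k0), tab (Γ := Γ) k0 fun _ => qn M q (a v)]
  | .branch p q₁ q₂, v => ofList [ofNum 1, ofNum (kn k0),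
      tab (Γ := Γ) k0 fun _ => qn M (cond (p v) q₁ q₂) v]
  | .goto l, v => ofList [ofNum 1, ofNum (kn k0), tab (Γ := Γ) k0 fun _ => qn M (M (l v)) v]
  | .halt, _ => .nil

/-- The program. -/
noncomputable def prog (k0 : K) : T :=
  ofList (List.ofFn fun i : Fin (Fintype.card ({q // q ∈ allSt M} × σ)) =>
    instr M k0 ((stEquiv M).symm i).1.1 ((stEquiv M).symm i).2)

theorem ent_prog (k0 : K) {q : Stmt Γ Λ σ} (hq : q ∈ allSt M) (v : σ) :
    ent (prog M k0) (qn M q v) = instr M k0 q v := by
  unfold ent prog qn
  rw [dif_pos hq, tlist_ofList, List.getD_eq_getElem _ _ (by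
    rw [List.length_ofFn]; exact Fin.isLt _)]
  simp only [List.getElem_ofFn, Fin.eta, Equiv.symm_apply_apply]

/-- Size of a statement. -/
def ssize : Stmt Γ Λ σ → ℕ
  | .push _ _ q => ssize q + 1
  | .peek _ _ q => ssize q + 1
  | .pop _ _ q => ssize q + 1
  | .load _ q => ssize q + 1
  | .branch _ q₁ q₂ => ssize q₁ + ssize q₂ + 1
  | .goto _ => 1
  | .halt => 1

/-- A configuration of the interpreter represents a configuration of the machine. -/
def Rel (k0 : K) (c : TM2.Cfg Γ Λ σ) (d : Conf) : Prop :=
  d.2 = encS c.stk ∧ match c.l with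
    | some l => d.1 = qn M (M l) c.var
    | none => (tlist (ent (prog M k0) d.1)).isEmpty = true

theorem step_look (k0 : K) {q : Stmt Γ Λ σ} {v : σ} (k : K) (g : Option (Γ k) → ℕ)
    (h : ent (prog M k0) (qn M q v) = ofList [ofNum 1, ofNum (kn k), tab k g])
    (S : ∀ k, List (Γ k)) :
    MP_7fc3ed_lc.step (prog M k0) (qn M q v, encS S) = (g (S k).head?, encS S) := by
  rw [step_ofList _ _ _ _ _ _ h, if_neg Nat.one_ne_zero, if_pos rfl, getD_encS, entN_tab]

theorem sim1 (k0 : K) : ∀ (q : Stmt Γ Λ σ), q ∈ allSt M → ∀ (v : σ) (S : ∀ k, List (Γ k)),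
    ∃ t ≤ ssize q, Rel M k0 (stepAux q v S)
      ((MP_7fc3ed_lc.step (prog M k0))^[t] (qn M q v, encS S)) := by
  classical
  intro q
  induction q with
  | push k f q ih =>
    intro hq v S
    have hq' : q ∈ allSt M := allSt_trans M (by
      simp only [stmts₁]; exact Finset.mem_insert_of_mem stmts₁_self) hq
    obtain ⟨t, ht, h⟩ := ih hq' v (update S k (f v :: S k))
    refine ⟨t + 1, by simp only [ssize]; omega, ?_⟩
    rw [iterate_succ_apply]
    have e := ent_prog M k0 hq v
    have e2 : MP_7fc3ed_lc.step (prog M k0) (qn M (.push k f q) v, encS S) =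
        (qn M q v, encS (update S k (f v :: S k))) := by
      rw [step_ofList _ _ _ _ _ _ e, if_neg (by norm_num), if_neg (by norm_num), getD_encS,
        ← setAt_encS]
      simp [entN, ent]
    rw [e2, stepAux]
    exact h
  | peek k f q ih =>
    intro hq v S
    have hq' : q ∈ allSt M := allSt_trans M (by
      simp only [stmts₁]; exact Finset.mem_insert_of_mem stmts₁_self) hq
    obtain ⟨t, ht, h⟩ := ih hq' (f v (S k).head?) S
    refine ⟨t + 1, by simp only [ssize]; omega, ?_⟩
    rw [iterate_succ_apply, step_look M k0 k (fun o => qn M q (f v o)) (ent_prog M k0 hq v),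
      stepAux]
    exact h
  | pop k f q ih =>
    intro hq v S
    have hq' : q ∈ allSt M := allSt_trans M (by
      simp only [stmts₁]; exact Finset.mem_insert_of_mem stmts₁_self) hq
    obtain ⟨t, ht, h⟩ := ih hq' (f v (S k).head?) (update S k (S k).tail)
    refine ⟨t + 1, by simp only [ssize]; omega, ?_⟩
    rw [iterate_succ_apply]
    have e := ent_prog M k0 hq v
    have e2 : MP_7fc3ed_lc.step (prog M k0) (qn M (.pop k f q) v, encS S) =
        (qn M q (f v (S k).head?), encS (update S k (S k).tail)) := by
      rw [step_ofList _ _ _ _ _ _ e, if_pos rfl, getD_encS, ← setAt_encS, entN_tab,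
        List.map_tail]
    rw [e2, stepAux]
    exact h
  | load a q ih =>
    intro hq v S
    have hq' : q ∈ allSt M := allSt_trans M (by
      simp only [stmts₁]; exact Finset.mem_insert_of_mem stmts₁_self) hq
    obtain ⟨t, ht, h⟩ := ih hq' (a v) S
    refine ⟨t + 1, by simp only [ssize]; omega, ?_⟩
    rw [iterate_succ_apply, step_look M k0 k0 (fun _ => qn M q (a v)) (ent_prog M k0 hq v),
      stepAux]
    exact h
  | branch p q₁ q₂ ih₁ ih₂ =>
    intro hq v S
    have hq₁ : q₁ ∈ allSt M := allSt_trans M (by
      simp only [stmts₁]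
      exact Finset.mem_insert_of_mem (Finset.mem_union_left _ stmts₁_self)) hq
    have hq₂ : q₂ ∈ allSt M := allSt_trans M (by
      simp only [stmts₁]
      exact Finset.mem_insert_of_mem (Finset.mem_union_right _ stmts₁_self)) hq
    rw [stepAux]
    cases hp : p v
    · obtain ⟨t, ht, h⟩ := ih₂ hq₂ v S
      refine ⟨t + 1, by simp only [ssize]; omega, ?_⟩
      rw [iterate_succ_apply, step_look M k0 k0 (fun _ => qn M (cond (p v) q₁ q₂) v)
        (ent_prog M k0 hq v)]
      simp only [hp, cond_false]
      exact h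
    · obtain ⟨t, ht, h⟩ := ih₁ hq₁ v S
      refine ⟨t + 1, by simp only [ssize]; omega, ?_⟩
      rw [iterate_succ_apply, step_look M k0 k0 (fun _ => qn M (cond (p v) q₁ q₂) v)
        (ent_prog M k0 hq v)]
      simp only [hp, cond_true]
      exact h
  | goto l =>
    intro hq v S
    refine ⟨1, by simp only [ssize]; omega, ?_⟩
    rw [iterate_one, step_look M k0 k0 (fun _ => qn M (M (l v)) v) (ent_prog M k0 hq v),
      stepAux]
    exact ⟨rfl, rfl⟩
  | halt =>
    intro hq v S
    refine ⟨0, by omega, ?_⟩
    rw [iterate_zero, id, stepAux]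
    refine ⟨rfl, ?_⟩
    change (tlist (ent (prog M k0) (qn M .halt v))).isEmpty = true
    rw [ent_prog M k0 hq v]
    rfl

/-- Bound for the sizes of the statements. -/
noncomputable def bigC : ℕ := (allSt M).sup ssize

theorem simn (k0 : K) (n : ℕ) : ∀ (c : TM2.Cfg Γ Λ σ) (d : Conf) (c' : TM2.Cfg Γ Λ σ),
    Rel M k0 c d → (flip bind (TM2.step M))^[n] (some c) = some c' →
    ∃ t ≤ n * bigC M, Rel M k0 c' ((MP_7fc3ed_lc.step (prog M k0))^[t] d) := by
  induction n with
  | zero =>
    intro c d c' hR h
    rw [iterate_zero, id, Option.some_inj] at h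
    subst h
    exact ⟨0, by omega, hR⟩
  | succ n ih =>
    intro c d c' hR h
    rw [iterate_succ_apply] at h
    obtain ⟨l, v, S⟩ := c
    cases l with
    | none =>
      exfalso
      have h1 : flip bind (TM2.step M) (some (⟨none, v, S⟩ : TM2.Cfg Γ Λ σ)) = none := rfl
      have h2 : ∀ m, (flip bind (TM2.step M))^[m] (none : Option (TM2.Cfg Γ Λ σ)) = none := by
        intro m
        exact iterate_fixed rfl m
      rw [h1, h2] at h
      exact Option.some_ne_none _ h.symm
    | some l =>
      have h1 : flip bind (TM2.step M) (some (⟨some l, v, S⟩ : TM2.Cfg Γ Λ σ)) =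
        some (stepAux (M l) v S) := rfl
      rw [h1] at h
      obtain ⟨e2, e1⟩ := hR
      obtain ⟨q, S'⟩ := d
      simp only at e1 e2
      subst e1 e2
      obtain ⟨t, ht, hR'⟩ := sim1 M k0 (M l) (mem_allSt M l) v S
      obtain ⟨t', ht', hR''⟩ := ih _ _ _ hR' h
      refine ⟨t' + t, ?_, ?_⟩
      · have h3 : ssize (M l) ≤ bigC M := Finset.le_sup (f := ssize) (mem_allSt M l)
        have : (n + 1) * bigC M = n * bigC M + bigC M := by ring
        omega
      · rw [iterate_add_apply]
        exact hR''

end

/-- Every function computed by a machine has a code. -/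
theorem exists_code {f : List Bool → List Bool}
    (M : TM2ComputableInTime (id : List Bool → List Bool) (id : List Bool → List Bool) f)
    (hfin : ∀ k, Finite (M.tm.Γ k)) :
    ∃ (c : T) (C : ℕ), ∀ (x : List Bool) (t : ℕ), C * M.time x.length ≤ t →
      U c x t = some (f x) := by
  classical
  obtain ⟨⟨tm, iA, oA⟩, time, hM⟩ := M
  haveI := tm.kFin
  haveI := tm.ΛFin
  haveI := tm.σFin
  haveI : ∀ k, Fintype (tm.Γ k) := fun k => @Fintype.ofFinite _ (hfin k)
  simp only at hfin hM ⊢
  let p := prog tm.m tm.k₀
  let c : T := ofList [ofNum (Fintype.card tm.K), ofNum (kn tm.k₀), ofNum (kn tm.k₁),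
    ofNum (sn tm.k₀ (iA.symm false)), ofNum (sn tm.k₀ (iA.symm true)),
    ofNum (sn tm.k₁ (oA.symm true)), ofNum (qn tm.m (tm.m tm.main) tm.initialState), p]
  refine ⟨c, bigC tm.m, fun x t ht => ?_⟩
  obtain ⟨⟨n, hn⟩, hle⟩ := hM x
  simp only [id] at hn hle ht
  have e0 : entN c 0 = Fintype.card tm.K := by simp [c, entN, ent]
  have e1 : entN c 1 = kn tm.k₀ := by simp [c, entN, ent]
  have e2 : entN c 2 = kn tm.k₁ := by simp [c, entN, ent]
  have e3 : entN c 3 = sn tm.k₀ (iA.symm false) := by simp [c, entN, ent]
  have e4 : entN c 4 = sn tm.k₀ (iA.symm true) := by simp [c, entN, ent]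
  have e5 : entN c 5 = sn tm.k₁ (oA.symm true) := by simp [c, entN, ent]
  have e6 : entN c 6 = qn tm.m (tm.m tm.main) tm.initialState := by simp [c, entN, ent]
  have e7 : ent c 7 = prog tm.m tm.k₀ := by simp [c, ent, p]
  have hrel : Rel tm.m tm.k₀ (initList tm (List.map iA.invFun x)) (init c x) := by
    refine ⟨?_, ?_⟩
    · have h1 : (initList tm (List.map iA.invFun x)).stk =
          update (fun _ => []) tm.k₀ (List.map iA.invFun x) := by
        funext k
        by_cases hk : k = tm.k₀
        · subst hk
          simp [initList]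
        · simp [initList, hk]
      rw [h1, ← setAt_encS]
      have h2 : encS (fun _ => [] : ∀ k : tm.K, List (tm.Γ k)) =
          List.replicate (Fintype.card tm.K) [] := by
        apply List.ext_getElem
        · simp [encS]
        · intro i h1 h2
          simp [encS]
      rw [h2, init, e0, e1, e3, e4, List.map_map]
      simp only
      congr 1
      apply List.map_congr_left
      intro b _
      cases b <;> simp
    · simp only [init, e6, initList]
  obtain ⟨t', ht', hR⟩ := simn tm.m tm.k₀ n _ _ _ hrel hn
  have ht2 : t' ≤ t := by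
    refine ht'.trans (le_trans ?_ ht)
    rw [Nat.mul_comm]
    exact Nat.mul_le_mul_left _ hle
  refine U_mono (t := t') ?_ ht2
  obtain ⟨hR1, hR2⟩ := hR
  have hR2 : (tlist (ent (prog tm.m tm.k₀)
    ((MP_7fc3ed_lc.step (prog tm.m tm.k₀))^[t'] (init c x)).1)).isEmpty = true := hR2
  unfold U
  simp only [e7, e2, e5]
  rw [if_pos hR2, hR1, getD_encS, List.map_map, Option.some_inj]
  have h1 : (haltList tm (List.map oA.invFun (f x))).stk tm.k₁ = List.map oA.invFun (f x) := by
    simp [haltList]
  rw [h1, List.map_map]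
  conv_rhs => rw [← List.map_id (f x)]
  apply List.map_congr_left
  intro b _
  simp only [comp_apply, id, Equiv.invFun_as_coe]
  cases b
  · rw [decide_eq_false_iff_not]
    intro h
    have := oA.symm.injective (sn_inj h)
    exact absurd this (by decide)
  · simp

end Pool.Agent.Lib.MP_7fc3ed_lc
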