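import Pool.Agent.Lib.MP_7fc3ed_lc.Constr
import Pool.Agent.Lib.MP_7fc3ed_lc.Transl

/-!
# Characterizing equations of the construction

Statements used by the combinatorial part.
-/

namespace Pool.Agent.Lib.MP_7fc3ed_lc

open Pool.Agent.PolyTime Function

/-- The string to which `0 ^ h r` is mapped. -/
def Y (r : ℕ) : Option (List Bool) := U (tree (iOf (qOf r))) (zs (h r)) (2 ^ h r)

/-- The bits of `D j` before `0 ^ h r`, for the strategy `j` of stage `r`. -/
def W (r : ℕ) : List Bool := DD (jOf (qOf r)) (2 ^ h r - 1)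

/-- The bit at `0 ^ h r` at which the strategy of stage `r` does not gain. -/
def Bt (r : ℕ) : Bool := nb (jOf (qOf r)) (W r)

/-- The strategy of stage `r` gains at most a little at `0 ^ h r` if the bit is not `a`. -/
def Small (r : ℕ) (a : Bool) : Bool := smallT (fuel (jOf (qOf r)) (W r)) (jOf (qOf r)) (W r) (qOf r) a

/-- The default value of `A`. -/
def codeA (y : List Bool) : Bool := match dec y with
  | none => false
  | some c => decide (U (tree (Nat.unpair c.1).1) c.2 (2 ^ y.length) = some [true])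

/-! ### Stages -/

theorem h_lt (r : ℕ) : h r < h (r + 1) := by
  have h1 : h (r + 1) = 2 ^ ((h r + 2) ^ (h r + 3)) := rfl
  have h2 : h r + 2 ≤ (h r + 2) ^ (h r + 3) := Nat.le_self_pow (by omega) _
  have h3 : (h r + 2) ^ (h r + 3) < 2 ^ ((h r + 2) ^ (h r + 3)) := Nat.lt_two_pow_self
  omega

theorem h_strictMono : StrictMono h := strictMono_nat_of_lt_succ h_lt

theorem le_h (r : ℕ) : r ≤ h r := h_strictMono.le_apply

theorem h_rOf_le (m : ℕ) : h (rOf m) ≤ m := by
  unfold rOf
  have : h 0 ≤ m := Nat.zero_le _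
  exact Nat.findGreatest_spec (P := fun r => h r ≤ m) (Nat.zero_le m) this

theorem lt_h_rOf (m : ℕ) : m < h (rOf m + 1) := by
  by_contra hcon
  push Not at hcon
  have h1 : rOf m + 1 ≤ m := (le_h _).trans hcon
  exact Nat.findGreatest_is_greatest (P := fun r => h r ≤ m) (n := m) (k := rOf m + 1)
    (Nat.lt_succ_self _) h1 hcon

theorem rOf_eq {m r : ℕ} (h1 : h r ≤ m) (h2 : m < h (r + 1)) : rOf m = r := by
  have h3 := h_rOf_le m
  have h4 := lt_h_rOf m
  have h5 : rOf m < r + 1 := h_strictMono.lt_iff_lt.1 (h3.trans_lt h2)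
  have h6 : r < rOf m + 1 := h_strictMono.lt_iff_lt.1 (h1.trans_lt h4)
  omega

theorem rOf_h (r : ℕ) : rOf (h r) = r := rOf_eq le_rfl (h_lt r)

theorem add_pow_le (n : ℕ) : n + 2 ^ n < (n + 2) ^ (n + 3) := by
  have h1 : n < 2 ^ n := Nat.lt_two_pow_self
  have h2 : 2 ^ n ≤ (n + 2) ^ n := Nat.pow_le_pow_left (by omega) n
  have h3 : (n + 2) ^ (n + 3) = (n + 2) ^ n * (n + 2) ^ 3 := pow_add _ _ _
  have h4 : 8 ≤ (n + 2) ^ 3 := by
    calc 8 = 2 ^ 3 := by norm_num
      _ ≤ (n + 2) ^ 3 := Nat.pow_le_pow_left (by omega) 3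
  have h5 : (n + 2) ^ n * 8 ≤ (n + 2) ^ n * (n + 2) ^ 3 := Nat.mul_le_mul_left _ h4
  have h6 : 0 < 2 ^ n := by positivity
  omega

theorem two_pow_lt_h (r : ℕ) : 2 ^ (h r + 2 ^ h r) < h (r + 1) :=
  Nat.pow_lt_pow_right (by norm_num) (add_pow_le _)

/-- The string `Y r` is short enough. -/
theorem length_Y' {r : ℕ} {y : List Bool} (hy : Y r = some y) : y.length ≤ h r + 2 ^ h r := by
  have := length_U hy
  rwa [length_zs] at this

theorem length_Y {r : ℕ} {y : List Bool} (hy : Y r = some y) : y.length < h (r + 1) := by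
  have h1 := length_Y' hy
  have h2 := two_pow_lt_h r
  have h3 : h r + 2 ^ h r < 2 ^ (h r + 2 ^ h r) := Nat.lt_two_pow_self
  omega

theorem unpair_le (n : ℕ) : (Nat.unpair n).1 ≤ n ∧ (Nat.unpair n).2 ≤ n :=
  ⟨Nat.unpair_left_le n, Nat.unpair_right_le n⟩

theorem qOf_le (r : ℕ) : qOf r ≤ r := (unpair_le r).1

theorem jOf_le (q : ℕ) : jOf q ≤ q := (unpair_le q).2

theorem LL_mul_le (r : ℕ) : (h r + 1) * LL r ≤ (h r + 2) ^ (h r + 3) := by
  have h1 : (Nat.unpair (jOf (qOf r))).2 ≤ h r :=
    (unpair_le _).2.trans ((jOf_le _).trans ((qOf_le r).trans (le_h r)))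
  calc (h r + 1) * LL r ≤ (h r + 2) * (h r + 2) ^ ((Nat.unpair (jOf (qOf r))).2 + 2) :=
        Nat.mul_le_mul_right _ (by omega)
    _ = (h r + 2) ^ ((Nat.unpair (jOf (qOf r))).2 + 3) := by ring
    _ ≤ (h r + 2) ^ (h r + 3) := Nat.pow_le_pow_right (by omega) (by omega)

theorem two_pow_LL_le (r : ℕ) : 2 ^ ((h r + 1) * LL r) ≤ h (r + 1) :=
  Nat.pow_le_pow_right (by norm_num) (LL_mul_le r)

theorem LL_pos (r : ℕ) : 0 < LL r := by unfold LL; positivity

theorem h_lt_LL (r : ℕ) : h r + 2 ≤ LL r := Nat.le_self_pow (by omega) _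

/-! ### Decoding -/

theorem takeWhile_append (n : ℕ) (x : List Bool) :
    (List.replicate n true ++ false :: x).takeWhile (fun b => b) = List.replicate n true := by
  induction n with
  | zero => simp
  | succ n ih => rw [List.replicate_succ, List.cons_append, List.takeWhile_cons_of_pos rfl, ih]

theorem ones_append (n : ℕ) (x : List Bool) : ones (List.replicate n true ++ false :: x) = n := by
  unfold ones
  rw [takeWhile_append, List.length_replicate]

theorem eq_of_ones_lt {y : List Bool} (hy : ones y < y.length) :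
    y = List.replicate (ones y) true ++ false :: y.drop (ones y + 1) := by
  induction y with
  | nil => simp at hy
  | cons b y ih =>
    cases b
    · simp [ones]
    · have e : ones (true :: y) = ones y + 1 := by simp [ones]
      rw [e] at hy ⊢
      rw [List.replicate_succ, List.cons_append, List.drop_succ_cons,
        ← ih (by simpa using hy)]

theorem length_cd (e : ℕ) (x : List Bool) : (cd e x).length = (e + 1) * (x.length + 1) := by
  unfold cd
  rw [List.length_append, List.length_replicate, List.length_cons]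
  ring

/-- Decoding. -/
theorem dec_eq_some {y : List Bool} {e : ℕ} {x : List Bool} :
    dec y = some (e, x) ↔ y = cd e x := by
  constructor
  · intro hd
    unfold dec at hd
    split_ifs at hd with hc
    obtain ⟨h1, h2⟩ := hc
    rw [Option.some_inj, Prod.mk.injEq] at hd
    obtain ⟨h3, h4⟩ := hd
    rw [h4] at h2 h3
    have h5 := eq_of_ones_lt h1
    rw [h4] at h5
    have h6 : ones y = e * (x.length + 1) := by
      have := Nat.div_add_mod (ones y) (x.length + 1)
      rw [h2, h3] at this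
      rw [← this]; ring
    rw [h5, h6]
    rfl
  · intro hy
    have h1 : ones y = e * (x.length + 1) := by rw [hy]; exact ones_append _ _
    have h2 : y.drop (ones y + 1) = x := by
      rw [h1, hy]
      unfold cd
      have : (List.replicate (e * (x.length + 1)) true ++ false :: x) =
        (List.replicate (e * (x.length + 1)) true ++ [false]) ++ x := by simp
      rw [this, List.drop_left' (by simp)]
    have h3 : ones y < y.length := by
      rw [h1, hy, length_cd]
      nlinarith
    unfold dec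
    rw [h2, if_pos ⟨h3, by rw [h1]; exact Nat.mul_mod_left _ _⟩, h1,
      Nat.mul_div_cancel _ (by omega)]

/-! ### The diagonal sets -/

theorem length_DD (j m : ℕ) : (DD j m).length = m := by
  induction m with
  | zero => rfl
  | succ m ih => simp [DD, ih]

/-- The bit of `D j` with index `m`. -/
def Dbit (j m : ℕ) : Bool :=
  if isSpec m && decide (jOf (qOf (rOf (lg m))) = j) then
    (match EV (rOf (lg m)) with
      | none => nb j (DD j m)
      | some ev => ev.2.2.2)
    else nb j (DD j m)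

theorem DD_succ (j m : ℕ) : DD j (m + 1) = DD j m ++ [Dbit j m] := rfl

theorem D_str' (j m : ℕ) : D j (str m) = Dbit j m := by
  unfold D
  rw [idx_str, DD_succ, List.getD_append_right _ _ _ _ (by rw [length_DD]), length_DD]
  simp

/-- The bits of `D j`. -/
theorem D_str (j m : ℕ) : D j (str m) =
    if isSpec m && decide (jOf (qOf (rOf (lg m))) = j) then
      (match EV (rOf (lg m)) with
        | none => nb j (DD j m)
        | some ev => ev.2.2.2)
      else nb j (DD j m) := D_str' j m

/-- The characteristic sequence of `D j`. -/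
theorem charPrefix_D (j m : ℕ) : charPrefix (D j) m = DD j m := by
  induction m with
  | zero => rfl
  | succ m ih =>
    unfold charPrefix at ih ⊢
    rw [List.range_succ, List.map_append, ih, DD_succ]
    simp [D_str']

theorem lg_two_pow (n : ℕ) : lg (2 ^ n - 1) = n := by
  unfold lg
  have h1 : 2 ^ n - 1 + 1 = code1 (zs n) := by
    rw [code1_zs]
    have : 0 < 2 ^ n := by positivity
    omega
  rw [h1, bits_code1]
  simp

theorem rOf_lg (r : ℕ) : rOf (lg (2 ^ h r - 1)) = r := by rw [lg_two_pow, rOf_h]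

/-- The indices of the strings `0 ^ h r` are the special ones. -/
theorem isSpec_iff (m : ℕ) : isSpec m = true ↔ ∃ r, m = 2 ^ h r - 1 := by
  unfold isSpec
  rw [Bool.and_eq_true, decide_eq_true_eq, decide_eq_true_eq]
  constructor
  · rintro ⟨h1, h2⟩
    exact ⟨rOf (lg m), by rw [h1]; omega⟩
  · rintro ⟨r, rfl⟩
    rw [rOf_lg, lg_two_pow]
    have : 0 < 2 ^ h r := by positivity
    exact ⟨rfl, by omega⟩

theorem str_two_pow (n : ℕ) : str (2 ^ n - 1) = zs n := by rw [← idx_zs, str_idx]

/-- The bit of `D j` at `0 ^ h r`. -/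
theorem D_zs {r : ℕ} {ev : Ev} (hE : EV r = some ev) :
    D (jOf (qOf r)) (zs (h r)) = ev.2.2.2 := by
  have h1 : isSpec (2 ^ h r - 1) = true := (isSpec_iff _).2 ⟨r, rfl⟩
  rw [← str_two_pow, D_str, rOf_lg, h1, hE]
  simp

/-! ### Removing the caps -/

theorem nbT_eq {t j : ℕ} {w : List Bool} (ht : fuel j w ≤ t) : nbT t j w = nb j w := by
  unfold nb nbT outT
  rw [Nat.min_eq_left ht, Nat.min_self]

theorem smallT_eq {t j : ℕ} {w : List Bool} {q : ℕ} {a : Bool} (ht : fuel j w ≤ t) :
    smallT t j w q a = smallT (fuel j w) j w q a := by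
  unfold smallT outT
  rw [Nat.min_eq_left ht, Nat.min_self]

theorem length_bits_le_of_lt {m n : ℕ} (hm : m < 2 ^ n) : m.bits.length ≤ n := by
  rw [Nat.size_eq_bits_len]
  exact Nat.size_le.2 hm

theorem fuel_le {j n : ℕ} {w : List Bool} (hw : w.length < 2 ^ n) :
    fuel j w ≤ 2 ^ ((n + 2) ^ ((Nat.unpair j).2 + 2)) := by
  unfold fuel
  refine Nat.pow_le_pow_right (by norm_num) ?_
  have h1 := length_bits_le_of_lt hw
  generalize (Nat.unpair j).2 = k
  have h2 : w.length.bits.length ^ k ≤ (n + 2) ^ k := Nat.pow_le_pow_left (by omega) k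
  have h3 : k ≤ (n + 2) ^ k := (Nat.lt_pow_self (by omega)).le
  have h4 : (n + 2) ^ (k + 2) = (n + 2) ^ k * (n + 2) ^ 2 := pow_add _ _ _
  have h5 : 4 ≤ (n + 2) ^ 2 := by nlinarith
  have h6 : (n + 2) ^ k * 4 ≤ (n + 2) ^ k * (n + 2) ^ 2 := Nat.mul_le_mul_left _ h5
  omega

theorem unsat_congr {F F' : ℕ → Option Ev} {r q : ℕ} (hF : ∀ r' < r, F r' = F' r') :
    unsat F r q = unsat F' r q := by
  unfold unsat
  rw [Bool.eq_iff_iff, List.all_eq_true, List.all_eq_true]
  refine forall₂_congr fun r' hr' => ?_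
  rw [List.mem_range] at hr'
  rw [hF r' hr']

theorem filter_congr' {F F' : ℕ → Option Ev} {r q : ℕ} (hF : ∀ r' < r, F r' = F' r')
    (g : Option Ev → Bool) :
    ((List.range r).filter fun r' => decide (qOf r' = q) && g (F r')) =
    ((List.range r).filter fun r' => decide (qOf r' = q) && g (F' r')) := by
  refine List.filter_congr fun r' hr' => ?_
  rw [List.mem_range] at hr'
  rw [hF r' hr']

theorem highCount_congr {F F' : ℕ → Option Ev} {r q : ℕ} (hF : ∀ r' < r, F r' = F' r') :
    highCount F r q = highCount F' r q :=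
  congrArg List.length (filter_congr' hF fun o => kindIs o 0)

theorem betCount_congr {F F' : ℕ → Option Ev} {r e q : ℕ} (hF : ∀ r' < r, F r' = F' r') :
    betCount F r e q = betCount F' r e q :=
  congrArg List.length (filter_congr' hF fun o => betsOn o e)

theorem betC_congr {F F' : ℕ → Option Ev} {r : ℕ} {y : List Bool}
    (hF : ∀ r' < r, F r' = F' r') : betC F r y = betC F' r y := by
  unfold betC
  cases dec y with
  | none => rfl
  | some c => simp only [betCount_congr hF]

theorem prefT_succ (t : ℕ) (F : ℕ → Option Ev) (r j m : ℕ) :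
    prefT t F r j (m + 1) = prefT t F r j m ++ [bitT t F r j m (prefT t F r j m)] := rfl

theorem bitT_eq {t : ℕ} {F : ℕ → Option Ev} {r j m : ℕ}
    (hF : ∀ r' < r, jOf (qOf r') = j → (F r').map (fun ev => ev.2.2.2) =
      (EV r').map (fun ev => ev.2.2.2)) (hm : m < 2 ^ h r - 1)
    (ht : fuel j (DD j m) ≤ t) : bitT t F r j m (DD j m) = Dbit j m := by
  unfold bitT Dbit
  rw [nbT_eq ht]
  by_cases hs : isSpec m = true
  · obtain ⟨r', hr'⟩ := (isSpec_iff m).1 hs
    have h1 : rOf (lg m) = r' := by rw [hr']; exact rOf_lg r'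
    have h2 : r' < r := by
      rw [hr'] at hm
      have h3 : 2 ^ h r' < 2 ^ h r := by
        have : 0 < 2 ^ h r' := by positivity
        omega
      exact h_strictMono.lt_iff_lt.1 ((Nat.pow_lt_pow_iff_right (by norm_num)).1 h3)
    rw [h1]
    by_cases hj : jOf (qOf r') = j
    · have h4 := hF r' h2 hj
      simp only [hs, h2, hj, decide_true, Bool.and_true, if_true]
      cases hE : EV r' with
      | none =>
        rw [hE] at h4
        cases hF' : F r' with
        | none => rfl
        | some ev => rw [hF'] at h4; simp at h4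
      | some ev =>
        rw [hE] at h4
        cases hF' : F r' with
        | none => rw [hF'] at h4; simp at h4
        | some ev' =>
          rw [hF'] at h4
          simpa using h4
    · simp [hj]
  · simp [hs]

theorem prefT_eq {t : ℕ} {F : ℕ → Option Ev} {r j m : ℕ}
    (hF : ∀ r' < r, jOf (qOf r') = j → (F r').map (fun ev => ev.2.2.2) =
      (EV r').map (fun ev => ev.2.2.2)) (hm : m ≤ 2 ^ h r - 1)
    (ht : ∀ m' < m, fuel j (DD j m') ≤ t) : prefT t F r j m = DD j m := by
  induction m with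
  | zero => rfl
  | succ m ih =>
    rw [prefT_succ, ih (by omega) fun m' hm' => ht m' (by omega), DD_succ,
      bitT_eq hF (by omega) (ht m (by omega))]

theorem fuel_W_le (r : ℕ) : fuel (jOf (qOf r)) (W r) ≤ 2 ^ LL r := by
  refine fuel_le ?_
  rw [W, length_DD]
  have : 0 < 2 ^ h r := by positivity
  omega

theorem prefT_W {t : ℕ} {F : ℕ → Option Ev} {r : ℕ} (hF : ∀ r' < r, F r' = EV r')
    (ht : 2 ^ LL r ≤ t) :
    prefT t F r (jOf (qOf r)) (cpow 2 (h r) t - 1) = W r := by
  have h1 : 2 ^ h r ≤ 2 ^ LL r := Nat.pow_le_pow_right (by norm_num) (by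
    have := h_lt_LL r; omega)
  rw [cpow_eq (h1.trans ht)]
  refine prefT_eq (fun r' hr' _ => by rw [hF r' hr']) le_rfl fun m' hm' => ?_
  refine le_trans (fuel_le (n := h r) ?_) ht
  rw [length_DD]
  omega

theorem bT_eq {t : ℕ} {F : ℕ → Option Ev} {r : ℕ} (hF : ∀ r' < r, F r' = EV r')
    (ht : 2 ^ LL r ≤ t) : bT t F r = Bt r := by
  unfold bT Bt
  rw [prefT_W hF ht, nbT_eq ((fuel_W_le r).trans ht)]

theorem yT_eq {t r : ℕ} (ht : 2 ^ h r ≤ t) : yT t r = Y r := by
  unfold yT Y
  rw [cpow_eq ht]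

theorem codeT_eq {t : ℕ} {y : List Bool} (ht : 2 ^ y.length ≤ t) : codeT t y = codeA y := by
  unfold codeT codeA
  rw [cpow_eq ht]
  rfl

/-- The value of `A`. -/
theorem aT_eq {t : ℕ} {F : ℕ → Option Ev} {y : List Bool}
    (hF : ∀ r' < rOf y.length, F r' = EV r') (ht : 2 ^ y.length ≤ t) : aT t F y =
    if unsat EV (rOf y.length) (qOf (rOf y.length)) && decide (Y (rOf y.length) = some y) &&
      long (rOf y.length) y && !betC EV (rOf y.length) y then !Bt (rOf y.length)
    else codeA y := by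
  unfold aT
  have h1 : 2 ^ h (rOf y.length) ≤ t :=
    (Nat.pow_le_pow_right (by norm_num) (h_rOf_le _)).trans ht
  rw [unsat_congr hF, yT_eq h1, betC_congr hF, codeT_eq ht]
  by_cases hl : long (rOf y.length) y = true
  · have h2 : LL (rOf y.length) ≤ y.length := by
      unfold long at hl
      rw [decide_eq_true_eq] at hl
      nlinarith [Nat.zero_le (h (rOf y.length) * LL (rOf y.length))]
    rw [bT_eq hF ((Nat.pow_le_pow_right (by norm_num) h2).trans ht)]
  · simp [hl]

/-- The set `A`. -/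
theorem A_eq (y : List Bool) : A y =
    if unsat EV (rOf y.length) (qOf (rOf y.length)) && decide (Y (rOf y.length) = some y) &&
      long (rOf y.length) y && !betC EV (rOf y.length) y then !Bt (rOf y.length)
    else codeA y := aT_eq (fun _ _ => rfl) le_rfl

theorem aT_eq_A {t : ℕ} {F : ℕ → Option Ev} {y : List Bool}
    (hF : ∀ r' < rOf y.length, F r' = EV r') (ht : 2 ^ y.length ≤ t) : aT t F y = A y := by
  rw [aT_eq hF ht, A_eq]

theorem hT_eq {t : ℕ} {F : ℕ → Option Ev} {r : ℕ} {a : Bool} (hF : ∀ r' < r, F r' = EV r')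
    (ht : 2 ^ LL r ≤ t) : hT t F r a =
    if Small r a || decide (2 ^ (qOf r + 1) ≤ highCount EV r (qOf r)) then !a else a := by
  unfold hT Small
  rw [prefT_W hF ht, highCount_congr hF, smallT_eq ((fuel_W_le r).trans ht)]

/-- The event of stage `r`, in terms of the true objects. -/
def EVf (r : ℕ) : Option Ev :=
    if unsat EV r (qOf r) then
      (match Y r with
        | none => none
        | some y => if long r y then
            some (y, (if betC EV r y then 2 else 1, (A y, Bt r)))
          else some (y, (0, (A y,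
            if Small r (A y) || decide (2 ^ (qOf r + 1) ≤ highCount EV r (qOf r)) then !(A y)
            else A y))))
    else none

theorem rOf_length_Y {r : ℕ} {y : List Bool} (hy : Y r = some y) : rOf y.length ≤ r := by
  have h1 := length_Y hy
  have h2 := h_rOf_le y.length
  have := h_strictMono.lt_iff_lt.1 (h2.trans_lt h1)
  omega

theorem evT_eq {t : ℕ} {F : ℕ → Option Ev} {r : ℕ} (hF : ∀ r' < r, F r' = EV r')
    (ht : 2 ^ ((h r + 1) * LL r) ≤ t)
    (ht' : ∀ y, Y r = some y → long r y = true → 2 ^ y.length ≤ t) : evT t F r = EVf r := by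
  have h1 : LL r ≤ (h r + 1) * LL r := Nat.le_mul_of_pos_left _ (by omega)
  have h2 : 2 ^ LL r ≤ t := (Nat.pow_le_pow_right (by norm_num) h1).trans ht
  have h3 : 2 ^ h r ≤ t :=
    (Nat.pow_le_pow_right (by norm_num) (by have := h_lt_LL r; omega)).trans h2
  unfold evT EVf
  rw [unsat_congr hF, yT_eq h3]
  cases hY : Y r with
  | none => rfl
  | some y =>
    have h4 : ∀ r' < rOf y.length, F r' = EV r' := fun r' hr' =>
      hF r' (by have := rOf_length_Y hY; omega)
    by_cases hl : long r y = true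
    · simp only [hl, if_true]
      rw [betC_congr hF, aT_eq_A h4 (ht' y hY hl), bT_eq hF h2]
    · have h5 : 2 ^ y.length ≤ t := by
        refine le_trans (Nat.pow_le_pow_right (by norm_num) ?_) ht
        unfold long at hl
        rw [decide_eq_true_eq] at hl
        omega
      simp only [hl, Bool.false_eq_true, if_false]
      rw [aT_eq_A h4 h5, hT_eq hF h2]

/-- The bit of `D j` in the event, with a smaller cap. -/
theorem evT_bit {t : ℕ} {F : ℕ → Option Ev} {r : ℕ} (hF : ∀ r' < r, F r' = EV r')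
    (ht : 2 ^ ((h r + 1) * LL r) ≤ t) :
    (evT t F r).map (fun ev => ev.2.2.2) = (EVf r).map (fun ev => ev.2.2.2) := by
  by_cases hl : ∃ y, Y r = some y ∧ long r y = true
  · obtain ⟨y, hY, hl⟩ := hl
    have h1 : LL r ≤ (h r + 1) * LL r := Nat.le_mul_of_pos_left _ (by omega)
    have h2 : 2 ^ LL r ≤ t := (Nat.pow_le_pow_right (by norm_num) h1).trans ht
    have h3 : 2 ^ h r ≤ t :=
      (Nat.pow_le_pow_right (by norm_num) (by have := h_lt_LL r; omega)).trans h2
    unfold evT EVf
    rw [unsat_congr hF, yT_eq h3, hY]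
    simp only [hl, if_true]
    rw [bT_eq hF h2]
    split_ifs <;> rfl
  · rw [evT_eq hF ht fun y hY hy => absurd ⟨y, hY, hy⟩ hl]

theorem length_hist (r : ℕ) : (hist r).length = r := by
  induction r with
  | zero => rfl
  | succ r ih => simp [hist, ih]

theorem hist_succ (r : ℕ) : hist (r + 1) = hist r ++ [EV r] := rfl

theorem hist_getD {r r' : ℕ} (hr : r' < r) : (hist r).getD r' none = EV r' := by
  induction r with
  | zero => omega
  | succ r ih =>
    rw [hist_succ]
    rcases Nat.lt_or_ge r' r with h1 | h1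
    · rw [List.getD_append _ _ _ _ (by rw [length_hist]; exact h1)]
      exact ih h1
    · have : r' = r := by omega
      subst this
      rw [List.getD_append_right _ _ _ _ (by rw [length_hist]), length_hist]
      simp

/-- The events. -/
theorem EV_eq' (r : ℕ) : EV r = EVf r := by
  unfold EV
  refine evT_eq (fun r' hr' => hist_getD hr') (two_pow_LL_le r) fun y hY _ => ?_
  exact (Nat.pow_le_pow_right (by norm_num) (length_Y' hY)).trans (two_pow_lt_h r).le

/-- The events. -/
theorem EV_eq (r : ℕ) : EV r =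
    if unsat EV r (qOf r) then
      (match Y r with
        | none => none
        | some y => if long r y then
            some (y, (if betC EV r y then 2 else 1, (A y, Bt r)))
          else some (y, (0, (A y,
            if Small r (A y) || decide (2 ^ (qOf r + 1) ≤ highCount EV r (qOf r)) then !(A y)
            else A y))))
    else none := by
  rw [EV_eq']
  unfold EVf
  rcases Y r with _ | y
  · rfl
  · rfl

/-! ### Codes of reductions and of strategies -/

theorem poly_le_two_pow (C c : ℕ) : ∃ N, ∀ n, N ≤ n → C * (n ^ c + c) ≤ 2 ^ n := by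
  refine ⟨(c + 1) * (C * ((c + 1) ^ c + c)), fun n hn => ?_⟩
  set m := n / (c + 1) with hm
  have h1 : n < (c + 1) * (m + 1) := by
    have := Nat.lt_mul_div_succ n (show 0 < c + 1 by omega)
    simpa [hm] using this
  have h2 : m + 1 ≤ 2 ^ m := Nat.lt_two_pow_self
  have h3 : n ≤ (c + 1) * 2 ^ m := h1.le.trans (Nat.mul_le_mul_left _ h2)
  have h4 : n ^ c ≤ (c + 1) ^ c * 2 ^ (m * c) := by
    calc n ^ c ≤ ((c + 1) * 2 ^ m) ^ c := Nat.pow_le_pow_left h3 c
      _ = (c + 1) ^ c * 2 ^ (m * c) := by rw [mul_pow, ← pow_mul]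
  have h5 : C * ((c + 1) ^ c + c) ≤ m := by
    rw [hm, Nat.le_div_iff_mul_le (by omega), Nat.mul_comm]
    exact hn
  have h6 : m * (c + 1) ≤ n := Nat.div_mul_le_self n (c + 1)
  have h7 : m ≤ 2 ^ m := by omega
  have h8 : 1 ≤ 2 ^ (m * c) := Nat.one_le_two_pow
  calc C * (n ^ c + c) ≤ C * ((c + 1) ^ c * 2 ^ (m * c) + c * 2 ^ (m * c)) := by
        refine Nat.mul_le_mul_left _ (Nat.add_le_add h4 ?_)
        exact Nat.le_mul_of_pos_right _ h8
    _ = C * ((c + 1) ^ c + c) * 2 ^ (m * c) := by ring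
    _ ≤ 2 ^ m * 2 ^ (m * c) := Nat.mul_le_mul_right _ (h5.trans h7)
    _ = 2 ^ (m * (c + 1)) := by rw [← pow_add]; congr 1; ring
    _ ≤ 2 ^ n := Nat.pow_le_pow_right (by norm_num) h6

/-- Every polynomial-time computable function has a number. -/
theorem exists_i {f : List Bool → List Bool} (hf : ∃ c : ℕ, ComputableIn f fun n => n ^ c + c) :
    ∃ i N : ℕ, (∀ x : List Bool, ∃ t, U (tree i) x t = some (f x)) ∧
      ∀ x : List Bool, N ≤ x.length → U (tree i) x (2 ^ x.length) = some (f x) := by
  obtain ⟨c, M, hfin, ht⟩ := hf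
  obtain ⟨code, C, hC⟩ := exists_code M hfin
  obtain ⟨i, hi⟩ := exists_tree code
  obtain ⟨N, hN⟩ := poly_le_two_pow C c
  refine ⟨i, N, fun x => ⟨C * M.time x.length, ?_⟩, fun x hx => ?_⟩
  · rw [hi]; exact hC x _ le_rfl
  · rw [hi]
    exact hC x _ ((Nat.mul_le_mul_left _ (ht _)).trans (hN _ hx))

theorem log_le_bits (n : ℕ) : Nat.log 2 n ≤ n.bits.length := by
  rw [Nat.size_eq_bits_len]
  rcases Nat.eq_zero_or_pos n with h0 | h0
  · subst h0; simp
  · have h1 : 2 ^ Nat.log 2 n ≤ n := Nat.pow_log_le_self 2 (by omega)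
    by_contra hcon
    push Not at hcon
    have h2 : n < 2 ^ n.size := Nat.lt_size_self n
    have h3 : 2 ^ n.size ≤ 2 ^ Nat.log 2 n := Nat.pow_le_pow_right (by norm_num) hcon.le
    omega

/-- Every strategy of the type considered has a number. -/
theorem exists_j {s : List Bool → ℚ}
    (hs : ∃ k c : ℕ, StrategyIn s fun n => c * 2 ^ (Nat.log 2 n) ^ k + c) :
    ∃ j : ℕ, ∀ w : List Bool, ∃ p q : ℕ, 0 < q ∧ s w = (p : ℚ) / (q : ℚ) ∧
      out j w = some (pairStr p.bits q.bits) := by
  obtain ⟨k, c, p, q, hpq, M, hfin, ht⟩ := hs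
  obtain ⟨code, C, hC⟩ := exists_code M hfin
  obtain ⟨i, hi⟩ := exists_tree code
  set K := k + 1 + 2 * (C * c) with hK
  refine ⟨Nat.pair i K, fun w => ⟨p w, q w, (hpq w).1, (hpq w).2, ?_⟩⟩
  unfold out outT fuel
  rw [Nat.min_self, Nat.unpair_pair, hi]
  refine hC w _ ((Nat.mul_le_mul_left _ (ht _)).trans ?_)
  set n := w.length with hn
  have h1 : (Nat.log 2 n) ^ k ≤ n.bits.length ^ K + 1 := by
    have h2 := log_le_bits n
    rcases Nat.eq_zero_or_pos (n.bits.length) with h3 | h3
    · have h4 : Nat.log 2 n = 0 := by omega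
      rw [h4]
      rcases Nat.eq_zero_or_pos k with h5 | h5
      · subst h5; simp
      · rw [Nat.zero_pow h5]; omega
    · calc (Nat.log 2 n) ^ k ≤ n.bits.length ^ k := Nat.pow_le_pow_left h2 k
        _ ≤ n.bits.length ^ K := Nat.pow_le_pow_right h3 (by omega)
        _ ≤ _ := by omega
  have h6 : 2 * (C * c) ≤ 2 ^ (2 * (C * c)) := Nat.lt_two_pow_self.le
  have h7 : 1 ≤ 2 ^ (Nat.log 2 n) ^ k := Nat.one_le_two_pow
  calc C * (c * 2 ^ (Nat.log 2 n) ^ k + c)
      ≤ C * (c * 2 ^ (Nat.log 2 n) ^ k + c * 2 ^ (Nat.log 2 n) ^ k) :=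
        Nat.mul_le_mul_left _ (Nat.add_le_add_left (Nat.le_mul_of_pos_right _ h7) _)
    _ = 2 * (C * c) * 2 ^ (Nat.log 2 n) ^ k := by ring
    _ ≤ 2 ^ (2 * (C * c)) * 2 ^ (n.bits.length ^ K + 1) :=
        Nat.mul_le_mul h6 (Nat.pow_le_pow_right (by norm_num) h1)
    _ = 2 ^ (2 * (C * c) + (n.bits.length ^ K + 1)) := by rw [← pow_add]
    _ ≤ 2 ^ (n.bits.length ^ K + K) := Nat.pow_le_pow_right (by norm_num) (by omega)

end Pool.Agent.Lib.MP_7fc3ed_lc
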