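import Pool.Agent.Lib.MP_7fc3ed_lc.Facts
import Mathlib.Tactic

/-!
# The capital of the reserved-capital martingale
-/

namespace Pool.Agent.Lib.MP_7fc3ed_lc

open Pool.Agent.PolyTime Function

attribute [local irreducible] h rOf unpairStr tree U qOf iOf jOf ones dec cd
  unsat highCount betCount thr betC fuel outT nbT smallT lg isSpec bitT prefT yT codeT bT long
  aT hT evT ble badd shl str idx zs hist EV A Bt Y LL

/-- The bet of an event: the set, the string and the bit. -/
def bI (o : Option Ev) : Option (ℕ × (List Bool × Bool)) := match o with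
  | none => none
  | some ev => if ev.2.1 = 2 then (match dec ev.1 with
      | none => none
      | some c => some (c.1, (c.2, ev.2.2.2))) else none

/-- Description of the bets. -/
theorem bI_EV {r e : ℕ} {x : List Bool} {d : Bool} (hb : bI (EV r) = some (e, (x, d))) :
    EV r = some (cd e x, (2, (A (cd e x), Bt r))) ∧ d = Bt r ∧ Y r = some (cd e x) ∧
      unsat EV r (qOf r) = true ∧ long r (cd e x) = true ∧ betC EV r (cd e x) = true := by
  have hE := EV_eq r
  by_cases hu : unsat EV r (qOf r) = true
  · rw [if_pos hu] at hE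
    cases hY : Y r with
    | none => rw [hY] at hE; simp only at hE; rw [hE] at hb; simp [bI] at hb
    | some y =>
      rw [hY] at hE
      simp only at hE
      by_cases hl : long r y = true
      · rw [if_pos hl] at hE
        by_cases hc : betC EV r y = true
        · rw [if_pos hc] at hE
          rw [hE] at hb
          simp only [bI, if_true] at hb
          cases hd : dec y with
          | none => rw [hd] at hb; simp at hb
          | some c =>
            rw [hd] at hb
            simp only [Option.some.injEq, Prod.mk.injEq] at hb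
            obtain ⟨h1, h2, h3⟩ := hb
            have h4 : y = cd e x := by
              apply dec_eq_some.1
              rw [hd, ← h1, ← h2]
            subst h4
            exact ⟨hE, h3.symm, rfl, hu, hl, hc⟩
        · rw [if_neg hc] at hE
          rw [hE] at hb
          simp [bI] at hb
      · rw [if_neg hl] at hE
        rw [hE] at hb
        simp [bI] at hb
  · rw [if_neg hu] at hE
    rw [hE] at hb
    simp [bI] at hb

theorem betC_cd {r e : ℕ} {x : List Bool} : betC EV r (cd e x) =
    (decide (e < qOf r) && decide (betCount EV r e (qOf r) < thr e (qOf r))) := by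
  unfold betC
  rw [dec_eq_some.2 rfl]

theorem bI_lt {r e : ℕ} {x : List Bool} {d : Bool} (hb : bI (EV r) = some (e, (x, d))) :
    e < qOf r ∧ betCount EV r e (qOf r) < thr e (qOf r) := by
  have h1 := (bI_EV hb).2.2.2.2.2
  rw [betC_cd, Bool.and_eq_true, decide_eq_true_eq, decide_eq_true_eq] at h1
  exact h1

theorem long_iff (r : ℕ) (y : List Bool) : long r y = true ↔ (h r + 1) * LL r ≤ y.length := by
  unfold long
  rw [decide_eq_true_eq]

theorem bI_len {r e : ℕ} {x : List Bool} {d : Bool} (hb : bI (EV r) = some (e, (x, d))) :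
    LL r ≤ x.length + 1 ∧ h r < x.length ∧ x.length < h (r + 1) := by
  obtain ⟨-, -, h3, -, h5, -⟩ := bI_EV hb
  have h6 := (bI_lt hb).1
  rw [long_iff, length_cd] at h5
  have h7 : e + 1 ≤ h r + 1 := by
    have := qOf_le r
    have := le_h r
    omega
  have h8 : LL r ≤ x.length + 1 := by
    by_contra hcon
    push Not at hcon
    have h9 := Nat.mul_le_mul_right (x.length + 1) h7
    have h10 := (Nat.mul_lt_mul_left (show 0 < h r + 1 by omega)).2 hcon
    omega
  have h9 := h_lt_LL r
  have h10 := length_Y h3
  rw [length_cd] at h10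
  refine ⟨h8, by omega, ?_⟩
  have : x.length + 1 ≤ (e + 1) * (x.length + 1) := Nat.le_mul_of_pos_left _ (by omega)
  omega

theorem bI_rOf {r e : ℕ} {x : List Bool} {d : Bool} (hb : bI (EV r) = some (e, (x, d))) :
    rOf x.length = r := by
  obtain ⟨-, h1, h2⟩ := bI_len hb
  exact rOf_eq h1.le h2

theorem betsOn_iff (r e : ℕ) : betsOn (EV r) e = true ↔ ∃ x d, bI (EV r) = some (e, (x, d)) := by
  cases hE : EV r with
  | none => simp [betsOn, bI]
  | some ev =>
    simp only [betsOn, bI, Bool.and_eq_true, decide_eq_true_eq]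
    cases hd : dec ev.1 with
    | none => simp
    | some c =>
      simp only [decide_eq_true_eq]
      constructor
      · rintro ⟨h1, h2⟩
        rw [if_pos h1]
        exact ⟨c.2, ev.2.2.2, by rw [h2]⟩
      · rintro ⟨x, d, h1⟩
        split_ifs at h1 with h2
        simp only [Option.some.injEq, Prod.mk.injEq] at h1
        exact ⟨h2, h1.1⟩

theorem betCount_zero (F : ℕ → Option Ev) (e q : ℕ) : betCount F 0 e q = 0 := by
  unfold betCount; rfl

theorem betCount_succ_bets (F : ℕ → Option Ev) (r e q : ℕ) : betCount F (r + 1) e q =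
    betCount F r e q + if decide (qOf r = q) && betsOn (F r) e then 1 else 0 := by
  unfold betCount
  rw [List.range_succ, List.filter_append, List.length_append]
  congr 1
  simp only [List.filter_cons, List.filter_nil]
  split_ifs <;> rfl

theorem betCount_le (r e q : ℕ) : betCount EV r e q ≤ thr e q := by
  induction r with
  | zero => rw [betCount_zero]; exact Nat.zero_le _
  | succ r ih =>
    rw [betCount_succ_bets]
    split_ifs with hc
    · rw [Bool.and_eq_true, decide_eq_true_eq] at hc
      obtain ⟨x, d, hb⟩ := (betsOn_iff r e).1 hc.2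
      have := (bI_lt hb).2
      rw [hc.1] at this
      omega
    · exact ih

/-- All bets on the set `e` for the requirement `q` before stage `r` are won on `X`. -/
def Won (X : Lang) (r e q : ℕ) : Prop :=
  ∀ r' < r, qOf r' = q → ∀ x d, bI (EV r') = some (e, (x, d)) → X x = d

open Classical in
/-- The capital of the chain of the set `e` and the requirement `q`. -/
noncomputable def kap (X : Lang) (r e q : ℕ) : ℚ :=
  if Won X r e q then 2 ^ betCount EV r e q / 2 ^ (Nat.pair e q + 1) else 0

/-- The gain at stage `r`. -/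
noncomputable def del (X : Lang) (r : ℕ) : ℚ := match bI (EV r) with
  | none => 0
  | some b => if X b.2.1 = b.2.2 then kap X r b.1 (qOf r) else - kap X r b.1 (qOf r)

/-- The total capital before stage `r`. -/
noncomputable def Val (X : Lang) : ℕ → ℚ
  | 0 => 1
  | r + 1 => Val X r + del X r

theorem kap_nonneg (X : Lang) (r e q : ℕ) : 0 ≤ kap X r e q := by
  unfold kap
  split_ifs <;> positivity

theorem kap_zero (X : Lang) (e q : ℕ) : kap X 0 e q = 1 / 2 ^ (Nat.pair e q + 1) := by
  have hw : Won X 0 e q := fun r' hr' => absurd hr' (Nat.not_lt_zero _)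
  unfold kap
  rw [if_pos hw, betCount_zero, pow_zero]

theorem kap_succ_of_not {X : Lang} {r e q : ℕ}
    (hn : ¬ (qOf r = q ∧ ∃ x d, bI (EV r) = some (e, (x, d)))) :
    kap X (r + 1) e q = kap X r e q := by
  have h1 : betCount EV (r + 1) e q = betCount EV r e q := by
    rw [betCount_succ_bets, if_neg, Nat.add_zero]
    rw [Bool.and_eq_true, decide_eq_true_eq, betsOn_iff]
    exact hn
  have h2 : Won X (r + 1) e q ↔ Won X r e q := by
    constructor
    · intro h3 r' hr'
      exact h3 r' (by omega)
    · intro h3 r' hr' hq x d hb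
      rcases Nat.lt_or_ge r' r with h4 | h4
      · exact h3 r' h4 hq x d hb
      · have : r' = r := by omega
        subst this
        exact absurd ⟨hq, x, d, hb⟩ hn
  unfold kap
  rw [h1]
  by_cases h3 : Won X r e q
  · rw [if_pos h3, if_pos (h2.2 h3)]
  · rw [if_neg h3, if_neg (fun h4 => h3 (h2.1 h4))]

theorem kap_succ_of {X : Lang} {r e : ℕ} {x : List Bool} {d : Bool}
    (hb : bI (EV r) = some (e, (x, d))) :
    kap X (r + 1) e (qOf r) = kap X r e (qOf r) + del X r := by
  have h1 : betCount EV (r + 1) e (qOf r) = betCount EV r e (qOf r) + 1 := by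
    rw [betCount_succ_bets, if_pos]
    rw [Bool.and_eq_true, decide_eq_true_eq, betsOn_iff]
    exact ⟨rfl, x, d, hb⟩
  have h2 : Won X (r + 1) e (qOf r) ↔ Won X r e (qOf r) ∧ X x = d := by
    constructor
    · intro h3
      exact ⟨fun r' hr' => h3 r' (by omega), h3 r (by omega) rfl x d hb⟩
    · rintro ⟨h3, h3'⟩ r' hr' hq x' d' hb'
      rcases Nat.lt_or_ge r' r with h4 | h4
      · exact h3 r' h4 hq x' d' hb'
      · have : r' = r := by omega
        subst this
        rw [hb] at hb'
        simp only [Option.some.injEq, Prod.mk.injEq, true_and] at hb'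
        rw [← hb'.1, ← hb'.2, h3']
  unfold del
  rw [hb]
  simp only
  unfold kap
  rw [h1]
  by_cases h3 : Won X r e (qOf r)
  · by_cases h4 : X x = d
    · rw [if_pos h3, if_pos (h2.2 ⟨h3, h4⟩), if_pos h4, pow_succ]
      ring
    · rw [if_pos h3, if_neg (fun h5 => h4 (h2.1 h5).2), if_neg h4]
      ring
  · rw [if_neg h3, if_neg (fun h5 => h3 (h2.1 h5).1)]
    split_ifs <;> ring

theorem geom (P : ℕ) : ∑ p ∈ Finset.range P, (1 : ℚ) / 2 ^ (p + 1) = 1 - 1 / 2 ^ P := by
  induction P with
  | zero => simp
  | succ P ih =>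
    rw [Finset.sum_range_succ, ih, pow_succ]
    ring

theorem pair_lt {e q r P : ℕ} (he : e < q) (hq : q ≤ r) (hP : (r + 1) ^ 2 ≤ P) :
    Nat.pair e q < P := by
  have h1 := Nat.pair_lt_max_add_one_sq e q
  have h2 : (max e q + 1) ^ 2 ≤ (r + 1) ^ 2 := Nat.pow_le_pow_left (by omega) 2
  omega

/-- The total capital is the sum of the capitals of the chains. -/
theorem Val_eq (X : Lang) (P : ℕ) : ∀ r, (∀ r' < r, (r' + 1) ^ 2 ≤ P) →
    Val X r = 1 / 2 ^ P +
      ∑ p ∈ Finset.range P, kap X r (Nat.unpair p).1 (Nat.unpair p).2 := by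
  intro r
  induction r with
  | zero =>
    intro _
    simp only [Val, kap_zero, Nat.pair_unpair]
    rw [geom]
    ring
  | succ r ih =>
    intro hP
    rw [Val, ih fun r' hr' => hP r' (by omega), add_assoc]
    congr 1
    cases hb : bI (EV r) with
    | none =>
      have h1 : del X r = 0 := by unfold del; rw [hb]
      rw [h1, add_zero]
      refine Finset.sum_congr rfl fun p _ => ?_
      rw [kap_succ_of_not]
      rintro ⟨-, x, d, h2⟩
      rw [hb] at h2
      simp at h2
    | some b =>
      obtain ⟨e, x, d⟩ := b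
      have h1 : Nat.pair e (qOf r) < P :=
        pair_lt (bI_lt hb).1 (qOf_le r) (hP r (by omega))
      have h2 : ∀ p ∈ Finset.range P, kap X (r + 1) (Nat.unpair p).1 (Nat.unpair p).2 =
          kap X r (Nat.unpair p).1 (Nat.unpair p).2 +
            if p = Nat.pair e (qOf r) then del X r else 0 := by
        intro p _
        split_ifs with h3
        · rw [h3, Nat.unpair_pair]
          exact kap_succ_of hb
        · rw [add_zero, kap_succ_of_not]
          rintro ⟨h4, x', d', h5⟩
          rw [hb] at h5
          simp only [Option.some.injEq, Prod.mk.injEq] at h5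
          apply h3
          rw [h5.1, h4, Nat.pair_unpair]
      rw [Finset.sum_congr rfl h2, Finset.sum_add_distrib, Finset.sum_ite_eq' (Finset.range P),
        if_pos (Finset.mem_range.2 h1)]

theorem sq_mono {r r' P : ℕ} (hP : (r + 1) ^ 2 ≤ P) (hr : r' < r) : (r' + 1) ^ 2 ≤ P :=
  (Nat.pow_le_pow_left (by omega) 2).trans hP

theorem Val_pos (X : Lang) (r : ℕ) : 0 < Val X r := by
  rw [Val_eq X ((r + 1) ^ 2) r fun r' hr' => sq_mono le_rfl hr']
  have h1 : 0 ≤ ∑ p ∈ Finset.range ((r + 1) ^ 2),
      kap X r (Nat.unpair p).1 (Nat.unpair p).2 :=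
    Finset.sum_nonneg fun p _ => kap_nonneg _ _ _ _
  positivity

theorem kap_le_Val (X : Lang) (r e q : ℕ) : kap X r e q ≤ Val X r := by
  have hP : (r + 1) ^ 2 ≤ (r + 1) ^ 2 + (Nat.pair e q + 1) := by omega
  rw [Val_eq X ((r + 1) ^ 2 + (Nat.pair e q + 1)) r fun r' hr' => sq_mono hP hr']
  have h1 : kap X r e q ≤ ∑ p ∈ Finset.range ((r + 1) ^ 2 + (Nat.pair e q + 1)),
      kap X r (Nat.unpair p).1 (Nat.unpair p).2 := by
    have h2 := Finset.single_le_sum (f := fun p => kap X r (Nat.unpair p).1 (Nat.unpair p).2)
      (fun p _ => kap_nonneg _ _ _ _)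
      (Finset.mem_range.2 (show Nat.pair e q < (r + 1) ^ 2 + (Nat.pair e q + 1) by omega))
    simpa only [Nat.unpair_pair] using h2
  have h3 : (0 : ℚ) ≤ 1 / 2 ^ ((r + 1) ^ 2 + (Nat.pair e q + 1)) := by positivity
  linarith

/-! ### The strategy -/

/-- The bit of a word at the index of a string. -/
def bitAt (w x : List Bool) : Bool := w.getD (cidx x w.length) false

/-- All bets on `e` for `q` before stage `r` are won on the word `w`. -/
def wonW (w : List Bool) (F : ℕ → Option Ev) (r e q : ℕ) : Bool :=
  (List.range r).all fun r' => !(decide (qOf r' = q)) || (match bI (F r') with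
    | none => true
    | some b => !(decide (b.1 = e)) || decide (bitAt w b.2.1 = b.2.2))

/-- The capital of a chain, times `2 ^ P`. -/
def kapN (w : List Bool) (F : ℕ → Option Ev) (P r e q : ℕ) : ℕ :=
  if wonW w F r e q then 2 ^ (P - (Nat.pair e q + 1) + betCount F r e q) else 0

/-- The total capital, times `2 ^ P`. -/
def valN (w : List Bool) (F : ℕ → Option Ev) (P r : ℕ) : ℕ :=
  1 + ((List.range P).map fun p => kapN w F P r (Nat.unpair p).1 (Nat.unpair p).2).sum

/-- The bet at the string `x` in stage `r`. -/
def sBet (t : ℕ) (F : ℕ → Option Ev) (r : ℕ) (x : List Bool) : Option (ℕ × Bool) :=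
  match yT t r with
  | none => none
  | some y => match dec y with
    | none => none
    | some c => if unsat F r (qOf r) && long r y && betC F r y && decide (c.2 = x) then
        some (c.1, bT t F r) else none

/-- Numerator and denominator of the value of the strategy. -/
def frac (w : List Bool) (F : ℕ → Option Ev) (P r : ℕ) (o : Option (ℕ × Bool)) : ℕ × ℕ :=
  match o with
  | none => (1, 2)
  | some c => if c.2 then (valN w F P r - kapN w F P r c.1 (qOf r), 2 * valN w F P r)
      else (valN w F P r + kapN w F P r c.1 (qOf r), 2 * valN w F P r)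

/-- The strategy as a pair of numbers. -/
def stratN (w : List Bool) : ℕ × ℕ :=
  frac w EV ((rOf (str w.length).length + 1) ^ 2) (rOf (str w.length).length)
    (sBet (2 * w.length + 2) EV (rOf (str w.length).length) (str w.length))

/-- The strategy. -/
def strat (w : List Bool) : ℚ := ((stratN w).1 : ℚ) / ((stratN w).2 : ℚ)

theorem wonW_iff {X : Lang} {N r e q : ℕ}
    (hN : ∀ r' < r, ∀ e x d, bI (EV r') = some (e, (x, d)) → idx x < N) :
    wonW (charPrefix X N) EV r e q = true ↔ Won X r e q := by
  have hbit : ∀ x, idx x < N → bitAt (charPrefix X N) x = X x := by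
    intro x hx
    have hl : (charPrefix X N).length = N := by simp [charPrefix]
    unfold bitAt
    rw [cidx_def, hl, Nat.min_eq_left hx.le, List.getD_eq_getElem _ _ (by rw [hl]; exact hx)]
    simp [charPrefix, str_idx]
  unfold wonW Won
  rw [List.all_eq_true]
  constructor
  · intro h1 r' hr' hq x d hb
    have h2 := h1 r' (List.mem_range.2 hr')
    rw [hb] at h2
    simp only [hq, decide_true, Bool.not_true, Bool.false_or, decide_eq_true_eq] at h2
    rw [← h2, hbit x (hN r' hr' e x d hb)]
  · intro h1 r' hr'
    rw [List.mem_range] at hr'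
    by_cases hq : qOf r' = q
    · cases hb : bI (EV r') with
      | none => simp
      | some b =>
        obtain ⟨e', x, d⟩ := b
        simp only [hq, decide_true, Bool.not_true, Bool.false_or]
        by_cases he : e' = e
        · subst he
          have h2 := h1 r' hr' hq x d hb
          rw [hbit x (hN r' hr' e' x d hb), h2]
          simp
        · simp [he]
    · simp [hq]

theorem kapN_eq {X : Lang} {N P r e q : ℕ}
    (hN : ∀ r' < r, ∀ e x d, bI (EV r') = some (e, (x, d)) → idx x < N)
    (hP : Nat.pair e q < P) :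
    (kapN (charPrefix X N) EV P r e q : ℚ) = 2 ^ P * kap X r e q := by
  unfold kapN kap
  by_cases h1 : Won X r e q
  · rw [if_pos ((wonW_iff hN).2 h1), if_pos h1]
    push_cast
    obtain ⟨m, hm⟩ : ∃ m, P = m + (Nat.pair e q + 1) := ⟨P - (Nat.pair e q + 1), by omega⟩
    have h2 : P - (Nat.pair e q + 1) = m := by omega
    rw [h2, pow_add]
    conv_rhs => rw [hm, pow_add]
    have h3 : (2 : ℚ) ^ (Nat.pair e q + 1) ≠ 0 := by positivity
    field_simp
  · rw [if_neg (fun h2 => h1 ((wonW_iff hN).1 h2)), if_neg h1]
    simp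

theorem sum_map_range (f : ℕ → ℕ) (P : ℕ) :
    ((List.range P).map f).sum = ∑ p ∈ Finset.range P, f p := by
  induction P with
  | zero => rfl
  | succ P ih =>
    rw [List.range_succ, List.map_append, List.sum_append, ih, Finset.sum_range_succ]
    simp

theorem valN_eq {X : Lang} {N P r : ℕ}
    (hN : ∀ r' < r, ∀ e x d, bI (EV r') = some (e, (x, d)) → idx x < N)
    (hP : ∀ r' < r, (r' + 1) ^ 2 ≤ P) :
    (valN (charPrefix X N) EV P r : ℚ) = 2 ^ P * Val X r := by
  rw [Val_eq X P r hP]
  unfold valN
  rw [sum_map_range]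
  push_cast
  rw [mul_add, Finset.mul_sum]
  congr 1
  · have : (2 : ℚ) ^ P ≠ 0 := by positivity
    field_simp
  · refine Finset.sum_congr rfl fun p hp => ?_
    rw [Finset.mem_range] at hp
    exact kapN_eq hN (by rwa [Nat.pair_unpair])

end Pool.Agent.Lib.MP_7fc3ed_lc
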