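import Pool.Agent.Lib.MP_7fc3ed_lc.ConstrPT
import Pool.Agent.Lib.MP_7fc3ed_lc.Raw

/-!
# `A` is in `E` and the sets `D j` are in `EXP`
-/

namespace Pool.Agent.Lib.MP_7fc3ed_lc

open Pool.Agent.PolyTime Function

variable {α β γ δ σ : Type*} [Rep α] [Rep β] [Rep γ] [Rep δ] [Rep σ]

theorem hist_zero : hist 0 = [] := rfl

theorem h_zero : h 0 = 0 := rfl

attribute [local irreducible] h rOf unpairStr tree U qOf iOf jOf ones dec cd okEv kindIs betsOn
  unsat highCount betCount thr betC fuel outT nbT smallT lg isSpec bitT prefT yT codeT bT long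
  aT hT evT ble badd shl str idx zs hist EV

/-- The events before stage `n` that can be computed within the budget `t`. -/
def histR (t n : ℕ) : List (Option Ev) :=
  Nat.rec (motive := fun _ => List (Option Ev)) []
    (fun r H => if h (r + 1) ≤ t then H ++ [evT t (gF H) (if h (r + 1) ≤ t then r else 0)]
      else H) n

theorem histR_succ (t n : ℕ) : histR t (n + 1) =
    if h (n + 1) ≤ t then histR t n ++ [evT t (gF (histR t n)) (if h (n + 1) ≤ t then n else 0)]
      else histR t n := rfl

theorem gF_hist {r r' : ℕ} (hr : r' < r) : gF (hist r) r' = EV r' := hist_getD hr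

theorem h_le_iff {r t : ℕ} : h r ≤ t ↔ r ≤ rOf t := by
  constructor
  · intro h1
    have h2 := lt_h_rOf t
    have := h_strictMono.lt_iff_lt.1 (h1.trans_lt h2)
    omega
  · intro h1
    exact (h_strictMono.monotone h1).trans (h_rOf_le t)

theorem histR_eq (t n : ℕ) : histR t n = hist (min n (rOf t)) := by
  induction n with
  | zero =>
    rw [Nat.zero_min]
    exact hist_zero.symm
  | succ n ih =>
    rw [histR_succ, ih]
    by_cases h1 : h (n + 1) ≤ t
    · have h2 : n + 1 ≤ rOf t := h_le_iff.1 h1
      have h3 : evT t (gF (hist n)) n = EV n := by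
        rw [EV_eq']
        refine evT_eq (fun r' hr' => gF_hist hr') ((two_pow_LL_le n).trans h1) fun y hY _ => ?_
        exact ((Nat.pow_le_pow_right (by norm_num) (length_Y' hY)).trans
          (two_pow_lt_h n).le).trans h1
      rw [if_pos h1, if_pos h1, Nat.min_eq_left h2, Nat.min_eq_left (by omega), hist_succ, h3]
    · have h2 : ¬ n + 1 ≤ rOf t := fun h3 => h1 (h_le_iff.2 h3)
      rw [if_neg h1]
      congr 1
      omega

theorem sz_EV_le {r t : ℕ} (hr : h (r + 1) ≤ t) : sz (EV r) ≤ 4 * t + 30 := by
  have key : ∀ (y : List Bool) (k : ℕ) (a d : Bool), Y r = some y → k ≤ 2 →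
      sz (some ((y, (k, (a, d))) : Ev)) ≤ 4 * t + 30 := by
    intro y k a d hY hk
    have h1 := (length_Y hY).le.trans hr
    have h2 := sz_listBool y
    have h3 := sz_bool a
    have h4 := sz_bool d
    simp only [sz_some, sz_pair, sz_nat]
    omega
  rw [EV_eq]
  cases hY : Y r with
  | none => split_ifs <;> simp
  | some y =>
    simp only
    split_ifs
    all_goals first | exact key _ _ _ _ hY (by omega) | (simp only [sz_none]; omega)

theorem sz_hist_le {n t : ℕ} (hn : n ≤ rOf t) : sz (hist n) ≤ t * (4 * t + 31) + 1 := by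
  have h1 : ∀ o ∈ hist n, sz o ≤ 4 * t + 30 := by
    intro o ho
    obtain ⟨i, hi, rfl⟩ := List.getElem_of_mem ho
    rw [length_hist] at hi
    have h2 := hist_getD hi
    rw [List.getD_eq_getElem _ _ (by rw [length_hist]; exact hi)] at h2
    rw [h2]
    exact sz_EV_le (h_le_iff.2 (by omega))
  have h3 := sz_le_of_forall _ _ h1
  rw [length_hist] at h3
  have h4 : n ≤ t := hn.trans ((le_h _).trans (h_rOf_le t))
  exact h3.trans (Nat.add_le_add_right (Nat.mul_le_mul_right (4 * t + 31) h4) 1)

theorem pt_hist {t : α → ℕ} (ht : PT t) : PT (fun a => hist (rOf (t a))) := by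
  have h1 : PT (fun p : α × (ℕ × List (Option Ev)) => decide (h (p.2.1 + 1) ≤ t p.1)) := by
    have h2 : PT (fun p : α × (ℕ × List (Option Ev)) =>
      decide (ch (p.2.1 + 1) (t p.1 + 1) ≤ t p.1)) := by fun_prop
    refine h2.congr fun p => ?_
    rw [decide_eq_decide, ch_def]
    omega
  have h3 : PT (fun p : α × (ℕ × List (Option Ev)) =>
      if h (p.2.1 + 1) ≤ t p.1 then p.2.1 else 0) :=
    PT.iteProp h1 PT.id.snd.fst (PT.const 0)
  have h4 : PT (fun p : α × (ℕ × List (Option Ev)) => evT (t p.1) (gF p.2.2)
      (if h (p.2.1 + 1) ≤ t p.1 then p.2.1 else 0)) := by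
    refine pt_evT (ht.comp PT.id.fst) PT.id.snd.snd h3 (ht.comp PT.id.fst) fun p => ?_
    split_ifs with h5
    · exact (h_lt _).le.trans h5
    · rw [h_zero]; exact Nat.zero_le _
  refine (PT.natRec (n := t) (f := fun _ => ([] : List (Option Ev)))
    (g := fun a r H => if h (r + 1) ≤ t a then
      H ++ [evT (t a) (gF H) (if h (r + 1) ≤ t a then r else 0)] else H) ht (PT.const [])
    (PT.iteProp h1 (PT.append PT.id.snd.snd (PT.cons h4 (PT.const []))) PT.id.snd.snd)
    (B := fun a => t a * (4 * t a + 31) + 1)
    (((bdd_nat ht).mul (((Bdd.const 4).mul (bdd_nat ht)).add (Bdd.const 31))).add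
      (Bdd.const 1)) ?_).congr fun a => ?_
  · intro a m _
    change sz (histR (t a) m) ≤ _
    rw [histR_eq]
    exact sz_hist_le (by omega)
  · change histR (t a) (t a) = _
    rw [histR_eq]
    congr 1
    have : rOf (t a) ≤ t a := (le_h _).trans (h_rOf_le _)
    omega

attribute [fun_prop] pt_hist

/-- `A` is in `E`. -/
theorem A_mem : A ∈ ClassE := by
  refine mem_ClassE (f := fun p => aT p.2 (gF (hist (rOf p.1.length))) p.1) (by fun_prop) 1
    fun x => ?_
  symm
  refine aT_eq_A (fun r' hr' => gF_hist hr') ?_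
  change 2 ^ x.length ≤ 2 ^ (1 * x.length + 1)
  exact Nat.pow_le_pow_right (by norm_num) (by omega)

/-- The bits of `D j` as a polynomial-time function. -/
theorem D_mem (j : ℕ) : D j ∈ ClassEXP := by
  set k := (Nat.unpair j).2 with hk
  -- the list of events
  let G : List Bool × ℕ → List (Option Ev) := fun p =>
    hist (rOf p.1.length) ++ [if jOf (qOf (rOf p.1.length)) = j then
      evT p.2 (gF (hist (rOf p.1.length))) (rOf p.1.length) else none]
  have hG : PT G := by
    have h1 : PT (fun p : List Bool × ℕ =>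
        evT p.2 (gF (hist (rOf p.1.length))) (rOf p.1.length)) :=
      pt_evT PT.id.snd (by fun_prop) (by fun_prop) (b := fun p => p.1.length) (by fun_prop)
        fun p => h_rOf_le _
    have h2 : PT (fun p : List Bool × ℕ => decide (jOf (qOf (rOf p.1.length)) = j)) := by
      fun_prop
    exact PT.append (by fun_prop) (PT.cons (PT.iteProp h2 h1 (PT.const none)) (PT.const []))
  have hf : PT (fun p : List Bool × ℕ => bitT p.2 (gF (G p)) (rOf p.1.length + 1) j
      (cidx p.1 p.2) (prefT p.2 (gF (G p)) (rOf p.1.length + 1) j (cidx p.1 p.2))) := by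
    have h3 : PT (fun p : List Bool × ℕ =>
      prefT p.2 (gF (G p)) (rOf p.1.length + 1) j (cidx p.1 p.2)) :=
      pt_prefT PT.id.snd hG (by fun_prop) (PT.const j) (by fun_prop)
    exact pt_bitT PT.id.snd hG (by fun_prop) (PT.const j) (by fun_prop) h3
  refine mem_ClassEXP hf ((Polynomial.X + 3) ^ (k + 3)) ?_ fun x => ?_
  · have h4 : ∀ e : ℕ, PT (fun x : List Bool => (x.length + 3) ^ e) := by
      intro e
      induction e with
      | zero => simpa using (PT.const 1 : PT fun _ : List Bool => 1)
      | succ e ih =>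
        simp only [pow_succ]
        exact PT.mul ih (by fun_prop)
    refine (h4 (k + 3)).congr fun x => ?_
    simp
  · have e1 : Polynomial.eval x.length ((Polynomial.X + 3) ^ (k + 3)) =
        (x.length + 3) ^ (k + 3) := by simp
    rw [e1]
    simp only
    set m := x.length with hm
    set r := rOf m with hr
    set t := 2 ^ ((m + 3) ^ (k + 3)) with ht
    have hcb := code1_bounds x
    rw [← idx_succ, ← hm] at hcb
    have h5 : m + 1 ≤ (m + 3) ^ (k + 3) := by
      have : m + 3 ≤ (m + 3) ^ (k + 3) := Nat.le_self_pow (by omega) _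
      omega
    have h6 : 2 ^ (m + 1) ≤ t := Nat.pow_le_pow_right (by norm_num) h5
    have h7 : cidx x t = idx x := by rw [cidx_def]; omega
    have h8 : ∀ w : List Bool, w.length < 2 ^ (m + 1) → fuel j w ≤ t := by
      intro w hw
      refine (fuel_le hw).trans (Nat.pow_le_pow_right (by norm_num) ?_)
      rw [← hk]
      exact Nat.pow_le_pow_right (by omega) (by omega)
    have h9 : ∀ r' < r + 1, jOf (qOf r') = j →
        (gF (G (x, t)) r').map (fun ev => ev.2.2.2) = (EV r').map (fun ev => ev.2.2.2) := by
      intro r' hr' hj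
      rcases Nat.lt_or_ge r' r with h10 | h10
      · have : gF (G (x, t)) r' = EV r' := by
          unfold gF
          simp only [G]
          rw [← hm, ← hr, List.getD_append _ _ _ _ (by rw [length_hist]; exact h10)]
          exact hist_getD h10
        rw [this]
      · have hrr : r' = r := by omega
        rw [hrr] at hj ⊢
        have : gF (G (x, t)) r = evT t (gF (hist r)) r := by
          unfold gF
          simp only [G]
          rw [← hm, ← hr, List.getD_append_right _ _ _ _ (by rw [length_hist]), length_hist,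
            Nat.sub_self]
          simp only [List.getD_cons_zero]
          rw [if_pos hj]
          rfl
        rw [this, EV_eq']
        refine evT_bit (fun r' hr' => gF_hist hr') ?_
        refine Nat.pow_le_pow_right (by norm_num) ?_
        unfold LL
        rw [hj, ← hk]
        have h11 : h r ≤ m := h_rOf_le m
        calc (h r + 1) * (h r + 2) ^ (k + 2) ≤ (m + 3) * (m + 3) ^ (k + 2) :=
              Nat.mul_le_mul (by omega) (Nat.pow_le_pow_left (by omega) _)
          _ = (m + 3) ^ (k + 3) := by ring
    have h12 : idx x < 2 ^ h (r + 1) - 1 := by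
      have h13 : m + 1 ≤ h (r + 1) := lt_h_rOf m
      have h14 : 2 ^ (m + 1) ≤ 2 ^ h (r + 1) := Nat.pow_le_pow_right (by norm_num) h13
      omega
    rw [h7, prefT_eq h9 h12.le fun m' hm' => h8 _ (by rw [length_DD]; omega),
      bitT_eq h9 h12 (h8 _ (by rw [length_DD]; omega)), ← D_str', str_idx]

end Pool.Agent.Lib.MP_7fc3ed_lc
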