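import Pool.Agent.Lib.MP_7fc3ed_lc.Facts
import Mathlib.Tactic

/-!
# The diagonal sets are not reducible to `A`
-/

set_option autoImplicit false

namespace Pool.Agent.Lib.MP_7fc3ed_lc

open Pool.Agent.PolyTime Function

theorem betCount_succ (F : ℕ → Option Ev) (r e q : ℕ) :
    betCount F (r + 1) e q = betCount F r e q +
      (if decide (qOf r = q) && betsOn (F r) e then 1 else 0) := by
  unfold betCount
  rw [List.range_succ, List.filter_append, List.length_append]
  congr 1
  cases hc : (decide (qOf r = q) && betsOn (F r) e)
  · simp [List.filter, hc]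
  · simp [List.filter, hc]

theorem highCount_succ' (F : ℕ → Option Ev) (r q : ℕ) :
    highCount F (r + 1) q = highCount F r q +
      (if decide (qOf r = q) && kindIs (F r) 0 then 1 else 0) := by
  unfold highCount
  rw [List.range_succ, List.filter_append, List.length_append]
  congr 1
  cases hc : (decide (qOf r = q) && kindIs (F r) 0)
  · simp [List.filter, hc]
  · simp [List.filter, hc]

theorem okEv_mk (y : List Bool) (k : ℕ) (a d : Bool) :
    okEv (some (y, (k, (a, d)))) = decide (a = d) := rfl

/-- The number of stages for `q` so far, bounded. -/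
def Phi (r q : ℕ) : ℕ :=
  min (highCount EV r q) (2 ^ (q + 1)) + ∑ e ∈ Finset.range q, min (betCount EV r e q) (thr e q)

theorem Phi_le (r q : ℕ) : Phi r q ≤ 2 ^ (q + 1) + ∑ e ∈ Finset.range q, thr e q :=
  add_le_add (min_le_right _ _) (Finset.sum_le_sum fun _ _ => min_le_right _ _)

theorem Phi_le_succ (r q : ℕ) : Phi r q ≤ Phi (r + 1) q := by
  unfold Phi
  apply add_le_add
  · exact min_le_min_right _ (by rw [highCount_succ']; exact Nat.le_add_right _ _)
  · exact Finset.sum_le_sum fun e _ =>
      min_le_min_right _ (by rw [betCount_succ]; exact Nat.le_add_right _ _)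

theorem Phi_mono (q : ℕ) : Monotone fun r => Phi r q := monotone_nat_of_le_succ fun r => Phi_le_succ r q

/-- The stages of `q` at which nothing is achieved. -/
theorem Phi_lt_succ {r q : ℕ} (hq : qOf r = q)
    (hok : ∀ r, qOf r = q → okEv (EV r) = true) {y : List Bool} (hY : Y r = some y) :
    Phi r q + 1 ≤ Phi (r + 1) q := by
  subst hq
  have hun : unsat EV r (qOf r) = true := by
    unfold unsat
    rw [List.all_eq_true]
    intro r' _
    by_cases h' : qOf r' = qOf r
    · rw [hok r' h', Bool.or_true]
    · simp [h']
  have hEV := EV_eq r
  rw [if_pos hun, hY] at hEV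
  simp only at hEV
  have hokr := hok r rfl
  by_cases hl : long r y = true
  · rw [if_pos hl] at hEV
    have hlen : h r ≤ y.length := by
      have h1 : (h r + 1) * LL r ≤ y.length := of_decide_eq_true hl
      have h2 := LL_pos r
      nlinarith
    have hr : rOf y.length = r := rOf_eq hlen (length_Y hY)
    by_cases hb : betC EV r y = true
    · rw [if_pos hb] at hEV
      unfold betC at hb
      cases hd : dec y with
      | none => rw [hd] at hb; exact absurd hb (by simp)
      | some c =>
        rw [hd] at hb
        simp only [Bool.and_eq_true, decide_eq_true_eq] at hb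
        have hon : betsOn (EV r) c.1 = true := by
          rw [hEV]
          unfold betsOn
          simp only
          rw [hd]
          simp
        unfold Phi
        have h1 : min (highCount EV r (qOf r)) (2 ^ (qOf r + 1)) ≤
            min (highCount EV (r + 1) (qOf r)) (2 ^ (qOf r + 1)) :=
          min_le_min_right _ (by rw [highCount_succ']; exact Nat.le_add_right _ _)
        have h2 : ∑ e ∈ Finset.range (qOf r), min (betCount EV r e (qOf r)) (thr e (qOf r)) <
            ∑ e ∈ Finset.range (qOf r), min (betCount EV (r + 1) e (qOf r)) (thr e (qOf r)) := by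
          apply Finset.sum_lt_sum
          · intro e _
            exact min_le_min_right _ (by rw [betCount_succ]; exact Nat.le_add_right _ _)
          · refine ⟨c.1, Finset.mem_range.2 hb.1, ?_⟩
            rw [betCount_succ, hon]
            simp only [decide_true, Bool.and_self, if_true]
            have := hb.2
            omega
        omega
    · rw [if_neg hb] at hEV
      have hA : A y = !Bt r := by
        rw [A_eq, hr, hun, hl, hY]
        have hb' : betC EV r y = false := by simpa using hb
        rw [hb']
        simp
      rw [hEV, okEv_mk, decide_eq_true_iff, hA] at hokr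
      exact absurd hokr (Bool.not_ne_self _)
  · rw [if_neg hl] at hEV
    have hk : kindIs (EV r) 0 = true := by
      rw [hEV]
      simp [kindIs]
    have hlt : highCount EV r (qOf r) < 2 ^ (qOf r + 1) := by
      by_contra hc
      have hc' : (Small r (A y) || decide (2 ^ (qOf r + 1) ≤ highCount EV r (qOf r))) = true := by
        rw [decide_eq_true (not_lt.1 hc), Bool.or_true]
      rw [if_pos hc'] at hEV
      rw [hEV, okEv_mk, decide_eq_true_iff] at hokr
      exact absurd hokr.symm (Bool.not_ne_self _)
    unfold Phi
    have h2 : ∑ e ∈ Finset.range (qOf r), min (betCount EV r e (qOf r)) (thr e (qOf r)) ≤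
        ∑ e ∈ Finset.range (qOf r), min (betCount EV (r + 1) e (qOf r)) (thr e (qOf r)) :=
      Finset.sum_le_sum fun e _ =>
        min_le_min_right _ (by rw [betCount_succ]; exact Nat.le_add_right _ _)
    have h1 : highCount EV (r + 1) (qOf r) = highCount EV r (qOf r) + 1 := by
      rw [highCount_succ', hk]
      simp
    rw [h1]
    omega

/-- **Non-reducibility.** -/
theorem D_not_reduces (j : ℕ) : ¬ Reduces (D j) A := by
  rintro ⟨f, hf, hred⟩
  obtain ⟨i, N, hi1, hi2⟩ := exists_i hf
  set q := Nat.pair i j with hqdef
  have hiq : iOf q = i := by simp [iOf, hqdef]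
  have hjq : jOf q = j := by simp [jOf, hqdef]
  -- the reduction is not refuted at any stage
  have hok : ∀ r, qOf r = q → okEv (EV r) = true := by
    intro r hr
    cases hE : EV r with
    | none => rfl
    | some ev =>
      have hD := D_zs hE
      have hEV := EV_eq r
      rw [hE] at hEV
      by_cases hun : unsat EV r (qOf r) = true
      swap
      · rw [if_neg hun] at hEV
        exact absurd hEV (by simp)
      rw [if_pos hun] at hEV
      cases hY : Y r with
      | none =>
        rw [hY] at hEV
        exact absurd hEV (by simp)
      | some y =>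
        rw [hY] at hEV
        simp only at hEV
        have hy : y = f (zs (h r)) := by
          obtain ⟨t, ht⟩ := hi1 (zs (h r))
          unfold Y at hY
          rw [hr, hiq] at hY
          exact U_unique hY ht
        have hAy : A y = ev.2.2.2 := by
          rw [hy, ← hred, ← hD, hr, hjq]
        have hev : ev.2.2.1 = A y := by
          split_ifs at hEV <;> rw [Option.some_injective _ hEV]
        unfold okEv
        simp only [decide_eq_true_eq]
        rw [hev, hAy]
  have hYr : ∀ m, N ≤ m → ∃ y, Y (Nat.pair q m) = some y := by
    intro m hm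
    refine ⟨f (zs (h (Nat.pair q m))), ?_⟩
    unfold Y
    have hq : qOf (Nat.pair q m) = q := by simp [qOf]
    rw [hq, hiq]
    have h1 := hi2 (zs (h (Nat.pair q m)))
    rw [length_zs] at h1
    apply h1
    exact hm.trans ((Nat.right_le_pair q m).trans (le_h _))
  have hgrow : ∀ k, k ≤ Phi (Nat.pair q (N + k)) q := by
    intro k
    induction k with
    | zero => exact Nat.zero_le _
    | succ k ih =>
      obtain ⟨y, hy⟩ := hYr (N + k) (by omega)
      have h1 := Phi_lt_succ (q := q) (r := Nat.pair q (N + k)) (by simp [qOf]) hok hy
      have h2 : Phi (Nat.pair q (N + k) + 1) q ≤ Phi (Nat.pair q (N + (k + 1))) q :=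
        Phi_mono q (Nat.pair_lt_pair_right q (by omega))
      omega
  have h1 := hgrow (2 ^ (q + 1) + ∑ e ∈ Finset.range q, thr e q + 1)
  have h2 := Phi_le (Nat.pair q (N + (2 ^ (q + 1) + ∑ e ∈ Finset.range q, thr e q + 1))) q
  omega

end Pool.Agent.Lib.MP_7fc3ed_lc
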