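import Pool.Agent.Lib.MP_7fc3ed_lc.CodePT
import Pool.Agent.Lib.MP_7fc3ed_lc.Defs
import Mathlib.Data.Nat.Size
import Mathlib.Data.Nat.Pairing

/-!
# Numbers, strings and trees
-/

namespace Pool.Agent.Lib.MP_7fc3ed_lc

open Pool.Agent.PolyTime Function

variable {α β γ δ σ : Type*} [Rep α] [Rep β] [Rep γ] [Rep δ] [Rep σ]

/-! ### Binary expansions -/

theorem bits_bit' {n : ℕ} (b : Bool) (hn : n ≠ 0) : (Nat.bit b n).bits = b :: n.bits :=
  Nat.bits_append_bit n b fun h => absurd h hn

theorem bits_pos {n : ℕ} (hn : n ≠ 0) : n.bits = decide (n % 2 = 1) :: (n / 2).bits := by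
  rcases Nat.eq_zero_or_pos (n / 2) with h | h
  · have : n = 1 := by omega
    subst this
    rfl
  · have h1 := bits_bit' (decide (n % 2 = 1)) (n := n / 2) (by omega)
    have h2 : Nat.bit (decide (n % 2 = 1)) (n / 2) = n := by
      rw [Nat.bit_val]
      rcases Nat.mod_two_eq_zero_or_one n with h3 | h3 <;> simp [h3] <;> omega
    rw [h2] at h1
    exact h1

/-- Value of a binary expansion, least significant bit first. -/
def val (l : List Bool) : ℕ := l.foldr (fun b v => Nat.bit b v) 0

@[simp] theorem val_nil : val [] = 0 := rfl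
@[simp] theorem val_cons (b : Bool) (l : List Bool) : val (b :: l) = 2 * val l + b.toNat := by
  simp [val, Nat.bit_val]

theorem val_bits (n : ℕ) : val n.bits = n := by
  induction n using Nat.strong_induction_on with
  | _ n ih =>
    rcases Nat.eq_zero_or_pos n with h | h
    · subst h; rfl
    · rw [bits_pos (by omega), val_cons, ih (n / 2) (by omega)]
      rcases Nat.mod_two_eq_zero_or_one n with h3 | h3 <;> simp [h3] <;> omega

theorem bits_inj {m n : ℕ} (h : m.bits = n.bits) : m = n := by
  rw [← val_bits m, h, val_bits]

theorem length_bits_le (n : ℕ) : n.bits.length ≤ n := by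
  induction n using Nat.strong_induction_on with
  | _ n ih =>
    rcases Nat.eq_zero_or_pos n with h | h
    · subst h; simp
    · rw [bits_pos (by omega), List.length_cons]
      have := ih (n / 2) (by omega)
      omega

/-- One halving step. -/
def halve (s : ℕ × List Bool) : ℕ × List Bool :=
  if s.1 = 0 then s else (s.1 / 2, decide (s.1 % 2 = 1) :: s.2)

theorem halve_iter (n : ℕ) : ∀ (k : ℕ) (acc : List Bool), n ≤ k →
    halve^[k] (n, acc) = (0, n.bits.reverse ++ acc) := by
  induction n using Nat.strong_induction_on with
  | _ n ih =>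
    intro k acc hk
    rcases Nat.eq_zero_or_pos n with h | h
    · subst h
      have : halve (0, acc) = (0, acc) := rfl
      rw [iterate_fixed this]
      simp
    · obtain ⟨k', rfl⟩ : ∃ k', k = k' + 1 := ⟨k - 1, by omega⟩
      rw [iterate_succ_apply]
      have : halve (n, acc) = (n / 2, decide (n % 2 = 1) :: acc) := by
        simp [halve, Nat.pos_iff_ne_zero.1 h]
      rw [this, ih (n / 2) (by omega) k' _ (by omega), bits_pos (n := n) (by omega)]
      simp

theorem halve_size (k : ℕ) : ∀ (n : ℕ) (acc : List Bool),
    sz (halve^[k] (n, acc)) ≤ 2 * n + 1 + sz acc + 4 * k + 1 := by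
  induction k with
  | zero => intro n acc; simp only [iterate_zero, id, sz_pair, sz_nat]; omega
  | succ k ih =>
    intro n acc
    rw [iterate_succ_apply]
    by_cases h : n = 0
    · have : halve (n, acc) = (n, acc) := by simp [halve, h]
      rw [this]
      exact (ih n acc).trans (by omega)
    · have : halve (n, acc) = (n / 2, decide (n % 2 = 1) :: acc) := by simp [halve, h]
      rw [this]
      refine (ih _ _).trans ?_
      have h1 := sz_bool (decide (n % 2 = 1))
      rw [sz_cons]
      omega

@[fun_prop]
theorem pt_bits {f : α → ℕ} (hf : PT f) : PT (fun a => (f a).bits) := by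
  have h1 : PT (fun a => halve^[f a] (f a, ([] : List Bool))) := by
    refine pt_iter (g := fun _ s => halve s) hf (by fun_prop) (by unfold halve; fun_prop)
      (B := fun a => 6 * f a + 3) (((Bdd.const 6).mul (bdd_nat hf)).add (Bdd.const 3)) ?_
    intro a m hm
    have := halve_size m (f a) []
    simp only [sz_nil] at this
    change sz (halve^[m] (f a, ([] : List Bool))) ≤ _
    omega
  refine h1.snd.reverse.congr fun a => ?_
  rw [halve_iter _ _ _ le_rfl]
  simp

/-! ### Strings -/

/-- The number with binary expansion `1 x`. -/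
def code1 (x : List Bool) : ℕ := x.foldl (fun v b => Nat.bit b v) 1

theorem code1_append (x : List Bool) (b : Bool) : code1 (x ++ [b]) = Nat.bit b (code1 x) := by
  simp [code1]

theorem code1_bounds (x : List Bool) : 2 ^ x.length ≤ code1 x ∧ code1 x < 2 ^ (x.length + 1) := by
  induction x using List.reverseRecOn with
  | nil => simp [code1]
  | append_singleton x b ih =>
    rw [code1_append, Nat.bit_val, List.length_append, List.length_singleton, pow_succ,
      pow_succ]
    have : b.toNat ≤ 1 := Bool.toNat_le b
    omega

theorem bits_code1 (x : List Bool) : (code1 x).bits = x.reverse ++ [true] := by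
  induction x using List.reverseRecOn with
  | nil => rfl
  | append_singleton x b ih =>
    have h := (code1_bounds x).1
    have h2 : 0 < 2 ^ x.length := by positivity
    rw [code1_append, bits_bit' b (by omega), ih]
    simp

/-- The index of a string in the length-lexicographic order. -/
def idx (x : List Bool) : ℕ := code1 x - 1

theorem idx_succ (x : List Bool) : idx x + 1 = code1 x := by
  have h := (code1_bounds x).1
  have h2 : 0 < 2 ^ x.length := by positivity
  unfold idx
  omega

theorem str_idx (x : List Bool) : str (idx x) = x := by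
  unfold str
  rw [idx_succ, bits_code1]
  simp

theorem exists_bits_eq (l : List Bool) : ∃ n : ℕ, n ≠ 0 ∧ n.bits = l ++ [true] := by
  refine ⟨code1 l.reverse, ?_, by rw [bits_code1]; simp⟩
  have h := (code1_bounds l.reverse).1
  have h2 : 0 < 2 ^ l.reverse.length := by positivity
  omega

theorem bits_eq_dropLast {n : ℕ} (hn : n ≠ 0) : n.bits = n.bits.dropLast ++ [true] := by
  induction n using Nat.strong_induction_on with
  | _ n ih =>
    rw [bits_pos hn]
    rcases Nat.eq_zero_or_pos (n / 2) with h | h
    · have : n = 1 := by omega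
      subst this
      rfl
    · have h1 := ih (n / 2) (by omega) (by omega)
      have h2 : (n / 2).bits ≠ [] := by
        intro h3
        rw [h3] at h1
        simp at h1
      rw [List.dropLast_cons_of_ne_nil h2, List.cons_append, ← h1]

theorem idx_str (n : ℕ) : idx (str n) = n := by
  have h : (code1 (str n)).bits = (n + 1).bits := by
    rw [bits_code1]
    unfold str
    rw [List.reverse_reverse]
    exact (bits_eq_dropLast (by omega)).symm
  have h2 := bits_inj h
  have h3 := idx_succ (str n)
  omega

theorem idx_inj {x y : List Bool} (h : idx x = idx y) : x = y := by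
  rw [← str_idx x, h, str_idx]

theorem length_str (n : ℕ) : 2 ^ (str n).length ≤ n + 1 ∧ n + 1 < 2 ^ ((str n).length + 1) := by
  have h := code1_bounds (str n)
  rw [← idx_succ, idx_str] at h
  exact h

theorem length_str_eq {n m : ℕ} (h1 : 2 ^ m ≤ n + 1) (h2 : n + 1 < 2 ^ (m + 1)) :
    (str n).length = m := by
  obtain ⟨h3, h4⟩ := length_str n
  have h5 : m < (str n).length + 1 :=
    (Nat.pow_lt_pow_iff_right (by norm_num : 1 < 2)).1 (h1.trans_lt h4)
  have h6 : (str n).length < m + 1 :=
    (Nat.pow_lt_pow_iff_right (by norm_num : 1 < 2)).1 (h3.trans_lt h2)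
  omega

/-- The string `0^n`. -/
def zs (n : ℕ) : List Bool := List.replicate n false

theorem code1_zs (n : ℕ) : code1 (zs n) = 2 ^ n := by
  induction n with
  | zero => rfl
  | succ n ih =>
    have : zs (n + 1) = zs n ++ [false] := by
      unfold zs
      rw [List.replicate_succ']
    rw [this, code1_append, ih, Nat.bit_val, pow_succ]
    simp [Nat.mul_comm]

theorem idx_zs (n : ℕ) : idx (zs n) = 2 ^ n - 1 := by
  have := idx_succ (zs n)
  rw [code1_zs] at this
  omega

@[simp] theorem length_zs (n : ℕ) : (zs n).length = n := by simp [zs]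

@[fun_prop]
theorem pt_dropLast {f : α → List β} (hf : PT f) : PT (fun a => (f a).dropLast) := by
  have : PT (fun a => (f a).reverse.tail.reverse) := by fun_prop
  refine this.congr fun a => ?_
  rw [List.tail_reverse, List.reverse_reverse]

@[fun_prop]
theorem pt_str {f : α → ℕ} (hf : PT f) : PT (fun a => str (f a)) := by
  unfold str; fun_prop

@[fun_prop]
theorem pt_zs {f : α → ℕ} (hf : PT f) : PT (fun a => zs (f a)) := by
  unfold zs; fun_prop

theorem capCode_eq (t : ℕ) (x : List Bool) :
    x.foldl (fun v b => min (Nat.bit b v) t) (min 1 t) = min (code1 x) t := by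
  induction x using List.reverseRecOn with
  | nil => rfl
  | append_singleton x b ih =>
    rw [List.foldl_append, ih, code1_append]
    simp only [List.foldl_cons, List.foldl_nil, Nat.bit_val]
    omega

@[fun_prop]
theorem pt_bit {f : α → Bool} {g : α → ℕ} (hf : PT f) (hg : PT g) :
    PT (fun a => Nat.bit (f a) (g a)) := by
  have : PT (fun a => if f a then 2 * g a + 1 else 2 * g a) := by fun_prop
  refine this.congr fun a => ?_
  rw [Nat.bit_val]
  cases f a <;> simp

theorem pt_capCode {f : α → List Bool} {g : α → ℕ} (hf : PT f) (hg : PT g) :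
    PT (fun a => min (code1 (f a)) (g a)) := by
  refine (PT.foldl (g := fun a v b => min (Nat.bit b v) (g a)) hf
    (f := fun a => min 1 (g a)) (by fun_prop) (by fun_prop) (B := fun a => 2 * g a + 1)
    (((Bdd.const 2).mul (bdd_nat hg)).add (Bdd.const 1)) ?_).congr fun a => capCode_eq _ _
  intro a l' _
  rw [capCode_eq, sz_nat]
  omega

/-- Capped index. -/
def cidx (x : List Bool) (t : ℕ) : ℕ := min (idx x) t

theorem cidx_def (x : List Bool) (t : ℕ) : cidx x t = min (idx x) t := rfl

attribute [irreducible] cidx

@[fun_prop]
theorem pt_cidx {f : α → List Bool} {g : α → ℕ} (hf : PT f) (hg : PT g) :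
    PT (fun a => cidx (f a) (g a)) := by
  have : PT (fun a => min (code1 (f a)) (g a + 1) - 1) :=
    (pt_capCode hf hg.succ).sub (PT.const 1)
  refine this.congr fun a => ?_
  have := idx_succ (f a)
  rw [cidx_def]
  omega

/-! ### Trees -/

/-- One parsing step. -/
def pstep : Bool → List T → List T
  | false, s => .nil :: s
  | true, a :: b :: s => .cons a b :: s
  | true, s => s

/-- The tree described at the beginning of a word. -/
def parse (l : List Bool) : T := (l.foldr pstep []).headD .nil

theorem foldr_enc (t : T) : ∀ s : List T, t.enc.foldr pstep s = t :: s := by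
  induction t with
  | nil => intro s; rfl
  | cons a b iha ihb =>
    intro s
    simp only [T.enc, List.foldr_cons, List.foldr_append, iha, ihb, pstep]

theorem parse_enc (t : T) (u : List Bool) : parse (t.enc ++ u) = t := by
  unfold parse
  rw [List.foldr_append, foldr_enc]
  rfl

/-- The tree with a given number. -/
def tree (n : ℕ) : T := parse n.bits

theorem exists_tree (t : T) : ∃ n, tree n = t := by
  obtain ⟨n, _, hn⟩ := exists_bits_eq t.enc
  exact ⟨n, by rw [tree, hn, parse_enc]⟩

theorem pstep_size (b : Bool) (s : List T) : sz (pstep b s) ≤ sz s + 2 := by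
  cases b
  · simp only [pstep, sz_cons]
    change 1 + sz s + 1 ≤ _
    omega
  · match s with
    | [] => simp [pstep]
    | [a] => simp [pstep]
    | a :: b :: s =>
      simp only [pstep, sz_cons]
      change (a.size + b.size + 1) + sz s + 1 ≤ a.size + (b.size + sz s + 1) + 1 + 2
      omega

theorem pstep_size' (l : List Bool) (s : List T) :
    sz (l.foldl (fun s b => pstep b s) s) ≤ sz s + 2 * l.length := by
  induction l generalizing s with
  | nil => simp
  | cons b l ih =>
    rw [List.foldl_cons, List.length_cons]
    have := ih (pstep b s)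
    have := pstep_size b s
    omega

@[fun_prop]
theorem pt_tcons {f g : α → T} (hf : PT f) (hg : PT g) : PT (fun a => T.cons (f a) (g a)) :=
  Comp.pair hf hg

theorem pt_pstep : PT (fun p : Bool × List T => pstep p.1 p.2) := by
  have h1 : PT (fun p : Bool × List T =>
      if p.1 then (if (p.2.tail).isEmpty then p.2 else
        T.cons (p.2.headD .nil) (p.2.tail.headD .nil) :: p.2.tail.tail)
      else T.nil :: p.2) := by fun_prop
  refine h1.congr ?_
  rintro ⟨b, s⟩
  cases b
  · rfl
  · match s with
    | [] => rfl
    | [a] => rfl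
    | a :: b :: s => rfl

@[fun_prop]
theorem pt_parse {f : α → List Bool} (hf : PT f) : PT (fun a => parse (f a)) := by
  have h1 : PT (fun a => (f a).reverse.foldl (fun s b => pstep b s) []) := by
    refine PT.foldl (g := fun _ s b => pstep b s) hf.reverse (PT.const [])
      (pt_pstep.comp (PT.pair PT.id.snd.snd PT.id.snd.fst)) (B := fun a => 1 + 2 * sz (f a))
      ((Bdd.const 1).add ((Bdd.const 2).mul hf.bdd)) ?_
    intro a l' hl'
    refine (pstep_size' l' []).trans ?_
    have h2 := hl'.length_le
    have h3 := length_le_sz (f a)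
    simp only [List.length_reverse] at h2
    simp only [sz_nil]
    omega
  unfold parse
  have h2 : PT (fun a => ((f a).reverse.foldl (fun s b => pstep b s) []).headD .nil) := by
    fun_prop
  refine h2.congr fun a => ?_
  rw [List.foldl_reverse]

@[fun_prop]
theorem pt_tree {f : α → ℕ} (hf : PT f) : PT (fun a => tree (f a)) := by
  unfold tree; fun_prop

/-! ### Pairs of numbers -/

theorem sqrt_rec (n : ℕ) : Nat.rec (motive := fun _ => ℕ) 0
    (fun m s => if (s + 1) * (s + 1) ≤ m + 1 then s + 1 else s) n = Nat.sqrt n := by
  induction n with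
  | zero => rfl
  | succ n ih =>
    simp only [ih]
    have h1 := Nat.sqrt_le n
    have h2 := Nat.lt_succ_sqrt n
    split_ifs with h
    · rw [Nat.eq_sqrt]
      refine ⟨h, ?_⟩
      simp only [Nat.succ_eq_add_one] at h2
      nlinarith
    · rw [Nat.eq_sqrt]
      exact ⟨by omega, by omega⟩

@[fun_prop]
theorem pt_sqrt {f : α → ℕ} (hf : PT f) : PT (fun a => Nat.sqrt (f a)) := by
  refine (PT.natRec (g := fun _ m s => if (s + 1) * (s + 1) ≤ m + 1 then s + 1 else s) hf
    (f := fun _ => 0) (by fun_prop) (by fun_prop) (B := fun a => 2 * f a + 1)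
    (((Bdd.const 2).mul (bdd_nat hf)).add (Bdd.const 1)) ?_).congr fun a => sqrt_rec _
  intro a m hm
  rw [sqrt_rec, sz_nat]
  have := Nat.sqrt_le_self m
  omega

@[fun_prop]
theorem pt_unpair {f : α → ℕ} (hf : PT f) : PT (fun a => Nat.unpair (f a)) := by
  unfold Nat.unpair
  fun_prop

@[fun_prop]
theorem pt_natpair {f g : α → ℕ} (hf : PT f) (hg : PT g) :
    PT (fun a => Nat.pair (f a) (g a)) := by
  unfold Nat.pair
  fun_prop

end Pool.Agent.Lib.MP_7fc3ed_lc
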