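import Pool.Agent.Lib.MP_7fc3ed_lc.Mart

/-!
# The capital induced by the strategy
-/

namespace Pool.Agent.Lib.MP_7fc3ed_lc

open Pool.Agent.PolyTime Function

attribute [local irreducible] h rOf unpairStr tree U qOf iOf jOf ones dec cd
  unsat highCount betCount thr betC fuel outT nbT smallT lg isSpec bitT prefT yT codeT bT long
  aT hT evT ble badd shl str idx zs hist EV A Bt Y LL

theorem sBet_eq {r t : ℕ} {x : List Bool} (hr : rOf x.length = r)
    (ht : 2 ^ (x.length + 1) ≤ t) : sBet t EV r x = match bI (EV r) with
      | none => none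
      | some b => if b.2.1 = x then some (b.1, b.2.2) else none := by
  have hh : h r ≤ x.length := by rw [← hr]; exact h_rOf_le _
  have hy : yT t r = Y r := by
    refine yT_eq (le_trans (Nat.pow_le_pow_right (by norm_num) ?_) ht)
    omega
  have hE := EV_eq r
  unfold sBet
  rw [hy]
  by_cases hu : unsat EV r (qOf r) = true
  · rw [if_pos hu] at hE
    cases hY : Y r with
    | none =>
      rw [hY] at hE
      simp only at hE
      rw [hE]
      rfl
    | some y =>
      rw [hY] at hE
      simp only at hE
      by_cases hl : long r y = true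
      · rw [if_pos hl] at hE
        cases hd : dec y with
        | none =>
          rw [hE]
          simp [bI, hd]
        | some c =>
          by_cases hc : betC EV r y = true
          · have hE' := hE
            rw [if_pos hc] at hE
            rw [hE]
            simp only [bI, hd, hu, hl, hc, Bool.true_and, decide_eq_true_eq, if_true]
            have hb : bI (EV r) = some (c.1, (c.2, Bt r)) := by
              rw [hE]; simp [bI, hd]
            by_cases hx : c.2 = x
            · rw [if_pos hx, if_pos hx]
              rw [hx] at hb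
              rw [bT_eq (fun _ _ => rfl) (le_trans (Nat.pow_le_pow_right (by norm_num)
                (bI_len hb).1) ht)]
            · rw [if_neg hx, if_neg hx]
          · rw [if_neg hc] at hE
            rw [hE]
            simp [bI, hc, hd]
      · rw [if_neg hl] at hE
        rw [hE]
        cases hd : dec y with
        | none => simp [bI, hd]
        | some c => simp [bI, hl, hd]
  · rw [if_neg hu] at hE
    rw [hE]
    cases hY : Y r with
    | none => rfl
    | some y =>
      cases hd : dec y with
      | none => simp [bI, hd]
      | some c => simp [bI, hu, hd]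

theorem sBet_some {r t : ℕ} {x : List Bool} (hr : rOf x.length = r)
    (ht : 2 ^ (x.length + 1) ≤ t) {e : ℕ} {d : Bool} (hs : sBet t EV r x = some (e, d)) :
    bI (EV r) = some (e, (x, d)) := by
  rw [sBet_eq hr ht] at hs
  cases hb : bI (EV r) with
  | none => rw [hb] at hs; simp at hs
  | some b =>
    rw [hb] at hs
    simp only at hs
    split_ifs at hs with h1
    simp only [Option.some.injEq, Prod.mk.injEq] at hs
    obtain ⟨e', x', d'⟩ := b
    simp only at hs h1
    rw [h1, hs.1, hs.2]

theorem sBet_none {r t : ℕ} {x : List Bool} (hr : rOf x.length = r)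
    (ht : 2 ^ (x.length + 1) ≤ t) (hs : sBet t EV r x = none) (e : ℕ) (d : Bool) :
    bI (EV r) ≠ some (e, (x, d)) := by
  intro hb
  rw [sBet_eq hr ht, hb] at hs
  simp at hs

theorem str_bound (N : ℕ) : 2 ^ ((str N).length + 1) ≤ 2 * N + 2 := by
  have := (length_str N).1
  rw [pow_succ]
  omega

theorem kapN_le_valN {w : List Bool} {F : ℕ → Option Ev} {P r e q : ℕ}
    (hP : Nat.pair e q < P) : kapN w F P r e q + 1 ≤ valN w F P r := by
  unfold valN
  rw [sum_map_range]
  have h2 := Finset.single_le_sum (f := fun p => kapN w F P r (Nat.unpair p).1 (Nat.unpair p).2)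
    (fun p _ => Nat.zero_le _) (Finset.mem_range.2 hP)
  simp only [Nat.unpair_pair] at h2
  omega

theorem valN_pos {w : List Bool} {F : ℕ → Option Ev} {P r : ℕ} : 0 < valN w F P r := by
  unfold valN; omega

/-- The strategy, if there is no bet. -/
theorem strat_none {w : List Bool} (hs : sBet (2 * w.length + 2) EV
    (rOf (str w.length).length) (str w.length) = none) : stratN w = (1, 2) := by
  unfold stratN
  rw [hs]
  rfl

theorem strat_some {w : List Bool} {e : ℕ} {d : Bool} (hs : sBet (2 * w.length + 2) EV
    (rOf (str w.length).length) (str w.length) = some (e, d)) :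
    ∃ V k : ℕ, k + 1 ≤ V ∧ V = valN w EV ((rOf (str w.length).length + 1) ^ 2)
        (rOf (str w.length).length) ∧
      k = kapN w EV ((rOf (str w.length).length + 1) ^ 2) (rOf (str w.length).length) e
        (qOf (rOf (str w.length).length)) ∧
      stratN w = if d then (V - k, 2 * V) else (V + k, 2 * V) := by
  have hb := sBet_some rfl (str_bound _) hs
  refine ⟨_, _, kapN_le_valN ?_, rfl, rfl, ?_⟩
  · exact pair_lt (bI_lt hb).1 (qOf_le _) le_rfl
  · unfold stratN
    rw [hs]
    rfl

theorem stratN_snd_pos (w : List Bool) : 0 < (stratN w).2 := by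
  cases hs : sBet (2 * w.length + 2) EV (rOf (str w.length).length) (str w.length) with
  | none => rw [strat_none hs]; norm_num
  | some c =>
    obtain ⟨e, d⟩ := c
    obtain ⟨V, k, h1, -, -, h2⟩ := strat_some hs
    rw [h2]
    split_ifs <;> simp only <;> omega

theorem isStrategy_strat : IsStrategy strat := by
  intro w
  unfold strat
  have h0 : (0 : ℚ) < ((stratN w).2 : ℚ) := by exact_mod_cast stratN_snd_pos w
  refine ⟨by positivity, ?_⟩
  rw [div_le_one h0]
  norm_cast
  cases hs : sBet (2 * w.length + 2) EV (rOf (str w.length).length) (str w.length) with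
  | none => rw [strat_none hs]; norm_num
  | some c =>
    obtain ⟨e, d⟩ := c
    obtain ⟨V, k, h1, -, -, h2⟩ := strat_some hs
    rw [h2]
    split_ifs <;> simp only <;> omega

/-! ### The order of the bets -/

theorem idx_lt_of_length {x y : List Bool} (hl : x.length < y.length) : idx x < idx y := by
  have h1 := (code1_bounds x).2
  have h2 := (code1_bounds y).1
  rw [← idx_succ] at h1 h2
  have h3 : 2 ^ (x.length + 1) ≤ 2 ^ y.length := Nat.pow_le_pow_right (by norm_num) hl
  omega

theorem bets_lt {r r' e e' : ℕ} {x x' : List Bool} {d d' : Bool}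
    (hb : bI (EV r) = some (e, (x, d))) (hb' : bI (EV r') = some (e', (x', d')))
    (hr : r < r') : idx x < idx x' := by
  refine idx_lt_of_length ?_
  have h1 := (bI_len hb).2.2
  have h2 := (bI_len hb').2.1
  have h3 : h (r + 1) ≤ h r' := h_strictMono.monotone hr
  omega

/-- The bets with index less than `N` are those of the stages before `r`. -/
def At (N r : ℕ) : Prop := ∀ r' e y d, bI (EV r') = some (e, (y, d)) → (idx y < N ↔ r' < r)

theorem del_none {X : Lang} {r : ℕ} (hb : bI (EV r) = none) : del X r = 0 := by
  unfold del; rw [hb]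

theorem Val_of_no_bets (X : Lang) {r n : ℕ} (hn : ∀ r', r ≤ r' → r' < r + n → bI (EV r') = none) :
    Val X (r + n) = Val X r := by
  induction n with
  | zero => rfl
  | succ n ih =>
    rw [← add_assoc, Val, ih fun r' h1 h2 => hn r' h1 (by omega),
      del_none (hn (r + n) (by omega) (by omega)), add_zero]

theorem Val_congr (X : Lang) {N r r' : ℕ} (h1 : At N r) (h2 : At N r') : Val X r = Val X r' := by
  have key : ∀ {r r' : ℕ}, At N r → At N r' → r ≤ r' → Val X r' = Val X r := by
    intro r r' h1 h2 hr
    obtain ⟨n, rfl⟩ := Nat.exists_eq_add_of_le hr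
    refine Val_of_no_bets X fun s hs hs' => ?_
    cases hb : bI (EV s) with
    | none => rfl
    | some b =>
      obtain ⟨e, y, d⟩ := b
      have h3 := h1 s e y d hb
      have h4 := h2 s e y d hb
      omega
  rcases Nat.le_total r r' with h3 | h3
  · exact (key h1 h2 h3).symm
  · exact key h2 h1 h3

theorem At_of_bet {N r e : ℕ} {d : Bool} (hb : bI (EV r) = some (e, (str N, d))) :
    At N r ∧ At (N + 1) (r + 1) := by
  have key : ∀ r' e' y d', bI (EV r') = some (e', (y, d')) →
      (idx y < N ↔ r' < r) ∧ (idx y < N + 1 ↔ r' < r + 1) := by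
    intro r' e' y d' hb'
    rcases Nat.lt_trichotomy r' r with h1 | h1 | h1
    · have h2 := bets_lt hb' hb h1
      rw [idx_str] at h2
      omega
    · rw [h1] at hb'
      rw [hb] at hb'
      simp only [Option.some.injEq, Prod.mk.injEq] at hb'
      rw [← hb'.2.1, idx_str]
      omega
    · have h2 := bets_lt hb hb' h1
      rw [idx_str] at h2
      omega
  exact ⟨fun r' e' y d' hb' => (key r' e' y d' hb').1,
    fun r' e' y d' hb' => (key r' e' y d' hb').2⟩

theorem At_pow (r : ℕ) : At (2 ^ h r - 1) r := by
  intro r' e y d hb
  have h1 := code1_bounds y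
  rw [← idx_succ] at h1
  obtain ⟨-, h3, h4⟩ := bI_len hb
  have hp : 0 < 2 ^ h r := by positivity
  constructor
  · intro h5
    have h6 : y.length < h r := by
      refine (Nat.pow_lt_pow_iff_right (by norm_num : 1 < 2)).1 ?_
      omega
    exact h_strictMono.lt_iff_lt.1 (h3.trans h6)
  · intro h5
    have h6 : h (r' + 1) ≤ h r := h_strictMono.monotone h5
    have h7 : 2 ^ (y.length + 1) ≤ 2 ^ h r := Nat.pow_le_pow_right (by norm_num) (by omega)
    omega

theorem length_charPrefix (X : Lang) (N : ℕ) : (charPrefix X N).length = N := by
  simp [charPrefix]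

/-- The capital is the value of the chains. -/
theorem capital_strat (X : Lang) (N : ℕ) : ∃ r, At N r ∧ capital strat X N = Val X r := by
  induction N with
  | zero =>
    refine ⟨0, ?_, rfl⟩
    intro r' e y d _
    omega
  | succ N ih =>
    obtain ⟨r0, hr0, hc0⟩ := ih
    have hlen := length_charPrefix X N
    cases hs : sBet (2 * (charPrefix X N).length + 2) EV
        (rOf (str (charPrefix X N).length).length) (str (charPrefix X N).length) with
    | none =>
      refine ⟨r0, ?_, ?_⟩
      · intro r' e y d hb
        rw [← hr0 r' e y d hb]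
        have h1 : idx y ≠ N := by
          intro h2
          have h3 : y = str N := by rw [← h2, str_idx]
          have h4 := bI_rOf hb
          rw [hlen] at hs
          subst h3
          rw [h4] at hs
          exact sBet_none h4 (str_bound N) hs e d hb
        omega
      · rw [capital, hc0]
        unfold strat
        rw [strat_none hs]
        unfold bitQ
        split_ifs <;> norm_num [abs_of_pos, abs_of_neg]
    | some c =>
      obtain ⟨e, d⟩ := c
      obtain ⟨V, k, h1, hV, hk, h2⟩ := strat_some hs
      rw [hlen] at hs hV hk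
      set r := rOf (str N).length with hr
      have hb := sBet_some rfl (str_bound N) hs
      obtain ⟨hA, hA'⟩ := At_of_bet hb
      refine ⟨r + 1, hA', ?_⟩
      have hN : ∀ r' < r, ∀ e x d, bI (EV r') = some (e, (x, d)) → idx x < N :=
        fun r' hr' e x d hb' => (hA r' e x d hb').2 hr'
      have hV' : (V : ℚ) = 2 ^ ((r + 1) ^ 2) * Val X r := by
        rw [hV]
        exact valN_eq hN fun r' hr' => sq_mono le_rfl hr'
      have hk' : (k : ℚ) = 2 ^ ((r + 1) ^ 2) * kap X r e (qOf r) := by
        rw [hk]
        exact kapN_eq hN (pair_lt (bI_lt hb).1 (qOf_le _) le_rfl)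
      have hpos := Val_pos X r
      have hV0 : (0 : ℚ) < (V : ℚ) := by rw [hV']; positivity
      have hk0 : (0 : ℚ) ≤ (k : ℚ) := Nat.cast_nonneg _
      have hkV : (k : ℚ) ≤ (V : ℚ) := by exact_mod_cast (by omega : k ≤ V)
      have hdel : del X r = if X (str N) = d then kap X r e (qOf r) else - kap X r e (qOf r) := by
        unfold del; rw [hb]
      have hP : (2 : ℚ) ^ ((r + 1) ^ 2) ≠ 0 := by positivity
      have hval : Val X r = (V : ℚ) / 2 ^ ((r + 1) ^ 2) := by rw [hV']; field_simp
      have hkap : kap X r e (qOf r) = (k : ℚ) / 2 ^ ((r + 1) ^ 2) := by rw [hk']; field_simp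
      rw [capital, hc0, Val_congr X hr0 hA, Val, hdel]
      unfold strat
      rw [h2, hval, hkap]
      have hkV' : k ≤ V := by omega
      cases d <;> cases hX : X (str N)
      · simp only [bitQ, Bool.false_eq_true, if_false, if_true]
        push_cast
        rw [zero_sub, abs_neg, abs_of_nonneg (by positivity)]
        field_simp
      · simp only [bitQ, Bool.false_eq_true, Bool.true_eq_false, if_false, if_true]
        push_cast
        rw [abs_of_nonneg (by
          rw [sub_nonneg, div_le_one (by positivity)]
          linarith)]
        field_simp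
        ring
      · simp only [bitQ, Bool.false_eq_true, if_false, if_true]
        push_cast [hkV']
        rw [zero_sub, abs_neg, abs_of_nonneg (by
          apply div_nonneg <;> linarith)]
        field_simp
        ring
      · simp only [bitQ, if_true]
        push_cast [hkV']
        rw [abs_of_nonneg (by
          rw [sub_nonneg, div_le_one (by positivity)]
          linarith)]
        field_simp
        ring

theorem capital_strat_pow (X : Lang) (r : ℕ) : capital strat X (2 ^ h r - 1) = Val X r := by
  obtain ⟨r', h1, h2⟩ := capital_strat X (2 ^ h r - 1)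
  rw [h2]
  exact Val_congr X h1 (At_pow r)

end Pool.Agent.Lib.MP_7fc3ed_lc
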