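import Pool.Agent.Lib.MP_7fc3ed_lc.Strat
import Pool.Agent.Lib.MP_7fc3ed_lc.Member

/-!
# The strategy is computable in polynomial time
-/

namespace Pool.Agent.Lib.MP_7fc3ed_lc

open Pool.Agent.PolyTime Function

variable {α β γ δ σ : Type*} [Rep α] [Rep β] [Rep γ] [Rep δ] [Rep σ]

theorem bI_def' (o : Option Ev) : bI o = match o with
  | none => none
  | some ev => if ev.2.1 = 2 then (match dec ev.1 with
      | none => none
      | some c => some (c.1, (c.2, ev.2.2.2))) else none := rfl

theorem LL_le_imp {r t x : ℕ} (h : LL r ≤ x) (ht : 2 ^ x ≤ t) : 2 ^ LL r ≤ t :=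
  (Nat.pow_le_pow_right (by norm_num) h).trans ht

attribute [local irreducible] h rOf unpairStr tree U qOf iOf jOf ones dec cd okEv kindIs betsOn
  unsat highCount betCount thr betC fuel outT nbT smallT lg isSpec bitT prefT yT codeT bT long
  aT hT evT ble badd shl str idx zs hist EV A Bt Y LL

theorem sum_prefix_le {l' l : List ℕ} (hl : l' <+: l) : l'.sum ≤ l.sum := by
  obtain ⟨t, rfl⟩ := hl
  rw [List.sum_append]
  omega

theorem sum_le_sz (l : List ℕ) : l.sum ≤ sz l := by
  induction l with
  | nil => simp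
  | cons a l ih => rw [List.sum_cons, sz_cons, sz_nat]; omega

@[fun_prop]
theorem pt_sum {f : α → List ℕ} (hf : PT f) : PT (fun a => (f a).sum) := by
  have key : ∀ (l : List ℕ) (c : ℕ), l.foldl (fun s b => s + b) c = c + l.sum := by
    intro l
    induction l with
    | nil => intro c; simp
    | cons a l ih => intro c; rw [List.foldl_cons, ih, List.sum_cons]; omega
  refine (PT.foldl (g := fun _ (s : ℕ) b => s + b) hf (f := fun _ => 0) (by fun_prop)
    (by fun_prop) (B := fun a => 2 * sz (f a) + 1)
    (((Bdd.const 2).mul hf.bdd).add (Bdd.const 1)) ?_).congr fun a => by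
      rw [key]; omega
  intro a l' hl'
  rw [key, sz_nat]
  have h1 := sum_prefix_le hl'
  have h2 := sum_le_sz (f a)
  omega

@[fun_prop]
theorem pt_pairStr {f g : α → List Bool} (hf : PT f) (hg : PT g) :
    PT (fun a => pairStr (f a) (g a)) := by
  unfold pairStr
  fun_prop

@[fun_prop]
theorem pt_bI {f : α → Option Ev} (hf : PT f) : PT (fun a => bI (f a)) := by
  have h1 : PT (fun p : α × Ev => Option.casesOn (motive := fun _ => Option (ℕ × (List Bool × Bool)))
      (dec p.2.1) none fun c => some (c.1, (c.2, p.2.2.2.2))) :=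
    PT.optionCases (g := fun (p : α × Ev) (c : ℕ × List Bool) => some (c.1, (c.2, p.2.2.2.2)))
      (by fun_prop) (by fun_prop) (by fun_prop)
  have h2 : PT (fun p : α × Ev => if p.2.2.1 = 2 then
      (Option.casesOn (motive := fun _ => Option (ℕ × (List Bool × Bool)))
      (dec p.2.1) none fun c => some (c.1, (c.2, p.2.2.2.2))) else none) :=
    PT.iteProp (by fun_prop) h1 (PT.const none)
  refine (PT.optionCases (g := fun (_ : α) (ev : Ev) => if ev.2.1 = 2 then
      (Option.casesOn (motive := fun _ => Option (ℕ × (List Bool × Bool)))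
      (dec ev.1) none fun c => some (c.1, (c.2, ev.2.2.2))) else none)
    hf (PT.const none) h2).congr fun a => ?_
  rw [bI_def']
  cases f a with
  | none => rfl
  | some ev =>
    simp only
    split_ifs
    · cases dec ev.1 <;> rfl
    · rfl

attribute [local irreducible] bI

theorem wonW_congr {w : List Bool} {F F' : ℕ → Option Ev} {r e q : ℕ}
    (hF : ∀ r' < r, F r' = F' r') : wonW w F r e q = wonW w F' r e q := by
  unfold wonW
  rw [Bool.eq_iff_iff, List.all_eq_true, List.all_eq_true]
  refine forall₂_congr fun r' hr' => ?_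
  rw [List.mem_range] at hr'
  rw [hF r' hr']

theorem kapN_congr {w : List Bool} {F F' : ℕ → Option Ev} {P r e q : ℕ}
    (hF : ∀ r' < r, F r' = F' r') : kapN w F P r e q = kapN w F' P r e q := by
  unfold kapN
  rw [wonW_congr hF, betCount_congr hF]

theorem bitT_congr {t : ℕ} {F F' : ℕ → Option Ev} {r j m : ℕ} {w : List Bool}
    (hF : ∀ r' < r, F r' = F' r') : bitT t F r j m w = bitT t F' r j m w := by
  unfold bitT
  by_cases h1 : rOf (lg m) < r
  · rw [hF _ h1]
  · simp [h1]

theorem prefT_congr {t : ℕ} {F F' : ℕ → Option Ev} {r j m : ℕ}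
    (hF : ∀ r' < r, F r' = F' r') : prefT t F r j m = prefT t F' r j m := by
  induction m with
  | zero =>
    rw [prefT_def', prefT_def']
    rfl
  | succ m ih => rw [prefT_succ, prefT_succ, ih, bitT_congr hF]

theorem bT_congr {t : ℕ} {F F' : ℕ → Option Ev} {r : ℕ}
    (hF : ∀ r' < r, F r' = F' r') : bT t F r = bT t F' r := by
  unfold bT
  rw [prefT_congr hF]

theorem sBet_congr {t : ℕ} {F F' : ℕ → Option Ev} {r : ℕ} {x : List Bool}
    (hF : ∀ r' < r, F r' = F' r') : sBet t F r x = sBet t F' r x := by
  unfold sBet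
  cases yT t r with
  | none => rfl
  | some y =>
    simp only
    cases dec y with
    | none => rfl
    | some c => simp only [unsat_congr hF, betC_congr hF, bT_congr hF]

@[fun_prop]
theorem pt_wonW {w : α → List Bool} {H : α → List (Option Ev)} {r e q : α → ℕ} (hw : PT w)
    (hH : PT H) (hr : PT r) (he : PT e) (hq : PT q) :
    PT (fun a => wonW (w a) (gF (H a)) (r a) (e a) (q a)) := by
  have h1 : PT (fun p : α × ℕ => Option.casesOn (motive := fun _ => Bool)
      (bI (gF (H p.1) p.2)) true
      fun b => !(decide (b.1 = e p.1)) || decide (bitAt (w p.1) b.2.1 = b.2.2)) := by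
    refine PT.optionCases (g := fun (p : α × ℕ) (b : ℕ × (List Bool × Bool)) =>
      !(decide (b.1 = e p.1)) || decide (bitAt (w p.1) b.2.1 = b.2.2))
      (by fun_prop) (by fun_prop) ?_
    unfold bitAt
    fun_prop
  have h2 : PT (fun p : α × ℕ => !(decide (qOf p.2 = q p.1)) ||
      Option.casesOn (motive := fun _ => Bool)
      (bI (gF (H p.1) p.2)) true
      fun b => !(decide (b.1 = e p.1)) || decide (bitAt (w p.1) b.2.1 = b.2.2)) :=
    PT.or (by fun_prop) h1
  refine (PT.all (l := fun a => List.range (r a)) (g := fun a r' => !(decide (qOf r' = q a)) ||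
      Option.casesOn (motive := fun _ => Bool)
      (bI (gF (H a) r')) true
      fun b => !(decide (b.1 = e a)) || decide (bitAt (w a) b.2.1 = b.2.2))
      (by fun_prop) h2).congr fun a => ?_
  unfold wonW
  congr 1
  funext r'
  congr 1
  cases bI (gF (H a) r') <;> rfl

/-- Capped capital of a chain. -/
def kapC (t : ℕ) (w : List Bool) (F : ℕ → Option Ev) (P r e q : ℕ) : ℕ :=
  if wonW w F r e q then cpow 2 (P - (Nat.pair e q + 1) + betCount F r e q) t else 0

@[fun_prop]
theorem pt_kapC {t P : α → ℕ} {w : α → List Bool} {H : α → List (Option Ev)} {r e q : α → ℕ}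
    (ht : PT t) (hw : PT w) (hH : PT H) (hP : PT P) (hr : PT r) (he : PT e) (hq : PT q) :
    PT (fun a => kapC (t a) (w a) (gF (H a)) (P a) (r a) (e a) (q a)) := by
  unfold kapC
  fun_prop

attribute [local irreducible] kapC wonW

/-- Capped total capital. -/
def valC (t : ℕ) (w : List Bool) (F : ℕ → Option Ev) (P r : ℕ) : ℕ :=
  1 + ((List.range P).map fun p => kapC t w F P r (Nat.unpair p).1 (Nat.unpair p).2).sum

@[fun_prop]
theorem pt_valC {t P : α → ℕ} {w : α → List Bool} {H : α → List (Option Ev)} {r : α → ℕ}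
    (ht : PT t) (hw : PT w) (hH : PT H) (hP : PT P) (hr : PT r) :
    PT (fun a => valC (t a) (w a) (gF (H a)) (P a) (r a)) := by
  unfold valC
  fun_prop

attribute [local irreducible] valC

/-- The value of the strategy, computed with caps. -/
def fracC (t : ℕ) (w : List Bool) (F : ℕ → Option Ev) (P r : ℕ) (o : Option (ℕ × Bool)) :
    ℕ × ℕ :=
  match o with
  | none => (1, 2)
  | some c => if c.2 then (valC t w F P r - kapC t w F P r c.1 (qOf r), 2 * valC t w F P r)
      else (valC t w F P r + kapC t w F P r c.1 (qOf r), 2 * valC t w F P r)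

theorem pt_fracC {t P : α → ℕ} {w : α → List Bool} {H : α → List (Option Ev)} {r : α → ℕ}
    {o : α → Option (ℕ × Bool)}
    (ht : PT t) (hw : PT w) (hH : PT H) (hP : PT P) (hr : PT r) (ho : PT o) :
    PT (fun a => fracC (t a) (w a) (gF (H a)) (P a) (r a) (o a)) :=
  (PT.optionCases (g := fun a (c : ℕ × Bool) => if c.2 then
      (valC (t a) (w a) (gF (H a)) (P a) (r a) -
        kapC (t a) (w a) (gF (H a)) (P a) (r a) c.1 (qOf (r a)),
        2 * valC (t a) (w a) (gF (H a)) (P a) (r a))
      else (valC (t a) (w a) (gF (H a)) (P a) (r a) +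
        kapC (t a) (w a) (gF (H a)) (P a) (r a) c.1 (qOf (r a)),
        2 * valC (t a) (w a) (gF (H a)) (P a) (r a)))
    ho (PT.const (1, 2)) (by fun_prop)).congr fun a => by
      unfold fracC
      cases o a <;> rfl

theorem pt_sBet {t r b : α → ℕ} {H : α → List (Option Ev)} {x : α → List Bool} (ht : PT t)
    (hH : PT H) (hr : PT r) (hx : PT x) (hb : PT b) (hle : ∀ a, h (r a) ≤ b a) :
    PT (fun a => sBet (t a) (gF (H a)) (r a) (x a)) := by
  have h0 := pt_yT ht hr hb hle
  have h1 : PT (fun p : (α × List Bool) × (ℕ × List Bool) => bT (t p.1.1) (gF (H p.1.1)) (r p.1.1)) :=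
    (pt_bT ht hH hr hb hle).comp PT.id.fst.fst
  have h2 : PT (fun p : (α × List Bool) × (ℕ × List Bool) =>
      if unsat (gF (H p.1.1)) (r p.1.1) (qOf (r p.1.1)) && long (r p.1.1) p.1.2 &&
        betC (gF (H p.1.1)) (r p.1.1) p.1.2 && decide (p.2.2 = x p.1.1) then
        some (p.2.1, bT (t p.1.1) (gF (H p.1.1)) (r p.1.1)) else none) := by
    refine PT.ite ?_ (PT.some (PT.pair (by fun_prop) h1)) (PT.const none)
    have h3 : Injective (toT : List Bool → T) := by
      intro a b hab
      have := toT_option_inj (a₁ := some a) (a₂ := some b) (by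
        simp only [toT_some, hab])
      simpa using this
    have h4 : PT (fun p : (α × List Bool) × (ℕ × List Bool) => decide (p.2.2 = x p.1.1)) :=
      PT.eqOfInj h3 (by fun_prop) (by fun_prop)
    exact PT.and (by fun_prop) h4
  have h5 : PT (fun p : α × List Bool => Option.casesOn (motive := fun _ => Option (ℕ × Bool))
      (dec p.2) none fun c =>
      if unsat (gF (H p.1)) (r p.1) (qOf (r p.1)) && long (r p.1) p.2 &&
        betC (gF (H p.1)) (r p.1) p.2 && decide (c.2 = x p.1) then
        some (c.1, bT (t p.1) (gF (H p.1)) (r p.1)) else none) :=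
    PT.optionCases (g := fun (p : α × List Bool) (c : ℕ × List Bool) =>
      if unsat (gF (H p.1)) (r p.1) (qOf (r p.1)) && long (r p.1) p.2 &&
        betC (gF (H p.1)) (r p.1) p.2 && decide (c.2 = x p.1) then
        some (c.1, bT (t p.1) (gF (H p.1)) (r p.1)) else none)
      (by fun_prop) (PT.const none) h2
  refine (PT.optionCases (g := fun (a : α) (y : List Bool) =>
      Option.casesOn (motive := fun _ => Option (ℕ × Bool))
      (dec y) none fun c =>
      if unsat (gF (H a)) (r a) (qOf (r a)) && long (r a) y &&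
        betC (gF (H a)) (r a) y && decide (c.2 = x a) then
        some (c.1, bT (t a) (gF (H a)) (r a)) else none) h0 (PT.const none) h5).congr
      fun a => ?_
  unfold sBet
  cases yT (t a) (r a) with
  | none => rfl
  | some y =>
    simp only
    cases dec y <;> rfl

/-! ### Bounds -/

theorem sq_le_h (r : ℕ) : (r + 1) ^ 2 ≤ h r + 1 := by
  induction r with
  | zero => omega
  | succ r ih =>
    have h1 := two_pow_lt_h r
    have h2 : r ≤ h r := le_h r
    have h3 : ∀ n : ℕ, (n + 2) ^ 2 ≤ 2 ^ (n + 2 ^ n) + 2 := by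
      intro n
      have h4 : n + 1 ≤ 2 ^ n := Nat.lt_two_pow_self
      have h5 : 2 ^ (n + (n + 1)) ≤ 2 ^ (n + 2 ^ n) :=
        Nat.pow_le_pow_right (by norm_num) (by omega)
      have h6 : 2 ^ (n + (n + 1)) = 2 * (2 ^ n * 2 ^ n) := by
        rw [pow_add, pow_succ]; ring
      have h7 : (n + 1) * (n + 1) ≤ 2 ^ n * 2 ^ n := Nat.mul_le_mul h4 h4
      nlinarith
    have h4 : (r + 1 + 1) ^ 2 ≤ (h r + 2) ^ 2 := Nat.pow_le_pow_left (by omega) 2
    have h5 := h3 (h r)
    omega

theorem kapC_eq {t : ℕ} {w : List Bool} {P r e q : ℕ} (hP : Nat.pair e q < P)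
    (ht : 2 ^ (2 * P) ≤ t) : kapC t w EV P r e q = kapN w EV P r e q := by
  unfold kapC kapN
  split_ifs
  · refine cpow_eq (le_trans (Nat.pow_le_pow_right (by norm_num) ?_) ht)
    have h1 := betCount_le r e q
    have h2 : thr e q = 2 * Nat.pair e q + 2 := by unfold thr; rfl
    omega
  · rfl

theorem kapC_congr {t : ℕ} {w : List Bool} {F F' : ℕ → Option Ev} {P r e q : ℕ}
    (hF : ∀ r' < r, F r' = F' r') : kapC t w F P r e q = kapC t w F' P r e q := by
  unfold kapC
  rw [wonW_congr hF, betCount_congr hF]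

theorem valC_congr {t : ℕ} {w : List Bool} {F F' : ℕ → Option Ev} {P r : ℕ}
    (hF : ∀ r' < r, F r' = F' r') : valC t w F P r = valC t w F' P r := by
  unfold valC
  simp only [kapC_congr hF]

theorem valC_eq {t : ℕ} {w : List Bool} {P r : ℕ} (ht : 2 ^ (2 * P) ≤ t) :
    valC t w EV P r = valN w EV P r := by
  unfold valC valN
  congr 1
  congr 1
  refine List.map_congr_left fun p hp => ?_
  rw [List.mem_range] at hp
  exact kapC_eq (by rwa [Nat.pair_unpair]) ht

/-- The strategy, computed with caps. -/
def stratC (w : List Bool) : ℕ × ℕ :=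
  fracC ((2 * w.length + 2) * (2 * w.length + 2)) w
    (gF (hist (rOf (str w.length).length)))
    ((rOf (str w.length).length + 1) * (rOf (str w.length).length + 1))
    (rOf (str w.length).length)
    (sBet (2 * w.length + 2) (gF (hist (rOf (str w.length).length)))
      (rOf (str w.length).length) (str w.length))

theorem pt_stratC : PT stratC := by
  have h1 : PT (fun w : List Bool => sBet (2 * w.length + 2)
      (gF (hist (rOf (str w.length).length)))
      (rOf (str w.length).length) (str w.length)) :=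
    pt_sBet (by fun_prop) (by fun_prop) (by fun_prop) (by fun_prop)
      (b := fun w => (str w.length).length) (by fun_prop) fun w => h_rOf_le _
  exact pt_fracC (by fun_prop) (by fun_prop) (by fun_prop) (by fun_prop) (by fun_prop) h1

theorem stratC_eq (w : List Bool) : stratC w = stratN w := by
  set r := rOf (str w.length).length with hr
  have hF : ∀ r' < r, gF (hist r) r' = EV r' := fun r' hr' => gF_hist hr'
  have hsq : (r + 1) ^ 2 ≤ (str w.length).length + 1 :=
    (sq_le_h r).trans (Nat.add_le_add_right (h_rOf_le _) 1)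
  have ht : 2 ^ (2 * (r + 1) ^ 2) ≤ (2 * w.length + 2) * (2 * w.length + 2) := by
    have h1 : 2 ^ (r + 1) ^ 2 ≤ 2 * w.length + 2 :=
      (Nat.pow_le_pow_right (by norm_num) hsq).trans (str_bound _)
    rw [two_mul, pow_add]
    exact Nat.mul_le_mul h1 h1
  have hm : (r + 1) * (r + 1) = (r + 1) ^ 2 := by ring
  unfold stratC stratN
  rw [← hr, hm, sBet_congr hF]
  cases hs : sBet (2 * w.length + 2) EV r (str w.length) with
  | none => rfl
  | some c =>
    obtain ⟨e, d⟩ := c
    have hb := sBet_some hr.symm (str_bound _) hs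
    have hp : Nat.pair e (qOf r) < (r + 1) ^ 2 := pair_lt (bI_lt hb).1 (qOf_le _) le_rfl
    unfold fracC frac
    simp only
    rw [valC_congr hF, kapC_congr hF, valC_eq ht, kapC_eq hp ht]

theorem strategyIn_strat : ∃ c : ℕ, StrategyIn strat fun n => n ^ c + c := by
  have h1 : PT (fun w : List Bool => pairStr (stratC w).1.bits (stratC w).2.bits) := by
    have := pt_stratC
    fun_prop
  obtain ⟨c, hc⟩ := computableIn_poly h1
  refine ⟨c, fun w => (stratN w).1, fun w => (stratN w).2, fun w => ⟨stratN_snd_pos w, rfl⟩, ?_⟩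
  simpa only [stratC_eq] using hc

end Pool.Agent.Lib.MP_7fc3ed_lc
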