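import Pool.Agent.Lib.MP_7fc3ed_lc.StratPT

/-!
# The strategy succeeds on the sets in `E` that are not reducible to `A`
-/

namespace Pool.Agent.Lib.MP_7fc3ed_lc

open Pool.Agent.PolyTime Function

theorem codeA_cd (e : ℕ) (x : List Bool) : codeA (cd e x) =
    decide (U (tree (Nat.unpair e).1) x (2 ^ ((e + 1) * (x.length + 1))) = some [true]) := by
  unfold codeA
  rw [dec_eq_some.2 rfl, length_cd]

theorem okEv_some (y : List Bool) (k : ℕ) (a d : Bool) :
    okEv (some (y, (k, (a, d)))) = decide (a = d) := rfl

theorem EV_bit {r : ℕ} {y : List Bool} (hu : unsat EV r (qOf r) = true) (hY : Y r = some y)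
    (hl : long r y = true) : EV r = some (y, (if betC EV r y then 2 else 1, (A y, Bt r))) := by
  rw [EV_eq, if_pos hu, hY]
  simp only
  rw [if_pos hl]

theorem unsat_iff (r q : ℕ) : unsat EV r q = true ↔ ∀ r' < r, qOf r' = q → okEv (EV r') = true := by
  unfold unsat
  rw [List.all_eq_true]
  constructor
  · intro h1 r' hr' hq
    have h2 := h1 r' (List.mem_range.2 hr')
    simpa [hq] using h2
  · intro h1 r' hr'
    rw [List.mem_range] at hr'
    by_cases hq : qOf r' = q
    · simp [hq, h1 r' hr' hq]
    · simp [hq]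

attribute [local irreducible] h rOf unpairStr tree U qOf iOf jOf ones dec cd okEv
  unsat highCount betCount thr betC fuel outT nbT smallT lg isSpec bitT prefT yT codeT bT long
  aT hT evT ble badd shl str idx zs hist EV A Bt Y LL codeA bI

/-- The sets in `E` are coded. -/
theorem exists_e {B : Lang} (hB : B ∈ ClassE) : ∃ e, ∀ x, codeA (cd e x) = B x := by
  obtain ⟨c, M, hfin, ht⟩ := hB
  obtain ⟨code, C, hC⟩ := exists_code M hfin
  obtain ⟨i, hi⟩ := exists_tree code
  refine ⟨Nat.pair i (C + c), fun x => ?_⟩
  rw [codeA_cd, Nat.unpair_pair]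
  simp only
  rw [hi, hC x]
  · cases B x <;> simp
  · refine (Nat.mul_le_mul_left _ (ht _)).trans ?_
    have h1 : C ≤ 2 ^ C := Nat.lt_two_pow_self.le
    have h2 : C + c ≤ Nat.pair i (C + c) := Nat.right_le_pair _ _
    calc C * 2 ^ (c * x.length + c) ≤ 2 ^ C * 2 ^ (c * x.length + c) := Nat.mul_le_mul_right _ h1
      _ = 2 ^ (C + (c * x.length + c)) := by rw [← pow_add]
      _ ≤ 2 ^ ((Nat.pair i (C + c) + 1) * (x.length + 1)) := by
        refine Nat.pow_le_pow_right (by norm_num) ?_
        have h3 : (C + c) * (x.length + 1) ≤ (Nat.pair i (C + c) + 1) * (x.length + 1) :=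
          Nat.mul_le_mul_right _ (by omega)
        nlinarith [Nat.zero_le (C * x.length)]

/-- The values of `A` that are not the default ones. -/
theorem injury {y : List Bool} (hy : A y ≠ codeA y) :
    unsat EV (rOf y.length) (qOf (rOf y.length)) = true ∧ Y (rOf y.length) = some y ∧
      long (rOf y.length) y = true ∧ betC EV (rOf y.length) y = false ∧
        A y = !Bt (rOf y.length) := by
  have h1 := A_eq y
  by_cases hc : (unsat EV (rOf y.length) (qOf (rOf y.length)) &&
      decide (Y (rOf y.length) = some y) && long (rOf y.length) y &&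
      !betC EV (rOf y.length) y) = true
  · rw [if_pos hc] at h1
    simp only [Bool.and_eq_true, decide_eq_true_eq, Bool.not_eq_true'] at hc
    exact ⟨hc.1.1.1, hc.1.1.2, hc.1.2, hc.2, h1⟩
  · rw [if_neg hc] at h1
    exact absurd h1 hy

/-- Both values are assumed. -/
theorem exists_value (b : Bool) : ∃ y, A y = b := by
  obtain ⟨e, he⟩ := exists_e (B := fun _ => b) (mem_ClassE (f := fun _ => b) (PT.const b) 0
    fun _ => rfl)
  by_contra hcon
  push Not at hcon
  have h1 : ∀ x, Y (rOf (cd e x).length) = some (cd e x) := by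
    intro x
    refine (injury ?_).2.1
    rw [he x]
    exact hcon _
  have h2 := h1 [true]
  have h3 := h1 [false]
  have h4 : (cd e [true]).length = (cd e [false]).length := by rw [length_cd, length_cd]; rfl
  rw [h4, h3, Option.some.injEq] at h2
  have h5 := dec_eq_some.2 h2
  rw [dec_eq_some.2 rfl] at h5
  simp at h5

/-- Membership of a word in a constant list. -/
theorem pt_mem_const (L : List (List Bool)) : PT (fun x : List Bool => decide (x ∈ L)) := by
  have h3 : Injective (toT : List Bool → T) := by
    intro a b hab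
    have := toT_option_inj (a₁ := some a) (a₂ := some b) (by simp only [toT_some, hab])
    simpa using this
  have h1 : PT (fun x : List Bool => L.any fun z => decide (z = x)) :=
    PT.any (g := fun x z => decide (z = x)) (PT.const L) (PT.eqOfInj h3 PT.id.snd PT.id.fst)
  refine h1.congr fun x => ?_
  rw [Bool.eq_iff_iff, List.any_eq_true, decide_eq_true_eq]
  simp

/-- If there are finitely many injuries, the set is reducible to `A`. -/
theorem reduces_of_finite {B : Lang} {e : ℕ} (hJ : {x | A (cd e x) ≠ B x}.Finite) :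
    Reduces B A := by
  classical
  obtain ⟨y1, hy1⟩ := exists_value true
  obtain ⟨y0, hy0⟩ := exists_value false
  let L1 : List (List Bool) := hJ.toFinset.toList.filter fun x => B x
  let L0 : List (List Bool) := hJ.toFinset.toList.filter fun x => !B x
  refine ⟨fun x => if x ∈ L1 then y1 else if x ∈ L0 then y0 else cd e x, ?_, fun x => ?_⟩
  · apply computableIn_poly
    have h1 : PT (fun x : List Bool => cd e x) := by fun_prop
    have h2 := PT.iteProp (pt_mem_const L1) (PT.const (α := List Bool) y1)
      (PT.iteProp (pt_mem_const L0) (PT.const (α := List Bool) y0) h1)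
    refine h2.congr fun x => ?_
    congr
  · simp only
    split_ifs with h1 h2
    · rw [hy1]
      simp only [L1, List.mem_filter] at h1
      exact h1.2
    · rw [hy0]
      simp only [L0, List.mem_filter] at h2
      simpa using h2.2
    · by_contra h3
      have h4 : x ∈ hJ.toFinset.toList := by
        simp only [Finset.mem_toList, Set.Finite.mem_toFinset, Set.mem_ofPred_eq]
        exact fun h5 => h3 h5.symm
      cases hB : B x
      · exact h2 (List.mem_filter.2 ⟨h4, by simp [hB]⟩)
      · exact h1 (List.mem_filter.2 ⟨h4, hB⟩)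

section

variable {B : Lang} {e : ℕ}

/-- After an injury the requirement is met. -/
theorem met_after {r : ℕ} {y : List Bool} (hu : unsat EV r (qOf r) = true)
    (hY : Y r = some y) (hl : long r y = true) (hA : A y = !Bt r) {r'' : ℕ} (hr : r < r'') :
    unsat EV r'' (qOf r) = false := by
  rw [← Bool.not_eq_true, unsat_iff]
  intro h1
  have h2 := h1 r hr rfl
  rw [EV_bit hu hY hl, okEv_some, hA] at h2
  simp at h2

/-- The bets placed for an unmet requirement are won on the coded set. -/
theorem won_of (he : ∀ x, codeA (cd e x) = B x) {r q : ℕ} (hu : unsat EV r q = true) :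
    Won B r e q := by
  intro r' hr' hq x d hb
  obtain ⟨h1, h2, h3, -, h5, h6⟩ := bI_EV hb
  have h7 := (unsat_iff r q).1 hu r' hr' hq
  rw [h1, okEv_some, decide_eq_true_eq] at h7
  have h8 : rOf (cd e x).length = r' := by
    refine rOf_eq ?_ (length_Y h3)
    rw [long_iff] at h5
    have h9 := h_lt_LL r'
    have h10 : LL r' ≤ (h r' + 1) * LL r' := Nat.le_mul_of_pos_left _ (by omega)
    omega
  have h9 : A (cd e x) = codeA (cd e x) := by
    by_contra h10
    have h11 := (injury h10).2.2.2.1
    rw [h8, h6] at h11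
    simp at h11
  rw [← he x, ← h9, h7, h2]

theorem Won_mono {r r'' q : ℕ} (hw : Won B r e q)
    (hn : ∀ s, r ≤ s → s < r'' → qOf s = q → ∀ x d, bI (EV s) ≠ some (e, (x, d))) :
    Won B r'' e q := by
  intro r' hr' hq x d hb
  rcases Nat.lt_or_ge r' r with h1 | h1
  · exact hw r' h1 hq x d hb
  · exact absurd hb (hn r' h1 hr' hq x d)

theorem betCount_mono' {r r'' q : ℕ} (hr : r ≤ r'') :
    betCount EV r e q ≤ betCount EV r'' e q := by
  obtain ⟨n, rfl⟩ := Nat.exists_eq_add_of_le hr
  clear hr
  induction n with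
  | zero => exact le_rfl
  | succ n ih => rw [← add_assoc, betCount_succ_bets]; omega

/-- The stage of an injury with a large requirement makes the strategy rich. -/
theorem rich (he : ∀ x, codeA (cd e x) = B x) {x : List Bool} (hx : A (cd e x) ≠ B x)
    (hq : e < qOf (rOf (cd e x).length)) {r'' : ℕ} (hr'' : rOf (cd e x).length < r'') :
    (qOf (rOf (cd e x).length) : ℚ) ≤ Val B r'' := by
  set r := rOf (cd e x).length with hr
  rw [← he x] at hx
  obtain ⟨hu, hY, hl, hc, hA⟩ := injury hx
  rw [← hr] at hu hY hl hc hA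
  have h1 : thr e (qOf r) ≤ betCount EV r e (qOf r) := by
    rw [betC_cd, Bool.and_eq_false_iff] at hc
    rcases hc with hc | hc
    · rw [decide_eq_false_iff_not] at hc
      exact absurd hq hc
    · rw [decide_eq_false_iff_not] at hc
      omega
  have h2 : Won B r'' e (qOf r) := by
    refine Won_mono (won_of he hu) fun s hs hs' hqs x' d' hb => ?_
    rcases hs.eq_or_lt with h3 | h3
    · rw [← h3] at hb
      have h4 := bI_EV hb
      rw [hY, Option.some.injEq] at h4
      have h5 := h4.2.2.2.2.2
      rw [← h4.2.2.1, hc] at h5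
      simp at h5
    · have h4 := met_after hu hY hl hA h3
      have h5 := (bI_EV hb).2.2.2.1
      rw [hqs, h4] at h5
      simp at h5
  have h3 : thr e (qOf r) ≤ betCount EV r'' e (qOf r) := h1.trans (betCount_mono' hr''.le)
  have h4 : thr e (qOf r) = 2 * Nat.pair e (qOf r) + 2 := by unfold thr; rfl
  refine le_trans ?_ (kap_le_Val B r'' e (qOf r))
  unfold kap
  rw [if_pos h2, le_div_iff₀ (by positivity)]
  have h5 : qOf r ≤ Nat.pair e (qOf r) := Nat.right_le_pair _ _
  have h6 : qOf r * 2 ^ (Nat.pair e (qOf r) + 1) ≤ 2 ^ betCount EV r'' e (qOf r) := by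
    have h7 : Nat.pair e (qOf r) < 2 ^ Nat.pair e (qOf r) := Nat.lt_two_pow_self
    calc qOf r * 2 ^ (Nat.pair e (qOf r) + 1)
        ≤ 2 ^ Nat.pair e (qOf r) * 2 ^ (Nat.pair e (qOf r) + 1) :=
          Nat.mul_le_mul_right _ (by omega)
      _ = 2 ^ (Nat.pair e (qOf r) + (Nat.pair e (qOf r) + 1)) := by rw [← pow_add]
      _ ≤ _ := Nat.pow_le_pow_right (by norm_num) (by omega)
  exact_mod_cast h6

/-- If there are infinitely many injuries, there are injuries with large requirements. -/
theorem exists_injury (he : ∀ x, codeA (cd e x) = B x)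
    (hJ : ¬ {x | A (cd e x) ≠ B x}.Finite) (Q : ℕ) :
    ∃ x, A (cd e x) ≠ B x ∧ Q < qOf (rOf (cd e x).length) := by
  by_contra hcon
  push Not at hcon
  apply hJ
  refine Set.Finite.of_finite_image (f := fun x => qOf (rOf (cd e x).length))
    ((Set.finite_Iic Q).subset ?_) ?_
  · rintro _ ⟨x, hx, rfl⟩
    exact hcon x hx
  · intro x hx x' hx' hq
    simp only [Set.mem_ofPred_eq] at hx hx'
    rw [← he x] at hx
    rw [← he x'] at hx'
    obtain ⟨hu, hY, hl, -, hA⟩ := injury hx
    obtain ⟨hu', hY', hl', -, hA'⟩ := injury hx'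
    simp only at hq
    have h1 : rOf (cd e x).length = rOf (cd e x').length := by
      rcases Nat.lt_trichotomy (rOf (cd e x).length) (rOf (cd e x').length) with h1 | h1 | h1
      · have h2 := met_after hu hY hl hA h1
        rw [hq, hu'] at h2
        simp at h2
      · exact h1
      · have h2 := met_after hu' hY' hl' hA' h1
        rw [← hq, hu] at h2
        simp at h2
    rw [← h1, hY, Option.some.injEq] at hY'
    have h5 := dec_eq_some.2 hY'
    rw [dec_eq_some.2 rfl] at h5
    simp only [Option.some.injEq, Prod.mk.injEq, true_and] at h5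
    exact h5

/-- The strategy succeeds on the sets in `E` that are not reducible to `A`. -/
theorem succeeds_strat (hB : B ∈ ClassE) (hR : ¬ Reduces B A) : Succeeds strat B := by
  obtain ⟨e, he⟩ := exists_e hB
  have hJ : ¬ {x | A (cd e x) ≠ B x}.Finite := fun h1 => hR (reduces_of_finite h1)
  intro K N
  obtain ⟨x, hx, hq⟩ := exists_injury he hJ (e + ⌈K⌉₊)
  set r := rOf (cd e x).length with hr
  refine ⟨2 ^ h (r + 1 + N) - 1, ?_, ?_⟩
  · have h1 : r + 1 + N ≤ h (r + 1 + N) := le_h _
    have h2 : h (r + 1 + N) < 2 ^ h (r + 1 + N) := Nat.lt_two_pow_self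
    omega
  · rw [capital_strat_pow]
    have h1 := rich he hx (lt_of_le_of_lt (Nat.le_add_right _ _) hq) (r'' := r + 1 + N) (by omega)
    have h2 : K ≤ (⌈K⌉₊ : ℚ) := Nat.le_ceil K
    have h3 : ((e + ⌈K⌉₊ : ℕ) : ℚ) < (qOf r : ℚ) := by exact_mod_cast hq
    push_cast at h3
    have h4 : (0 : ℚ) ≤ (e : ℚ) := Nat.cast_nonneg _
    linarith

end

/-- `A` is almost complete for `E`. -/
theorem almostCompleteE_A : AlmostCompleteE A :=
  ⟨A_mem, strat, isStrategy_strat, strategyIn_strat, fun _ hB => succeeds_strat hB.2 hB.1⟩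

end Pool.Agent.Lib.MP_7fc3ed_lc
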